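import Pool.Agent.MP_17fac5_an.Js.St

set_option autoImplicit false

namespace Pool.Agent.MP_17fac5_an.Js

open MeasureTheory Filter Topology Metric Set Polynomial
open scoped ComplexConjugate ENNReal

lemma nrm_Proj {μ : Measure ℂ} (U : Lp ℂ 2 μ) {g : ℂ → ℂ} (h : U =ᵐ[μ] g) :
    ∫⁻ z, ‖g z‖ₑ ^ (2 : ℕ) ∂μ = ENNReal.ofReal (‖U‖ ^ 2) := by
  have e := eLpNorm_nnreal_pow_eq_lintegral (f := U) (μ := μ) (p := 2) two_ne_zero
  simp only [NNReal.coe_ofNat, ENNReal.coe_ofNat, ENNReal.rpow_ofNat] at e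
  rw [ENNReal.ofReal_pow (norm_nonneg _), ofReal_norm, Lp.enorm_def, e]
  exact lintegral_congr_ae (h.mono fun z hz => by simp only [hz])

lemma inn_Proj {μ : Measure ℂ} (U f : Lp ℂ 2 μ) {g : ℂ → ℂ} (h : f =ᵐ[μ] g) :
    ∫ z, g z * conj (U z) ∂μ = inner ℂ U f := by
  rw [L2.inner_def]
  exact integral_congr_ae (h.mono fun z hz => by simp only [hz, RCLike.inner_apply])

/-- the classes of polynomials -/
def pol_Proj (μ : Measure ℂ) : Submodule ℂ (Lp ℂ 2 μ) where
  carrier := {f | ∃ p : ℂ[X], f =ᵐ[μ] fun z => p.eval z}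
  add_mem' := by
    rintro f g ⟨p, hp⟩ ⟨q, hq⟩
    refine ⟨p + q, ?_⟩
    filter_upwards [Lp.coeFn_add f g, hp, hq] with z h1 h2 h3
    rw [h1, Pi.add_apply, h2, h3, eval_add]
  zero_mem' := ⟨0, (Lp.coeFn_zero ℂ 2 μ).mono fun _ hz => hz.trans eval_zero.symm⟩
  smul_mem' := by
    rintro c f ⟨p, hp⟩
    refine ⟨C c * p, ?_⟩
    filter_upwards [Lp.coeFn_smul c f, hp] with z h1 h2
    rw [h1, Pi.smul_apply, h2, eval_mul, eval_C, smul_eq_mul]

theorem sProj : SProj := by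
  intro μ v ε _ hμ hv hv2 hε hp
  have mv : MemLp v 2 μ := ⟨hv.aestronglyMeasurable,
    (eLpNorm_lt_top_iff_lintegral_rpow_enorm_lt_top two_ne_zero ENNReal.ofNat_ne_top).2 (by
      simpa only [ENNReal.toReal_ofNat, ENNReal.rpow_ofNat] using hv2)⟩
  have mp : ∀ n : ℕ, MemLp (fun z : ℂ => z ^ n) 2 μ := fun n =>
    (memLp_two_iff_integrable_sq_norm (continuous_pow n).aestronglyMeasurable).2
      (int_cont hμ.ae ((continuous_pow n).norm.pow 2).continuousOn)
  obtain ⟨y, hy, U, hU, e⟩ :=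
    (pol_Proj μ).topologicalClosure.exists_add_mem_mem_orthogonal (mv.toLp v)
  obtain ⟨x, hx, lim⟩ := mem_closure_iff_seq_limit.1 hy
  choose P hP using hx
  refine ⟨U, (Lp.stronglyMeasurable U).measurable, ?_, fun n => ?_, fun h0 => ?_, ?_⟩
  · rw [nrm_Proj U EventuallyEq.rfl]
    exact ENNReal.ofReal_lt_top
  · rw [inn_Proj U _ (mp n).coeFn_toLp]
    refine (Submodule.mem_orthogonal' _ _).1 hU _ (Submodule.le_topologicalClosure _ ⟨X ^ n, ?_⟩)
    simpa only [eval_pow, eval_X] using (mp n).coeFn_toLp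
  · rw [inn_Proj U _ mv.coeFn_toLp, e, inner_add_right,
      (Submodule.mem_orthogonal' _ _).1 hU y hy, zero_add, inner_self_eq_zero] at h0
    rw [h0, add_zero] at e
    have l2 : Tendsto (fun k => ‖x k - y‖ ^ 2) atTop (𝓝 (0 ^ 2)) :=
      (tendsto_iff_norm_sub_tendsto_zero.1 lim).pow 2
    obtain ⟨k, hk⟩ := (l2.eventually (gt_mem_nhds (by simpa using hε))).exists
    have h1 : (x k - y : Lp ℂ 2 μ) =ᵐ[μ] fun z => (P k).eval z - v z := by
      filter_upwards [Lp.coeFn_sub (x k) y, hP k, mv.coeFn_toLp] with z h1 h2 h3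
      rw [h1, Pi.sub_apply, h2, ← e, h3]
    have h2 := hp (P k)
    rw [nrm_Proj _ h1, ENNReal.ofReal_le_ofReal_iff (sq_nonneg _)] at h2
    exact h2.not_gt hk
  · obtain ⟨B, hB⟩ := (lim.norm.pow 2).bddAbove_range
    obtain ⟨ns, -, hn⟩ := (tendstoInMeasure_of_tendsto_Lp lim).exists_seq_tendsto_ae
    refine ⟨fun k => P (ns k), B, (sq_nonneg _).trans (hB ⟨0, rfl⟩), fun k => ?_, ?_⟩
    · rw [nrm_Proj _ (hP (ns k))]
      exact ENNReal.ofReal_le_ofReal (hB ⟨ns k, rfl⟩)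
    · filter_upwards [hn, ae_all_iff.2 hP, mv.coeFn_toLp, Lp.coeFn_add y U] with z h1 h2 h3 h4
      rw [e, h4, Pi.add_apply] at h3
      rw [← h3, add_sub_cancel_right]
      simpa only [h2] using h1

lemma dens_Mu (ν : Measure ℂ) (d : ℂ → ℝ) (hd : Measurable d) (h0 : ∀ᵐ z ∂ν, 0 ≤ d z)
    (f : ℂ → ℂ) (hf : Integrable f (ν.withDensity fun z => ENNReal.ofReal (d z))) :
    Integrable (fun z => f z * (d z : ℂ)) ν ∧
      ∫ z, f z ∂(ν.withDensity fun z => ENNReal.ofReal (d z)) = ∫ z, f z * (d z : ℂ) ∂ν := by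
  have hm : Measurable fun z => ENNReal.ofReal (d z) := hd.ennreal_ofReal
  have ht : ∀ᵐ z ∂ν, ENNReal.ofReal (d z) < ⊤ := Eventually.of_forall fun _ => ENNReal.ofReal_lt_top
  have e : (fun z => (ENNReal.ofReal (d z)).toReal • f z) =ᵐ[ν] fun z => f z * (d z : ℂ) := by
    filter_upwards [h0] with z hz
    rw [ENNReal.toReal_ofReal hz, Complex.real_smul, mul_comm]
  refine ⟨((integrable_withDensity_iff_integrable_smul' hm ht).1 hf).congr e, ?_⟩
  rw [integral_withDensity_eq_integral_toReal_smul hm ht]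
  exact integral_congr_ae e

theorem sMu : SMu := by
  intro γ L s W hγ hs hW
  have mγ : Measurable fun z => γ z ^ s := hγ.lip.continuous.measurable.pow_const s
  have m1 : Measurable fun z => ENNReal.ofReal (γ z ^ s) := mγ.ennreal_ofReal
  have m2 : Measurable fun z => ENNReal.ofReal (W z) := hW.meas.ennreal_ofReal
  have ab : ∀ᵐ z ∂volume.restrict (ball (0 : ℂ) 1), ‖z‖ < 1 := by
    filter_upwards [ae_restrict_mem (μ := volume) (measurableSet_ball (x := (0 : ℂ)) (ε := 1))]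
      with z hz
    simpa using hz
  have p1 : ∀ᵐ z ∂volume.restrict (ball (0 : ℂ) 1), 0 ≤ γ z ^ s := by
    filter_upwards [ab] with z hz using Real.rpow_nonneg (hγ.nonneg z hz) s
  have f1 : IsFiniteMeasure
      ((volume.restrict (ball (0 : ℂ) 1)).withDensity fun z => ENNReal.ofReal (γ z ^ s)) := by
    refine isFiniteMeasure_withDensity (ne_of_lt ?_)
    calc ∫⁻ z in ball (0 : ℂ) 1, ENNReal.ofReal (γ z ^ s)
        ≤ ∫⁻ _ in ball (0 : ℂ) 1, ENNReal.ofReal ((L : ℝ) ^ s) := by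
          refine lintegral_mono_ae ?_
          filter_upwards [ab] with z hz
          refine ENNReal.ofReal_le_ofReal (Real.rpow_le_rpow (hγ.nonneg z hz) ?_ hs.le)
          have h1 := hγ.le hz.le
          have h2 := norm_nonneg z
          have h3 : (0 : ℝ) ≤ L := L.2
          nlinarith
      _ < ⊤ := by
          rw [lintegral_const, Measure.restrict_apply_univ]
          exact ENNReal.mul_lt_top ENNReal.ofReal_lt_top measure_ball_lt_top
  have f2 : IsFiniteMeasure (sig.withDensity fun z => ENNReal.ofReal (W z)) :=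
    isFiniteMeasure_withDensity hW.fin.ne
  refine ⟨by unfold mu; infer_instance, ?_, fun f hf => ?_, fun f _ hf => ?_, fun Q hQ => ?_⟩
  · have h : ∀ᵐ z ∂mu γ s W, z ∈ closedBall (0 : ℂ) 1 := by
      rw [mu, ae_add_measure_iff]
      refine ⟨(withDensity_absolutelyContinuous _ _).ae_le ?_,
        (withDensity_absolutelyContinuous _ _).ae_le ?_⟩
      · filter_upwards [ab] with z hz
        simpa using hz.le
      · filter_upwards [sig_ae] with z hz
        simpa using hz.le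
    exact h
  · rw [mu, lintegral_add_measure, lintegral_withDensity_eq_lintegral_mul _ m1 hf,
      lintegral_withDensity_eq_lintegral_mul _ m2 hf]
    rfl
  · rw [mu, integrable_add_measure] at hf
    obtain ⟨a1, a2⟩ := dens_Mu _ _ mγ p1 f hf.1
    obtain ⟨b1, b2⟩ := dens_Mu _ _ hW.meas (Eventually.of_forall hW.nonneg) f hf.2
    refine ⟨a1, b1, ?_⟩
    rw [mu, integral_add_measure hf.1 hf.2, a2, b2]
  · rw [mu, ae_add_measure_iff, ae_withDensity_iff m1] at hQ
    filter_upwards [hQ.1, ab] with z h1 h2 h3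
    exact h1 (ENNReal.ofReal_pos.2 (Real.rpow_pos_of_pos ((hγ.nonneg z h2).lt_of_ne' h3) s)).ne'

lemma int_Dual {μ : Measure ℂ} [IsFiniteMeasure μ] {u : ℂ → ℂ} (hu : Measurable u)
    (h : ∫⁻ z, ‖u z‖ₑ ^ (2 : ℕ) ∂μ < ⊤) : Integrable u μ := by
  have h2 : MemLp u 2 μ := ⟨hu.aestronglyMeasurable,
    (eLpNorm_lt_top_iff_lintegral_rpow_enorm_lt_top (by norm_num) (by norm_num)).2 (by
      simpa using h)⟩
  exact h2.integrable one_le_two

lemma bd_Dual {x t s D : ℝ} (hs : 2 < s) (ht : 0 ≤ t) (h : x ^ 2 * t ^ (s + 2) ≤ D) :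
    x * t ^ s ≤ √D * t ^ (s / 2 - 1) := by
  rcases ht.eq_or_lt with rfl | ht
  · rw [Real.zero_rpow (by linarith), Real.zero_rpow (by linarith), mul_zero, mul_zero]
  have e1 : t ^ (s + 2) = (t ^ (s / 2 + 1)) ^ 2 := by
    rw [sq, ← Real.rpow_add ht]
    congr 1
    ring
  have e2 : t ^ s = t ^ (s / 2 + 1) * t ^ (s / 2 - 1) := by
    rw [← Real.rpow_add ht]
    congr 1
    ring
  have h1 : x * t ^ (s / 2 + 1) ≤ √D := Real.le_sqrt_of_sq_le (by rw [mul_pow, ← e1]; exact h)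
  rw [e2, ← mul_assoc]
  exact mul_le_mul_of_nonneg_right h1 (Real.rpow_pos_of_pos ht _).le

theorem sDual (h1 : SPt) (h2 : SProj) (h3 : SMu) : SDual := by
  intro γ L s W S g₀ hγ hs hW hg hS hfin hA
  obtain ⟨hμ, hcl, hl, hi, hae⟩ := h3 γ L s W hγ (by linarith) hW
  obtain ⟨C, hC, hPt⟩ := h1 γ L s hγ (by linarith)
  have hγm : Measurable γ := hγ.lip.continuous.measurable
  have hb : MeasurableSet (ball (0 : ℂ) 1) := measurableSet_ball
  set v : ℂ → ℂ := (sphere (0 : ℂ) 1).indicator g₀ with hv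
  have hvm : Measurable v := hg.indicator isClosed_sphere.measurableSet
  have v0 : ∀ z ∈ ball (0 : ℂ) 1, v z = 0 := fun z hz =>
    indicator_of_notMem (fun c => (mem_ball_zero_iff.1 hz).ne (mem_sphere_zero_iff_norm.1 c)) _
  have v1 : ∀ᵐ z ∂sig, v z = g₀ z := sig_ae.mono fun z hz =>
    indicator_of_mem (mem_sphere_zero_iff_norm.2 hz) _
  have key : ∀ p : ℂ[X], ∫⁻ z, ‖p.eval z - v z‖ₑ ^ (2 : ℕ) ∂mu γ s W =
      nG γ s p + nW W fun ζ => p.eval ζ - g₀ ζ := by
    intro p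
    rw [hl (fun z => ‖p.eval z - v z‖ₑ ^ (2 : ℕ))
      ((p.continuous.measurable.sub hvm).enorm.pow_const 2)]
    congr 1
    · exact setLIntegral_congr_fun hb fun z hz => by simp only [v0 z hz, sub_zero]
    · exact lintegral_congr_ae (v1.mono fun z hz => by simp only [hz])
  have hv2 : ∫⁻ z, ‖v z‖ₑ ^ (2 : ℕ) ∂mu γ s W < ⊤ := by
    have := key 0
    simp only [eval_zero, zero_sub, enorm_neg, nG, nW, enorm_zero] at this
    rw [this]
    simpa [nW] using hfin
  obtain ⟨ε, hε, hlow⟩ : ∃ ε : ℝ, 0 < ε ∧ ∀ p : ℂ[X],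
      ENNReal.ofReal ε ≤ ∫⁻ z, ‖p.eval z - v z‖ₑ ^ (2 : ℕ) ∂mu γ s W := by
    by_contra c
    push Not at c
    refine hA fun ε hε => ?_
    obtain ⟨p, hp⟩ := c ε hε
    rw [key] at hp
    exact ⟨p, le_self_add.trans_lt hp, le_add_self.trans_lt hp⟩
  obtain ⟨u, hu, hu2, horth, hne, P, B, hB, hP, hlim⟩ := h2 _ v ε hμ hcl hvm hv2 hε hlow
  have hcu : Measurable fun z => conj (u z) := Complex.continuous_conj.measurable.comp hu
  have hcu2 : ∫⁻ z, ‖conj (u z)‖ₑ ^ (2 : ℕ) ∂mu γ s W < ⊤ := by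
    simpa only [RCLike.enorm_conj] using hu2
  have hui : Integrable (fun z => conj (u z)) (mu γ s W) := int_Dual hcu hcu2
  have hG : ∀ k, nG γ s (P k) ≤ ENNReal.ofReal B := fun k => by
    have := hP k
    rw [hl _ ((P k).continuous.measurable.enorm.pow_const 2)] at this
    exact le_self_add.trans this
  have hbd : ∀ᵐ z ∂volume.restrict (ball (0 : ℂ) 1),
      ‖z‖ < 1 ∧ ‖u z‖ ^ 2 * γ z ^ (s + 2) ≤ C * B := by
    filter_upwards [hae _ hlim, ae_restrict_mem hb] with z hz hzb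
    have hz1 := mem_ball_zero_iff.1 hzb
    by_cases h0 : γ z = 0
    · rw [h0, Real.zero_rpow (by linarith), mul_zero]
      exact ⟨hz1, by positivity⟩
    replace hz := hz h0
    rw [v0 z hzb, zero_sub] at hz
    have t := (hz.norm.pow 2).mul_const (γ z ^ (s + 2))
    rw [norm_neg] at t
    exact ⟨hz1, le_of_tendsto' t fun k => hPt (P k) B hB (hG k) z hz1⟩
  set A : Set ℂ := {w | ‖w‖ < 1 ∧ ‖u w‖ ^ 2 * γ w ^ (s + 2) ≤ C * B} with hAdef
  have hAm : MeasurableSet A :=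
    (measurableSet_lt measurable_norm measurable_const).inter
      (measurableSet_le ((hu.norm.pow_const 2).mul (hγm.pow_const _)) measurable_const)
  have z0 : ∀ w : ℂ, 1 ≤ ‖w‖ → A.indicator (fun w => conj (u w) * ((γ w ^ s : ℝ) : ℂ)) w = 0 :=
    fun w hw => indicator_of_notMem (fun c => hw.not_gt c.1) _
  refine ⟨A.indicator fun w => conj (u w) * ((γ w ^ s : ℝ) : ℂ), fun z => conj (u z), √(C * B),
    Real.sqrt_nonneg _,
    (hcu.mul (Complex.measurable_ofReal.comp (hγm.pow_const s))).indicator hAm, z0,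
    fun w hw => ?_, hcu, ?_, (hi _ hcu hui).2.1, fun n => ?_, fun c => hne ?_⟩
  · have hp := hγ.nonneg w hw
    by_cases c : w ∈ A
    · rw [indicator_of_mem c, norm_mul, Complex.norm_conj, Complex.norm_real,
        Real.norm_of_nonneg (Real.rpow_nonneg hp _)]
      exact bd_Dual hs hp c.2
    · rw [indicator_of_notMem c, norm_zero]
      exact mul_nonneg (Real.sqrt_nonneg _) (Real.rpow_nonneg hp _)
  · rw [hl _ (hcu.enorm.pow_const 2)] at hcu2
    exact le_add_self.trans_lt hcu2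
  · have hm : Measurable fun z : ℂ => z ^ n := measurable_id.pow_const n
    have hn : Integrable (fun z => z ^ n * conj (u z)) (mu γ s W) :=
      hui.bdd_mul (c := 1) hm.aestronglyMeasurable (hcl.ae.mono fun z hz => by
        rw [norm_pow]; exact pow_le_one₀ (norm_nonneg z) hz)
    have e := (hi (fun z => z ^ n * conj (u z)) (hm.mul hcu) hn).2.2
    rw [horth n] at e
    rw [e]
    congr 1
    · rw [← setIntegral_eq_integral_of_forall_compl_eq_zero (s := ball (0 : ℂ) 1)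
        fun w hw => by rw [z0 w (not_lt.1 fun c => hw (mem_ball_zero_iff.2 c)), mul_zero]]
      refine integral_congr_ae (hbd.mono fun z hz => ?_)
      simp only [indicator_of_mem (show z ∈ A from hz), mul_assoc]
    · simp only [mul_assoc]
  · rw [(hi (fun z => v z * conj (u z)) (hvm.mul hcu) (Integrable.of_integral_ne_zero hne)).2.2,
      setIntegral_eq_zero_of_forall_eq_zero fun z hz => by rw [v0 z hz, zero_mul, zero_mul],
      zero_add]
    refine integral_eq_zero_of_ae ?_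
    filter_upwards [v1, measure_eq_zero_iff_ae_notMem.1 c] with z hz hz'
    by_cases d : z ∈ S
    · have : conj (u z) * (W z : ℂ) = 0 := by
        by_contra e
        exact hz' ⟨d, e⟩
      simp only [mul_assoc, this, mul_zero, Pi.zero_apply]
    · simp only [hz, hS z d, zero_mul, Pi.zero_apply]

lemma int0_Tb : IntegrableOn (fun w : ℂ => ‖w‖⁻¹) (ball 0 1) := by
  refine integrableOn_ball_of_norm_le_rpow (C := 1) (α := 1) ?_ ?_ ?_ ?_
  · rw [Complex.finrank_real_complex]; norm_num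
  · rw [Complex.finrank_real_complex]; norm_num
  · refine Eventually.of_forall fun x => ?_
    rw [Real.rpow_neg_one, one_mul, norm_inv, norm_norm]
  · exact (measurable_norm.inv).aestronglyMeasurable

/-- the truncated kernel -/
noncomputable def g_Tb : ℂ → ℝ := (ball (0 : ℂ) 1).indicator fun w => ‖w‖⁻¹

lemma g_int_Tb : Integrable g_Tb := (integrable_indicator_iff measurableSet_ball).2 int0_Tb

lemma g_nonneg_Tb (w : ℂ) : 0 ≤ g_Tb w :=
  indicator_nonneg (fun _ _ => inv_nonneg.2 (norm_nonneg _)) w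

lemma le_g_Tb (u : ℂ) : ‖u‖⁻¹ ≤ g_Tb u + 1 := by
  by_cases hu : u ∈ ball (0 : ℂ) 1
  · rw [g_Tb, indicator_of_mem hu]; linarith
  · have h1 : 1 ≤ ‖u‖ := by simpa using hu
    have h2 : ‖u‖⁻¹ ≤ 1 := inv_le_one_of_one_le₀ h1
    have := g_nonneg_Tb u
    linarith

lemma vol_Tb : (volume : Measure ℂ).real (ball 0 1) ≤ 4 := by
  rw [Measure.real, Complex.volume_ball]
  simp only [ENNReal.ofReal_one, one_pow, one_mul, ENNReal.coe_toReal, NNReal.coe_real_pi]
  exact Real.pi_le_four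

lemma first_Tb (z : ℂ) : IntegrableOn (fun w => ‖w - z‖⁻¹) (ball 0 1) ∧
    ∫ w in ball (0 : ℂ) 1, ‖w - z‖⁻¹ ≤ K0 := by
  have hg : Integrable fun w => g_Tb (w - z) := g_int_Tb.comp_sub_right z
  have hc : IntegrableOn (fun _ : ℂ => (1 : ℝ)) (ball (0 : ℂ) 1) :=
    integrableOn_const (measure_ball_lt_top.ne)
  have hs : IntegrableOn (fun w => g_Tb (w - z) + 1) (ball (0 : ℂ) 1) := hg.integrableOn.add hc
  have hm : Measurable fun w : ℂ => ‖w - z‖⁻¹ := by fun_prop
  have hi : IntegrableOn (fun w => ‖w - z‖⁻¹) (ball 0 1) := by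
    refine Integrable.mono' hs hm.aestronglyMeasurable (Eventually.of_forall fun w => ?_)
    rw [norm_inv, norm_norm]
    exact le_g_Tb _
  refine ⟨hi, ?_⟩
  have h1 : ∫ w in ball (0 : ℂ) 1, ‖w - z‖⁻¹ ≤ ∫ w in ball (0 : ℂ) 1, (g_Tb (w - z) + 1) :=
    integral_mono hi hs fun w => le_g_Tb _
  have h2 : ∫ w in ball (0 : ℂ) 1, (g_Tb (w - z) + 1) =
      (∫ w in ball (0 : ℂ) 1, g_Tb (w - z)) + (volume : Measure ℂ).real (ball 0 1) := by
    rw [integral_add hg.integrableOn hc]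
    simp
  have h3 : ∫ w in ball (0 : ℂ) 1, g_Tb (w - z) ≤ ∫ w, g_Tb (w - z) :=
    setIntegral_le_integral hg (Eventually.of_forall fun w => g_nonneg_Tb _)
  have h4 : ∫ w, g_Tb (w - z) = ∫ w in ball (0 : ℂ) 1, ‖w‖⁻¹ := by
    rw [integral_sub_right_eq_self g_Tb z, g_Tb, integral_indicator measurableSet_ball]
  have h5 := vol_Tb
  unfold K0
  linarith

theorem sTb : STb := by
  refine ⟨first_Tb, fun φ M hφ => ⟨?_, fun z => ?_⟩⟩
  · have hm : Measurable fun p : ℂ × ℂ => φ p.2 / (p.2 - p.1) :=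
      (hφ.1.comp measurable_snd).div (measurable_snd.sub measurable_fst)
    exact (hm.stronglyMeasurable.integral_prod_right' (ν := volume)).measurable
  · obtain ⟨hi, hb⟩ := first_Tb z
    have hM : 0 ≤ M := (norm_nonneg _).trans (hφ.2.1 0)
    have hG : Integrable ((ball (0 : ℂ) 1).indicator fun w => M * ‖w - z‖⁻¹) :=
      (integrable_indicator_iff measurableSet_ball).2 (hi.const_mul M)
    have hm : Measurable fun w => φ w / (w - z) :=
      hφ.1.div (measurable_id.sub measurable_const)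
    have hle : ∀ w, ‖φ w / (w - z)‖ ≤
        (ball (0 : ℂ) 1).indicator (fun w => M * ‖w - z‖⁻¹) w := by
      intro w
      by_cases hw : w ∈ ball (0 : ℂ) 1
      · rw [indicator_of_mem hw, norm_div, div_eq_mul_inv]
        exact mul_le_mul_of_nonneg_right (hφ.2.1 w) (inv_nonneg.2 (norm_nonneg _))
      · have h1 : 1 ≤ ‖w‖ := by simpa using hw
        rw [indicator_of_notMem hw, hφ.2.2 w h1, zero_div, norm_zero]
    refine ⟨Integrable.mono' hG hm.aestronglyMeasurable (Eventually.of_forall hle), ?_⟩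
    have h1 : ‖TT φ z‖ ≤ ∫ w, (ball (0 : ℂ) 1).indicator (fun w => M * ‖w - z‖⁻¹) w :=
      norm_integral_le_of_norm_le hG (Eventually.of_forall hle)
    rw [integral_indicator measurableSet_ball, integral_const_mul] at h1
    calc ‖TT φ z‖ ≤ M * ∫ w in ball (0 : ℂ) 1, ‖w - z‖⁻¹ := h1
      _ ≤ M * K0 := mul_le_mul_of_nonneg_left hb hM
      _ = K0 * M := mul_comm _ _

noncomputable def k_Tc (d : ℝ) (w : ℂ) : ℂ := conj w / (((max ‖w‖ d) ^ 2 : ℝ) : ℂ)

noncomputable def g_Tc (d : ℝ) : ℂ → ℝ := indicator (ball (0 : ℂ) d) (fun w => ‖w‖⁻¹)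

lemma k_cont_Tc {d : ℝ} (hd : 0 < d) : Continuous (k_Tc d) := by
  unfold k_Tc
  refine Continuous.div Complex.continuous_conj
    (Complex.continuous_ofReal.comp ((continuous_norm.max continuous_const).pow 2)) ?_
  intro w
  have : 0 < max ‖w‖ d := lt_of_lt_of_le hd (le_max_right _ _)
  exact_mod_cast (pow_pos this 2).ne'

lemma k_norm_Tc (d : ℝ) (w : ℂ) : ‖k_Tc d w‖ = ‖w‖ / (max ‖w‖ d) ^ 2 := by
  unfold k_Tc
  rw [norm_div, Complex.norm_conj, Complex.norm_real, Real.norm_of_nonneg (sq_nonneg _)]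

lemma k_le_Tc {d : ℝ} (hd : 0 < d) (w : ℂ) : ‖k_Tc d w‖ ≤ d⁻¹ := by
  rw [k_norm_Tc]
  have h0 : 0 < max ‖w‖ d := lt_of_lt_of_le hd (le_max_right _ _)
  rw [div_le_iff₀ (pow_pos h0 2)]
  have h1 : ‖w‖ ≤ max ‖w‖ d := le_max_left _ _
  have h2 : d ≤ max ‖w‖ d := le_max_right _ _
  have h3 : 1 ≤ d⁻¹ * max ‖w‖ d := by
    rw [inv_mul_eq_div, le_div_iff₀ hd]; linarith
  nlinarith

lemma k_le2_Tc (d : ℝ) (w : ℂ) : ‖k_Tc d w‖ ≤ ‖w‖⁻¹ := by
  rw [k_norm_Tc]
  rcases eq_or_ne w 0 with rfl | hw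
  · simp
  have hp : 0 < ‖w‖ := norm_pos_iff.mpr hw
  have h1 : ‖w‖ ≤ max ‖w‖ d := le_max_left _ _
  calc ‖w‖ / (max ‖w‖ d) ^ 2 ≤ ‖w‖ / ‖w‖ ^ 2 := by gcongr
    _ = ‖w‖⁻¹ := by field_simp

lemma k_eq_Tc {d : ℝ} {w : ℂ} (h : d ≤ ‖w‖) : k_Tc d w = w⁻¹ := by
  unfold k_Tc
  rw [max_eq_left h, Complex.inv_def, Complex.normSq_eq_norm_sq]
  push_cast
  rw [div_eq_mul_inv]

lemma k_diff_Tc (d : ℝ) (w : ℂ) : ‖w⁻¹ - k_Tc d w‖ ≤ 2 * g_Tc d w := by
  unfold g_Tc
  by_cases h : w ∈ ball (0 : ℂ) d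
  · rw [indicator_of_mem h]
    calc ‖w⁻¹ - k_Tc d w‖ ≤ ‖w⁻¹‖ + ‖k_Tc d w‖ := norm_sub_le _ _
      _ ≤ ‖w‖⁻¹ + ‖w‖⁻¹ := by rw [norm_inv]; gcongr; exact k_le2_Tc d w
      _ = 2 * ‖w‖⁻¹ := by ring
  · rw [indicator_of_notMem h]
    have : d ≤ ‖w‖ := by simpa using h
    rw [k_eq_Tc this]; simp

lemma g_int_Tc (h1 : STb) {d : ℝ} (hd : d ≤ 1) : Integrable (g_Tc d) := by
  unfold g_Tc
  rw [integrable_indicator_iff measurableSet_ball]
  have := (h1.1 0).1
  simp only [sub_zero] at this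
  exact this.mono_set (ball_subset_ball hd)

lemma g_nonneg_Tc (d : ℝ) (w : ℂ) : 0 ≤ g_Tc d w := by
  unfold g_Tc
  exact indicator_nonneg (fun _ _ => inv_nonneg.mpr (norm_nonneg _)) w

lemma g_lim_Tc (h1 : STb) :
    Tendsto (fun n : ℕ => ∫ w, g_Tc (1 / ((n : ℝ) + 1)) w) atTop (𝓝 0) := by
  have hle : ∀ n : ℕ, 1 / ((n : ℝ) + 1) ≤ 1 := by
    intro n
    rw [div_le_one (by positivity)]
    have : (0 : ℝ) ≤ n := Nat.cast_nonneg n
    linarith
  have key := tendsto_integral_of_dominated_convergence (μ := (volume : Measure ℂ))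
    (F := fun (n : ℕ) w => g_Tc (1 / ((n : ℝ) + 1)) w) (f := fun _ => (0 : ℝ)) (g_Tc 1)
    (fun n => (g_int_Tc h1 (hle n)).aestronglyMeasurable) (g_int_Tc h1 le_rfl) ?_ ?_
  · simpa using key
  · intro n
    refine Eventually.of_forall fun w => ?_
    rw [Real.norm_of_nonneg (g_nonneg_Tc _ _)]
    unfold g_Tc
    exact indicator_le_indicator_of_subset (ball_subset_ball (hle n))
      (fun _ => inv_nonneg.mpr (norm_nonneg _)) w
  · refine Eventually.of_forall fun w => ?_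
    rcases eq_or_ne w 0 with rfl | hw
    · have : ∀ n : ℕ, g_Tc (1 / ((n : ℝ) + 1)) 0 = 0 := by
        intro n
        unfold g_Tc
        by_cases h : (0 : ℂ) ∈ ball (0 : ℂ) (1 / ((n : ℝ) + 1))
        · rw [indicator_of_mem h]; simp
        · rw [indicator_of_notMem h]
      simp only [this]
      exact tendsto_const_nhds
    · have hp : 0 < ‖w‖ := norm_pos_iff.mpr hw
      have ht : ∀ᶠ n : ℕ in atTop, 1 / ((n : ℝ) + 1) < ‖w‖ :=
        tendsto_one_div_add_atTop_nhds_zero_nat.eventually (gt_mem_nhds hp)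
      refine tendsto_const_nhds.congr' ?_
      filter_upwards [ht] with n hn
      unfold g_Tc
      rw [indicator_of_notMem]
      simp only [mem_ball, dist_zero_right, not_lt]
      exact hn.le

noncomputable def T_Tc (φ : ℂ → ℂ) (d : ℝ) (z : ℂ) : ℂ := ∫ w, φ w * k_Tc d (w - z)

lemma bd_Tc {φ : ℂ → ℂ} {M d : ℝ} (h : BS φ M) (hd : 0 < d) (z w : ℂ) :
    ‖φ w * k_Tc d (w - z)‖ ≤ indicator (ball (0 : ℂ) 1) (fun _ => M * d⁻¹) w := by
  by_cases hw : w ∈ ball (0 : ℂ) 1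
  · rw [indicator_of_mem hw, norm_mul]
    exact mul_le_mul (h.2.1 w) (k_le_Tc hd _) (norm_nonneg _) ((norm_nonneg _).trans (h.2.1 w))
  · rw [indicator_of_notMem hw]
    have : 1 ≤ ‖w‖ := by simpa using hw
    rw [h.2.2 w this]; simp

lemma bdi_Tc (c : ℝ) : Integrable (indicator (ball (0 : ℂ) 1) (fun _ => c)) := by
  rw [integrable_indicator_iff measurableSet_ball]
  exact integrableOn_const measure_ball_lt_top.ne

lemma meas_Tc {φ : ℂ → ℂ} {M d : ℝ} (h : BS φ M) (hd : 0 < d) (z : ℂ) :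
    AEStronglyMeasurable (fun w => φ w * k_Tc d (w - z)) volume :=
  (h.1.mul ((k_cont_Tc hd).comp (continuous_id.sub continuous_const)).measurable).aestronglyMeasurable

lemma T_cont_Tc {φ : ℂ → ℂ} {M d : ℝ} (h : BS φ M) (hd : 0 < d) : Continuous (T_Tc φ d) := by
  unfold T_Tc
  refine continuous_of_dominated (fun z => meas_Tc h hd z)
    (fun z => Eventually.of_forall fun w => bd_Tc h hd z w) (bdi_Tc _) ?_
  refine Eventually.of_forall fun w => ?_
  exact continuous_const.mul ((k_cont_Tc hd).comp (continuous_const.sub continuous_id))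

lemma T_near_Tc (h1 : STb) {φ : ℂ → ℂ} {M d : ℝ} (h : BS φ M) (hd : 0 < d) (hd1 : d ≤ 1)
    (z : ℂ) : ‖TT φ z - T_Tc φ d z‖ ≤ 2 * M * ∫ w, g_Tc d w := by
  have hi1 := ((h1.2 φ M h).2 z).1
  have hi2 : Integrable (fun w => φ w * k_Tc d (w - z)) :=
    (bdi_Tc (M * d⁻¹)).mono' (meas_Tc h hd z) (Eventually.of_forall fun w => bd_Tc h hd z w)
  have hM : 0 ≤ M := (norm_nonneg _).trans (h.2.1 0)
  unfold TT T_Tc
  rw [← integral_sub hi1 hi2]
  have hg : Integrable (fun w => g_Tc d (w - z)) := (g_int_Tc h1 hd1).comp_sub_right z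
  calc ‖∫ w, (φ w / (w - z) - φ w * k_Tc d (w - z))‖
      ≤ ∫ w, 2 * M * g_Tc d (w - z) := by
        refine norm_integral_le_of_norm_le (hg.const_mul _) (Eventually.of_forall fun w => ?_)
        rw [div_eq_mul_inv, ← mul_sub, norm_mul]
        calc ‖φ w‖ * ‖(w - z)⁻¹ - k_Tc d (w - z)‖ ≤ M * (2 * g_Tc d (w - z)) :=
              mul_le_mul (h.2.1 w) (k_diff_Tc d _) (norm_nonneg _) hM
          _ = 2 * M * g_Tc d (w - z) := by ring
    _ = 2 * M * ∫ w, g_Tc d w := by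
        rw [integral_const_mul, integral_sub_right_eq_self (fun w => g_Tc d w) z]

theorem sTc (h1 : STb) : STc := by
  intro φ M h
  have hpos : ∀ n : ℕ, 0 < 1 / ((n : ℝ) + 1) := fun n => by positivity
  have hle : ∀ n : ℕ, 1 / ((n : ℝ) + 1) ≤ 1 := by
    intro n
    rw [div_le_one (by positivity)]
    have : (0 : ℝ) ≤ n := Nat.cast_nonneg n
    linarith
  have hu : TendstoUniformly (fun (n : ℕ) => T_Tc φ (1 / ((n : ℝ) + 1))) (TT φ) atTop := by
    rw [Metric.tendstoUniformly_iff]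
    intro ε hε
    have hl := (g_lim_Tc h1).const_mul (2 * M)
    rw [mul_zero] at hl
    filter_upwards [hl.eventually (gt_mem_nhds hε)] with n hn z
    rw [dist_eq_norm]
    exact lt_of_le_of_lt (T_near_Tc h1 h (hpos n) (hle n) z) hn
  exact hu.continuous (Eventually.of_forall fun n => T_cont_Tc h (hpos n)).frequently

lemma int_Th (c : ℝ) : Integrable ((ball (0 : ℂ) 1).indicator fun _ => c) :=
  (integrable_indicator_iff measurableSet_ball).2 (integrableOn_const measure_ball_lt_top.ne)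

lemma bd_Th {φ : ℂ → ℂ} {M d : ℝ} (h : BS φ M) (hd : 0 < d) {w z : ℂ}
    (hw : φ w = 0 ∨ d ≤ ‖w - z‖) (n : ℕ) :
    ‖φ w / (w - z) ^ n‖ ≤ (ball (0 : ℂ) 1).indicator (fun _ => M / d ^ n) w := by
  have hM : 0 ≤ M := (norm_nonneg _).trans (h.2.1 w)
  by_cases h1 : w ∈ ball (0 : ℂ) 1
  · rw [indicator_of_mem h1]
    rcases hw with e | e
    · rw [e, zero_div, norm_zero]
      positivity
    · rw [norm_div, norm_pow]
      exact div_le_div₀ hM (h.2.1 w) (by positivity) (pow_le_pow_left₀ hd.le e n)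
  · rw [indicator_of_notMem h1, h.2.2 w (by simpa using h1), zero_div, norm_zero]

theorem sTh : STh := by
  intro φ M U h hU h0 z₀ hz₀
  obtain ⟨r, hr, hb⟩ := Metric.isOpen_iff.1 hU z₀ hz₀
  have hd : 0 < r / 2 := by positivity
  have far : ∀ w, ∀ z ∈ ball z₀ (r / 2), φ w = 0 ∨ r / 2 ≤ ‖w - z‖ := by
    intro w z hz
    by_cases e : φ w = 0
    · exact Or.inl e
    · right
      have h1 : ¬ dist w z₀ < r := fun l => e (h0 w (hb l))
      have h2 := dist_triangle w z z₀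
      rw [mem_ball] at hz
      rw [← dist_eq_norm]
      linarith [not_lt.1 h1]
  have ms : ∀ (z : ℂ) (n : ℕ), AEStronglyMeasurable (fun w => φ w / (w - z) ^ n) volume :=
    fun z n => (h.1.div ((measurable_id.sub_const z).pow_const n)).aestronglyMeasurable
  have key := hasDerivAt_integral_of_dominated_loc_of_deriv_le (μ := volume)
    (F := fun z w => φ w / (w - z)) (F' := fun z w => φ w / (w - z) ^ 2) (x₀ := z₀)
    (bound := (ball (0 : ℂ) 1).indicator fun _ => M / (r / 2) ^ 2) (ball_mem_nhds z₀ hd)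
    (Eventually.of_forall fun z => by simpa using ms z 1)
    (by
      refine (int_Th (M / (r / 2) ^ 1)).mono' (by simpa using ms z₀ 1)
        (Eventually.of_forall fun w => ?_)
      simpa only [pow_one] using bd_Th h hd (far w z₀ (mem_ball_self hd)) 1)
    (ms z₀ 2) (Eventually.of_forall fun w z hz => bd_Th h hd (far w z hz) 2) (int_Th _)
    (Eventually.of_forall fun w z hz => by
      rcases far w z hz with e | e
      · simp only [e, zero_div]
        exact hasDerivAt_const z 0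
      · have ne : w - z ≠ 0 := norm_pos_iff.1 (hd.trans_le e)
        have h1 := (hasDerivAt_const z (φ w)).fun_div ((hasDerivAt_id' z).const_sub w) ne
        have e2 : (0 * (w - z) - φ w * -1) / (w - z) ^ 2 = φ w / (w - z) ^ 2 := by ring
        rw [e2] at h1
        exact h1)
  exact key.2.differentiableAt.differentiableWithinAt

lemma norm_Tm (h1 : STb) {b : ℂ → ℂ} {N : ℝ} (hb : BS b N) (x : ℂ) :
    ∫ y, ‖b y / (y - x)‖ ≤ N * K0 := by
  have hN : 0 ≤ N := (norm_nonneg _).trans (hb.2.1 0)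
  obtain ⟨i1, i2⟩ := h1.1 x
  have i3 : Integrable ((ball (0 : ℂ) 1).indicator fun y => N * ‖y - x‖⁻¹) :=
    (integrable_indicator_iff measurableSet_ball).2 (i1.const_mul N)
  calc ∫ y, ‖b y / (y - x)‖ ≤ ∫ y, (ball (0 : ℂ) 1).indicator (fun y => N * ‖y - x‖⁻¹) y := by
        refine integral_mono ((h1.2 b N hb).2 x).1.norm i3 fun y => ?_
        by_cases hy : y ∈ ball (0 : ℂ) 1
        · simp only [indicator_of_mem hy, div_eq_mul_inv, norm_mul, norm_inv]
          exact mul_le_mul_of_nonneg_right (hb.2.1 y) (by positivity)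
        · have : b y = 0 := hb.2.2 y (by simpa using hy)
          simp [indicator_of_notMem hy, this]
    _ = N * ∫ y in ball (0 : ℂ) 1, ‖y - x‖⁻¹ := by
        rw [integral_indicator measurableSet_ball, integral_const_mul]
    _ ≤ N * K0 := mul_le_mul_of_nonneg_left i2 hN

lemma int_Tm (h1 : STb) {a b : ℂ → ℂ} {M N : ℝ} (ha : BS a M) (hb : BS b N) (z : ℂ) :
    Integrable (fun p : ℂ × ℂ => a p.1 / (p.1 - z) * (b p.2 / (p.2 - p.1)))
      ((volume : Measure ℂ).prod volume) := by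
  have ma := ha.1
  have mb := hb.1
  have hm : Measurable fun p : ℂ × ℂ => a p.1 / (p.1 - z) * (b p.2 / (p.2 - p.1)) := by fun_prop
  rw [integrable_prod_iff hm.aestronglyMeasurable]
  refine ⟨Eventually.of_forall fun x => ((h1.2 b N hb).2 x).1.const_mul (a x / (x - z)), ?_⟩
  refine (((h1.2 a M ha).2 z).1.norm.mul_const (N * K0)).mono'
    hm.aestronglyMeasurable.norm.integral_prod_right' (Eventually.of_forall fun x => ?_)
  rw [Real.norm_of_nonneg (integral_nonneg fun _ => norm_nonneg _)]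
  simp only [norm_mul]
  rw [integral_const_mul]
  exact mul_le_mul_of_nonneg_left (norm_Tm h1 hb x) (norm_nonneg _)

lemma ae_Tm (z : ℂ) : ∀ᵐ p ∂((volume : Measure ℂ).prod (volume : Measure ℂ)),
    p.1 ≠ z ∧ p.2 ≠ z ∧ p.2 ≠ p.1 := by
  have hne : ∀ c : ℂ, ∀ᵐ y : ℂ, y ≠ c := fun c =>
    compl_mem_ae_iff.2 (measure_singleton c)
  rw [Measure.ae_prod_iff_ae_ae]
  · filter_upwards [hne z] with x hx
    filter_upwards [hne z, hne x] with y h2 h3 using ⟨hx, h2, h3⟩
  · exact ((measurableSet_eq_fun measurable_fst measurable_const).compl.inter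
      ((measurableSet_eq_fun measurable_snd measurable_const).compl.inter
        (measurableSet_eq_fun measurable_snd measurable_fst).compl))

theorem sTm (h1 : STb) : STm := by
  intro a b M N ha hb z
  have i1 := int_Tm h1 ha hb z
  have i2 := int_Tm h1 hb ha z
  have e1 : ∀ {a b : ℂ → ℂ} (x : ℂ),
      ∫ y, a x / (x - z) * (b y / (y - x)) = a x * TT b x / (x - z) := fun {a b} x => by
    rw [integral_const_mul, TT]
    ring
  have j1 := i1.integral_prod_left
  have j2 := i2.integral_prod_left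
  simp only [e1] at j1 j2
  calc TT a z * TT b z
      = ∫ p : ℂ × ℂ, a p.1 / (p.1 - z) * (b p.2 / (p.2 - z)) ∂(volume.prod volume) :=
        (integral_prod_mul (fun x => a x / (x - z)) (fun y => b y / (y - z))).symm
    _ = ∫ p : ℂ × ℂ, (a p.1 / (p.1 - z) * (b p.2 / (p.2 - p.1)) +
          b p.2 / (p.2 - z) * (a p.1 / (p.1 - p.2))) ∂(volume.prod volume) := by
        refine integral_congr_ae ?_
        filter_upwards [ae_Tm z] with p hp
        have n1 := sub_ne_zero.2 hp.1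
        have n2 := sub_ne_zero.2 hp.2.1
        have n3 := sub_ne_zero.2 hp.2.2
        have n4 := sub_ne_zero.2 hp.2.2.symm
        field_simp
        ring
    _ = (∫ p : ℂ × ℂ, a p.1 / (p.1 - z) * (b p.2 / (p.2 - p.1)) ∂(volume.prod volume)) +
          ∫ p : ℂ × ℂ, b p.1 / (p.1 - z) * (a p.2 / (p.2 - p.1)) ∂(volume.prod volume) := by
        rw [← integral_prod_swap
          (fun p : ℂ × ℂ => b p.1 / (p.1 - z) * (a p.2 / (p.2 - p.1)))]
        exact integral_add i1 i2.swap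
    _ = (∫ x, a x * TT b x / (x - z)) + ∫ x, b x * TT a x / (x - z) := by
        rw [integral_prod _ i1, integral_prod _ i2]
        simp only [e1]
    _ = TT (fun w => a w * TT b w + b w * TT a w) z := by
        rw [← integral_add j1 j2, TT]
        simp only [add_div]

lemma bs_Te {ψ v : ℂ → ℂ} {M N : ℝ} (h : BS ψ M) (hv : Measurable v) (hN : ∀ w, ‖v w‖ ≤ N) :
    BS (fun w => ψ w * v w) (M * N) :=
  ⟨h.1.mul hv, fun w => (norm_mul _ _).trans_le (mul_le_mul (h.2.1 w) (hN w) (norm_nonneg _)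
    ((norm_nonneg _).trans (h.2.1 w))), fun w hw => by simp [h.2.2 w hw]⟩

lemma pow_Te (h1 : STb) (h2 : STm) {ψ : ℂ → ℂ} {M : ℝ} (h : BS ψ M) (k : ℕ) : ∀ z,
    TT ψ z ^ (k + 1) = TT (fun w => ψ w * (((k : ℂ) + 1) * TT ψ w ^ k)) z := by
  obtain ⟨hm, hb⟩ := h1.2 ψ M h
  induction k with
  | zero => intro z; simp
  | succ k ih =>
    intro z
    have ha : BS (fun w => ψ w * (((k : ℂ) + 1) * TT ψ w ^ k))
        (M * (‖(k : ℂ) + 1‖ * (K0 * M) ^ k)) :=
      bs_Te h ((hm.pow_const k).const_mul _) fun w => by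
        rw [norm_mul, norm_pow]
        gcongr
        exact (hb w).2
    rw [pow_succ, ih z, h2 _ _ _ _ ha h z]
    congr 1
    ext w
    rw [← ih w]
    push_cast
    ring

lemma exp_Te (x : ℂ) : HasSum (fun k : ℕ => x ^ k / (k.factorial : ℂ)) (Complex.exp x) := by
  rw [Complex.exp_eq_exp_ℂ]
  exact NormedSpace.expSeries_div_hasSum_exp x

theorem sTe (h1 : STb) (h2 : STm) : STe := by
  intro ψ M h z
  obtain ⟨hm, hb⟩ := h1.2 ψ M h
  have nb : ∀ (k : ℕ) w, ‖(-TT ψ w) ^ k / (k.factorial : ℂ)‖ ≤ (K0 * M) ^ k / k.factorial :=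
    fun k w => by
      rw [norm_div, norm_pow, norm_neg, Complex.norm_natCast]
      gcongr
      exact (hb w).2
  have hi : ∀ k : ℕ, Integrable fun w =>
      (-TT ψ w) ^ k / (k.factorial : ℂ) * -(ψ w / (w - z)) := fun k =>
    (hb z).1.neg.bdd_mul ((hm.neg.pow_const k).div_const _).aestronglyMeasurable
      (Eventually.of_forall (nb k))
  have hs : Summable fun k : ℕ => ∫ w, ‖(-TT ψ w) ^ k / (k.factorial : ℂ) * -(ψ w / (w - z))‖ := by
    refine Summable.of_nonneg_of_le (fun k => integral_nonneg fun _ => norm_nonneg _) (fun k => ?_)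
      ((Real.summable_pow_div_factorial (K0 * M)).mul_right (∫ w, ‖ψ w / (w - z)‖))
    rw [← integral_const_mul]
    refine integral_mono (hi k).norm ((hb z).1.norm.const_mul _) fun w => ?_
    simp only [norm_mul, norm_neg]
    exact mul_le_mul_of_nonneg_right (nb k w) (norm_nonneg _)
  have key := hasSum_integral_of_summable_integral_norm hi hs
  have e1 : ∀ k : ℕ, ∫ w, (-TT ψ w) ^ k / (k.factorial : ℂ) * -(ψ w / (w - z)) =
      (-TT ψ z) ^ (k + 1) / ((k + 1).factorial : ℂ) := fun k => by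
    have f0 : (k.factorial : ℂ) ≠ 0 := by exact_mod_cast k.factorial_ne_zero
    have k0 : (k : ℂ) + 1 ≠ 0 := by exact_mod_cast k.succ_ne_zero
    rw [neg_pow (TT ψ z), pow_Te h1 h2 h k z, mul_div_right_comm]
    conv_rhs => rw [TT, ← integral_const_mul]
    congr 1
    ext w
    rw [neg_pow (TT ψ w), Nat.factorial_succ]
    push_cast
    field_simp
    ring
  have e2 : ∀ w, ∑' k : ℕ, (-TT ψ w) ^ k / (k.factorial : ℂ) * -(ψ w / (w - z)) =
      -(ψ w * Complex.exp (-TT ψ w)) / (w - z) := fun w => by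
    rw [((exp_Te _).mul_right _).tsum_eq]
    ring
  simp only [e1, e2] at key
  have e3 := ((hasSum_nat_add_iff' 1).2 (exp_Te (-TT ψ z))).unique key
  simp only [Finset.range_one, Finset.sum_singleton, pow_zero, Nat.factorial_zero, Nat.cast_one,
    div_one] at e3
  exact (sub_eq_iff_eq_add'.1 e3)

lemma inv_Tx {w ζ : ℂ} {r : ℝ} (hr : r < 1) (hw : ‖w‖ ≤ r) (hζ : ‖ζ‖ = 1) :
    ζ - w ≠ 0 ∧ ‖(ζ - w)⁻¹‖ ≤ (1 - r)⁻¹ := by
  have h1 : 1 - r ≤ ‖ζ - w‖ := by linarith [norm_sub_norm_le ζ w]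
  refine ⟨norm_pos_iff.1 (by linarith), ?_⟩
  rw [norm_inv]
  exact inv_anti₀ (by linarith) h1

theorem sTx (h1 : STb) (h2 : SCC) : STx := by
  classical
  intro χ h M r hχ hi hr h0
  have hM : 0 ≤ M := (norm_nonneg _).trans (hχ.2.1 0)
  have hr' : 0 ≤ (1 - r)⁻¹ := inv_nonneg.2 (by linarith)
  refine ⟨⟨M * ∫ ζ, ‖h ζ‖ * (1 - r)⁻¹ ∂sig, ?_, fun w => ?_, fun w hw => ?_⟩, fun z hz => ?_⟩
  · have e : (fun w => χ w * CC h w) =
        fun w => χ w * (ball (0 : ℂ) 1).piecewise (CC h) (fun _ => 0) w := by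
      funext w
      by_cases hw : w ∈ ball (0 : ℂ) 1
      · rw [piecewise_eq_of_mem _ _ _ hw]
      · rw [hχ.2.2 w (by simpa using hw), zero_mul, zero_mul]
    rw [e]
    exact hχ.1.mul ((h2 h hi).continuousOn.measurable_piecewise continuousOn_const
      measurableSet_ball)
  · beta_reduce
    rcases le_or_gt r ‖w‖ with hw | hw
    · rw [h0 w hw, zero_mul, norm_zero]
      exact mul_nonneg hM (integral_nonneg fun ζ => mul_nonneg (norm_nonneg _) hr')
    · rw [norm_mul]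
      refine mul_le_mul (hχ.2.1 w) (norm_integral_le_of_norm_le (hi.norm.mul_const _) ?_)
        (norm_nonneg _) hM
      filter_upwards [sig_ae] with ζ hζ
      rw [div_eq_mul_inv, norm_mul]
      exact mul_le_mul_of_nonneg_left (inv_Tx hr hw.le hζ).2 (norm_nonneg _)
  · exact mul_eq_zero_of_left (hχ.2.2 w hw) _
  have a1 : ∀ᵐ p : ℂ × ℂ ∂(volume : Measure ℂ).prod sig, ‖p.2‖ = 1 :=
    Measure.quasiMeasurePreserving_snd.ae sig_ae
  have a2 : ∀ᵐ p : ℂ × ℂ ∂(volume : Measure ℂ).prod sig, p.1 ≠ z :=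
    Measure.quasiMeasurePreserving_fst.ae (p := fun w => w ≠ z)
      (compl_mem_ae_iff.2 (measure_singleton z))
  have i1 := ((h1.2 χ M hχ).2 z).1
  have i2 : Integrable (fun ζ => h ζ / (ζ - z)) sig := by
    simp only [div_eq_inv_mul]
    refine hi.bdd_mul (c := (1 - ‖z‖)⁻¹) (Measurable.aestronglyMeasurable (by fun_prop)) ?_
    filter_upwards [sig_ae] with ζ hζ using (inv_Tx hz le_rfl hζ).2
  have iC := i1.mul_prod i2
  have i3 := i1.mul_prod hi
  have iA : Integrable (fun p : ℂ × ℂ => χ p.1 / (p.1 - z) * (h p.2 / (p.2 - p.1)))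
      ((volume : Measure ℂ).prod sig) := by
    simp only [div_eq_mul_inv (h _), ← mul_assoc]
    refine (i3.norm.mul_const (1 - r)⁻¹).mono'
      (i3.1.mul (Measurable.aestronglyMeasurable (by fun_prop))) ?_
    filter_upwards [a1] with p hp
    rcases le_or_gt r ‖p.1‖ with hw | hw
    · simp [h0 _ hw]
    · rw [norm_mul]
      exact mul_le_mul_of_nonneg_left (inv_Tx hr hw.le hp).2 (norm_nonneg _)
  have e : (fun p : ℂ × ℂ => χ p.1 / (p.1 - z) * (h p.2 / (p.2 - z)) -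
      χ p.1 / (p.1 - z) * (h p.2 / (p.2 - p.1))) =ᵐ[(volume : Measure ℂ).prod sig]
      fun p => h p.2 / (p.2 - z) * (χ p.1 / (p.1 - p.2)) := by
    filter_upwards [a1, a2] with p hp hq
    rcases le_or_gt r ‖p.1‖ with hw | hw
    · simp [h0 _ hw]
    · have b1 := (inv_Tx hr hw.le hp).1
      have b2 := (inv_Tx hz le_rfl hp).1
      have b3 := sub_ne_zero.2 hq
      have b4 : p.1 - p.2 ≠ 0 := fun c => b1 (by linear_combination -c)
      field_simp
      ring
  have iB := (iC.sub iA).congr e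
  have e2 := integral_congr_ae e
  rw [integral_sub iC iA, integral_prod_mul (fun w => χ w / (w - z)) fun ζ => h ζ / (ζ - z),
    integral_prod _ iA, integral_prod_symm _ iB] at e2
  simp only [integral_const_mul] at e2
  have e3 : TT (fun w => χ w * CC h w) z = ∫ w, χ w / (w - z) * ∫ ζ, h ζ / (ζ - w) ∂sig :=
    integral_congr_ae (Eventually.of_forall fun w => mul_div_right_comm _ _ _)
  have e4 : CC (fun ζ => h ζ * TT χ ζ) z = ∫ ζ, h ζ / (ζ - z) * (∫ w, χ w / (w - ζ)) ∂sig :=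
    integral_congr_ae (Eventually.of_forall fun w => mul_div_right_comm _ _ _)
  rw [e3, e4, ← e2, mul_comm, CC, TT]
  ring

lemma bs_add_Hol {a b : ℂ → ℂ} {M N : ℝ} (ha : BS a M) (hb : BS b N) :
    BS (fun w => a w + b w) (M + N) :=
  ⟨ha.1.add hb.1, fun w => (norm_add_le _ _).trans (add_le_add (ha.2.1 w) (hb.2.1 w)),
    fun w hw => by simp only [ha.2.2 w hw, hb.2.2 w hw, add_zero]⟩

lemma bs_mul_Hol {a g : ℂ → ℂ} {M B : ℝ} (ha : BS a M) (hg : Measurable g) (hB : ∀ w, ‖g w‖ ≤ B) :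
    BS (fun w => a w * g w) (M * B) :=
  ⟨ha.1.mul hg, fun w => by
    rw [norm_mul]
    exact mul_le_mul (ha.2.1 w) (hB w) (norm_nonneg _) ((norm_nonneg _).trans (ha.2.1 w)),
    fun w hw => by simp only [ha.2.2 w hw, zero_mul]⟩

lemma bs_neg_Hol {a : ℂ → ℂ} {M : ℝ} (ha : BS a M) : BS (fun w => -a w) M :=
  ⟨ha.1.neg, fun w => by rw [norm_neg]; exact ha.2.1 w,
    fun w hw => by simp only [ha.2.2 w hw, neg_zero]⟩

lemma TT_add_Hol (h1 : STb) {a b : ℂ → ℂ} {M N : ℝ} (ha : BS a M) (hb : BS b N) (z : ℂ) :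
    TT (fun w => a w + b w) z = TT a z + TT b z := by
  simp only [TT, add_div]
  exact integral_add ((h1.2 a M ha).2 z).1 ((h1.2 b N hb).2 z).1

theorem sHol (h1 : STb) (h2 : STc) (h3 : STh) (h4 : STm) (h5 : STe) (h6 : STx) (h7 : SCC) :
    SHol := by
  classical
  intro φ h M M' r Ω hφ hi hΩ hr hsub hM' hF
  have hΩ1 : Ω ⊆ ball 0 1 := hsub.trans (ball_subset_ball hr.le)
  have hFc : ContinuousOn (FF φ h) Ω :=
    (h2 φ M hφ).continuousOn.add ((h7 h hi).continuousOn.mono hΩ1)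
  have hFm : Measurable (Ω.piecewise (FF φ h) fun _ => 0) :=
    hFc.measurable_piecewise continuousOn_const hΩ.measurableSet
  obtain ⟨ψ, hψ, hin, hout⟩ : ∃ ψ : ℂ → ℂ, BS ψ M' ∧ (∀ w ∈ Ω, ψ w * FF φ h w = φ w) ∧
      ∀ w, w ∉ Ω → ψ w = 0 := by
    refine ⟨fun w => φ w / Ω.piecewise (FF φ h) (fun _ => 0) w, ⟨hφ.1.div hFm, fun w => ?_,
      fun w hw => by simp only [hφ.2.2 w hw, zero_div]⟩, fun w hw => ?_, fun w hw => ?_⟩
    · by_cases hw : w ∈ Ω
      · simp only [piecewise_eq_of_mem _ _ _ hw, norm_div]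
        exact div_le_of_le_mul₀ (norm_nonneg _) hM' (hF w hw).2
      · simp only [piecewise_eq_of_notMem _ _ _ hw, div_zero, norm_zero]
        exact hM'
    · simp only [piecewise_eq_of_mem _ _ _ hw]
      exact div_mul_cancel₀ _ (hF w hw).1
    · simp only [piecewise_eq_of_notMem _ _ _ hw, div_zero]
  have huc := h2 ψ M' hψ
  have hub : ∀ z, ‖TT ψ z‖ ≤ K0 * M' := fun z => ((h1.2 ψ M' hψ).2 z).2
  refine ⟨TT ψ, huc, hub, ?_⟩
  have hEm : Measurable fun w => Complex.exp (-TT ψ w) :=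
    (Complex.continuous_exp.comp huc.neg).measurable
  have hEb : ∀ w, ‖Complex.exp (-TT ψ w)‖ ≤ Real.exp (K0 * M') := fun w =>
    (Complex.norm_exp_le_exp_norm _).trans (Real.exp_le_exp.2 (by rw [norm_neg]; exact hub w))
  have hχ := bs_neg_Hol (bs_mul_Hol hψ hEm hEb)
  have he := h5 ψ M' hψ
  have hχΩ : ∀ w ∈ Ω, -(ψ w * Complex.exp (-TT ψ w)) * FF φ h w =
      -(φ w * Complex.exp (-TT ψ w)) := fun w hw => by
    rw [← hin w hw]
    ring
  have hχ0 : ∀ w, r ≤ ‖w‖ → -(ψ w * Complex.exp (-TT ψ w)) = 0 := fun w hw => by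
    rw [hout w fun c => absurd (mem_ball_zero_iff.1 (hsub c)) (not_lt.2 hw), zero_mul, neg_zero]
  obtain ⟨χ, hχ, he, hχΩ, hχ0⟩ : ∃ χ : ℂ → ℂ, BS χ (M' * Real.exp (K0 * M')) ∧
      (∀ z, Complex.exp (-TT ψ z) = 1 + TT χ z) ∧
      (∀ w ∈ Ω, χ w * FF φ h w = -(φ w * Complex.exp (-TT ψ w))) ∧ ∀ w, r ≤ ‖w‖ → χ w = 0 :=
    ⟨_, hχ, he, hχΩ, hχ0⟩
  obtain ⟨⟨N, hN⟩, hx⟩ := h6 χ h _ r hχ hi hr hχ0
  obtain ⟨mχ, bχ⟩ := h1.2 χ _ hχ
  obtain ⟨mφ, bφ⟩ := h1.2 φ _ hφ
  have hA := bs_add_Hol (bs_mul_Hol hφ mχ fun w => (bχ w).2) (bs_mul_Hol hχ mφ fun w => (bφ w).2)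
  have hB := bs_add_Hol hφ hA
  have hD := bs_add_Hol hB hN
  have hi2 : Integrable (fun ζ => h ζ * TT χ ζ) sig :=
    hi.mul_bdd mχ.aestronglyMeasurable (Eventually.of_forall fun w => (bχ w).2)
  have d1 := h3 _ _ Ω hD hΩ fun w hw => by
    have e1 := hχΩ w hw
    rw [he w, FF] at e1
    linear_combination e1
  refine (d1.add (((h7 h hi).mono hΩ1).add ((h7 _ hi2).mono hΩ1))).congr fun z hz => ?_
  have e1 := TT_add_Hol h1 hB hN z
  have e2 := TT_add_Hol h1 hφ hA z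
  have e3 := h4 φ χ _ _ hφ hχ z
  have e4 := hx z (mem_ball_zero_iff.1 (hΩ1 hz))
  simp only [Pi.add_apply]
  rw [he z, FF, e1, e2, ← e3]
  linear_combination e4

lemma step_Out {μ : Measure ℂ} {f : ℂ → ℂ} (hf : Integrable f μ)
    (hs : ∀ᵐ w ∂μ, f w = 0 ∨ ‖w‖ ≤ 1) {z : ℂ} (hz : 1 < ‖z‖) (n : ℕ) :
    ‖∫ w, w ^ n * f w / (w - z) ∂μ‖ ≤ (‖z‖ - 1)⁻¹ * ∫ w, ‖f w‖ ∂μ ∧
    ∫ w, w ^ (n + 1) * f w / (w - z) ∂μ =
      (∫ w, w ^ n * f w ∂μ) + z * ∫ w, w ^ n * f w / (w - z) ∂μ := by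
  have h0 : 0 < ‖z‖ - 1 := by linarith
  have b1 : ∀ᵐ w ∂μ, ‖w ^ n * f w‖ ≤ ‖f w‖ := by
    filter_upwards [hs] with w hw
    rcases hw with hw | hw
    · simp [hw]
    · rw [norm_mul, norm_pow]
      exact mul_le_of_le_one_left (norm_nonneg _) (pow_le_one₀ (norm_nonneg _) hw)
  have b2 : ∀ᵐ w ∂μ, ‖w ^ n * f w / (w - z)‖ ≤ (‖z‖ - 1)⁻¹ * ‖f w‖ := by
    filter_upwards [hs, b1] with w hw hb
    rcases hw with hw | hw
    · simp [hw]
    · have h1 : ‖z‖ - 1 ≤ ‖w - z‖ := by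
        have := norm_sub_norm_le z w
        rw [norm_sub_rev] at this
        linarith
      rw [norm_div, ← div_eq_inv_mul]
      exact div_le_div₀ (norm_nonneg _) hb h0 h1
  have m1 : AEStronglyMeasurable (fun w : ℂ => w ^ n * f w) μ :=
    (continuous_pow n).aestronglyMeasurable.mul hf.aestronglyMeasurable
  have m2 : AEStronglyMeasurable (fun w : ℂ => w ^ n * f w / (w - z)) μ :=
    (m1.aemeasurable.div (measurable_id.sub_const z).aemeasurable).aestronglyMeasurable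
  have i1 : Integrable (fun w : ℂ => w ^ n * f w) μ := hf.norm.mono' m1 b1
  have i2 : Integrable (fun w : ℂ => w ^ n * f w / (w - z)) μ :=
    (hf.norm.const_mul _).mono' m2 b2
  refine ⟨?_, ?_⟩
  · rw [← integral_const_mul]
    exact norm_integral_le_of_norm_le (hf.norm.const_mul _) b2
  · rw [← integral_const_mul, ← integral_add i1 (i2.const_mul z)]
    refine integral_congr_ae ?_
    filter_upwards [hs] with w hw
    rcases hw with hw | hw
    · simp [hw]
    · have : w - z ≠ 0 := sub_ne_zero.2 fun e => by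
        rw [e] at hw
        linarith
      field_simp
      ring

theorem sOut (_h1 : STb) : SOut := by
  intro φ h M hφ hh hm z hz
  have iφ : Integrable φ := by
    have h1 : IntegrableOn φ (ball (0 : ℂ) 1) :=
      Measure.integrableOn_of_bounded (M := M) measure_ball_lt_top.ne
        hφ.1.aestronglyMeasurable (Eventually.of_forall hφ.2.1)
    exact h1.integrable_of_forall_notMem_eq_zero fun w hw => hφ.2.2 w (by simpa using hw)
  have s1 := step_Out iφ (Eventually.of_forall fun w =>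
    (le_total 1 ‖w‖).imp (hφ.2.2 w) id) hz
  have s2 := step_Out hh (sig_ae.mono fun w hw => Or.inr hw.le) hz
  have key : ∀ n : ℕ, (∫ w, w ^ n * φ w / (w - z)) + ∫ w, w ^ n * h w / (w - z) ∂sig =
      z ^ n * FF φ h z := by
    intro n
    induction n with
    | zero => simp [FF, TT, CC]
    | succ n ih =>
      rw [(s1 n).2, (s2 n).2]
      linear_combination hm n + z * ih
  by_contra hne
  have hp : 0 < ‖FF φ h z‖ := norm_pos_iff.2 hne
  obtain ⟨n, hn⟩ := pow_unbounded_of_one_lt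
    (((‖z‖ - 1)⁻¹ * (∫ w, ‖φ w‖) + (‖z‖ - 1)⁻¹ * ∫ w, ‖h w‖ ∂sig) / ‖FF φ h z‖) hz
  rw [div_lt_iff₀ hp, ← norm_pow, ← norm_mul, ← key n] at hn
  exact hn.not_ge ((norm_add_le _ _).trans (add_le_add (s1 n).1 (s2 n).1))

lemma ker_Jump (h : ℂ → ℂ) {z ζ : ℂ} (hz : ‖z‖ < 1) (hζ : ‖ζ‖ = 1) :
    (PK z ζ : ℂ) * hh h ζ = h ζ / (ζ - z) - h ζ * conj z / (ζ * conj z - 1) := by
  have h0 : ζ ≠ 0 := norm_pos_iff.1 (hζ ▸ one_pos)
  have h1 : ζ - z ≠ 0 := sub_ne_zero.2 fun e => hz.ne (e ▸ hζ)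
  have h2 : ζ * conj z - 1 ≠ 0 := sub_ne_zero.2 fun e => by
    have := congrArg norm e
    rw [norm_mul, hζ, one_mul, Complex.norm_conj, norm_one] at this
    exact hz.ne this
  have h3 : 1 - conj z * ζ ≠ 0 := fun e => h2 (by linear_combination -e)
  have h5 : conj z * ζ - 1 ≠ 0 := fun e => h2 (by linear_combination e)
  have h4 : (Real.pi : ℂ) ≠ 0 := Complex.ofReal_ne_zero.2 Real.pi_ne_zero
  rw [PK, hh]
  push_cast
  rw [← Complex.mul_conj', ← Complex.mul_conj', map_sub, ← Complex.inv_eq_conj hζ]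
  field_simp
  ring

lemma int_Jump {h : ℂ → ℂ} (hi : Integrable h sig) {z : ℂ} (hz : ‖z‖ < 1) :
    Integrable (fun ζ => h ζ / (ζ - z)) sig := by
  simp only [div_eq_inv_mul]
  refine hi.bdd_mul (c := (1 - ‖z‖)⁻¹) (Measurable.aestronglyMeasurable (by fun_prop)) ?_
  filter_upwards [sig_ae] with ζ hζ
  rw [norm_inv]
  exact inv_anti₀ (by linarith) (by linarith [norm_sub_norm_le ζ z])

theorem sJump (h1 : STb) (h2 : STc) (h3 : SOut) : SJump := by
  intro φ h M hφ hi hm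
  have hb := fun z => ((h1.2 φ M hφ).2 z).2
  have key : ∀ z : ℂ, ‖z‖ < 1 → z ≠ 0 →
      FF φ h z - Po (hh h) z = TT φ z - TT φ (conj z)⁻¹ := fun z hz h0 => by
    have h4 : conj z ≠ 0 := (_root_.map_ne_zero _).2 h0
    have h5 := h3 φ h M hφ hi hm (conj z)⁻¹ (by
      rw [norm_inv, Complex.norm_conj]
      exact (one_lt_inv₀ (norm_pos_iff.2 h0)).2 hz)
    have h6 : CC h (conj z)⁻¹ = CC h z - Po (hh h) z := by
      rw [CC, CC, Po, ← integral_sub (int_Jump hi hz) (PK_intC (hh_int hi) hz)]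
      refine integral_congr_ae (sig_ae.mono fun ζ hζ => ?_)
      simp only
      rw [ker_Jump h hz hζ, sub_sub_cancel, ← mul_div_mul_right _ _ h4, sub_mul,
        inv_mul_cancel₀ h4]
    rw [FF, h6] at h5
    rw [FF]
    linear_combination h5
  refine ⟨fun z hz => ?_, fun η hη => ?_⟩
  · rcases eq_or_ne z 0 with rfl | h0
    · have h6 : Po (hh h) 0 = CC h 0 := integral_congr_ae (sig_ae.mono fun ζ hζ => by
        simp only
        rw [ker_Jump h hz hζ, map_zero, mul_zero, zero_div, sub_zero])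
      rw [FF, h6, add_sub_cancel_right]
      linarith [hb 0, norm_nonneg (TT φ 0)]
    · rw [key z hz h0]
      linarith [norm_sub_le (TT φ z) (TT φ (conj z)⁻¹), hb z, hb (conj z)⁻¹]
  · obtain ⟨δ, hδ, H⟩ := Metric.uniformContinuousOn_iff.1
      ((isCompact_closedBall (0 : ℂ) 2).uniformContinuousOn_of_continuous
        (h2 φ M hφ).continuousOn) η hη
    refine ⟨max (1 / 2) (1 - δ / 4), max_lt (by norm_num) (by linarith), fun z h4 hz => ?_⟩
    obtain ⟨h5, h6⟩ := max_lt_iff.1 h4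
    have h7 : 0 < ‖z‖ := by linarith
    have h0 : z ≠ 0 := norm_pos_iff.1 h7
    have h8 : conj z ≠ 0 := (_root_.map_ne_zero _).2 h0
    rw [key z hz h0, ← dist_eq_norm]
    refine (H z (mem_closedBall_zero_iff.2 (by linarith)) _ (mem_closedBall_zero_iff.2 ?_) ?_).le
    · rw [norm_inv, Complex.norm_conj, inv_le_comm₀ h7 two_pos]
      linarith
    · have e : z - (conj z)⁻¹ = ((‖z‖ ^ 2 - 1 : ℝ) : ℂ) / conj z := by
        push_cast
        rw [← Complex.mul_conj']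
        field_simp
      rw [dist_eq_norm, e, norm_div, Complex.norm_conj, Complex.norm_real, div_lt_iff₀ h7,
        Real.norm_of_nonpos (by nlinarith)]
      nlinarith

end Pool.Agent.MP_17fac5_an.Js
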