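import Pool.Agent.MP_17fac5_an.Js.St

set_option autoImplicit false

namespace Pool.Agent.MP_17fac5_an.Js

open MeasureTheory Filter Topology Metric Set Polynomial
open scoped ComplexConjugate ENNReal

/-- separation of an additive semigroup of functions from the negative functions -/
theorem sep_HB {X : Type} [TopologicalSpace X] [CompactSpace X] (G : (X → ℝ) → Prop)
    (g0 : G fun _ => 0) (ga : ∀ g g', G g → G g' → G fun x => g x + g' x)
    (gm : ∀ g g', G g → (∀ x, g x ≤ g' x) → G g') (gn : ∀ δ : ℝ, 0 < δ → ¬ G fun _ => -δ) :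
    ∃ f : C(X, ℝ) →L[ℝ] ℝ, 0 < f 1 ∧ ∀ w : C(X, ℝ), G w → 0 ≤ f w := by
  have gk : ∀ g, G g → ∀ k : ℕ, G fun x => k * g x := by
    intro g hg k
    induction k with
    | zero => exact gm _ _ g0 fun x => by simp
    | succ k ih => exact gm _ _ (ga _ _ ih hg) fun x => by push_cast; linarith
  obtain ⟨K, hK⟩ : ∃ K : Set C(X, ℝ), ∀ w, w ∈ K ↔
      ∀ ε : ℝ, 0 < ε → ∃ n : ℕ, 1 ≤ n ∧ G fun x => n * (w x + ε) :=
    ⟨{w | ∀ ε : ℝ, 0 < ε → ∃ n : ℕ, 1 ≤ n ∧ G fun x => n * (w x + ε)}, fun _ => Iff.rfl⟩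
  have kg : ∀ w : C(X, ℝ), G w → w ∈ K := fun w hw => (hK w).2 fun ε hε =>
    ⟨1, le_rfl, gm _ _ hw fun x => by push_cast; linarith⟩
  have ka : ∀ w ∈ K, ∀ w' ∈ K, w + w' ∈ K := by
    intro w hw w' hw'
    refine (hK _).2 fun ε hε => ?_
    obtain ⟨n, n1, hn⟩ := (hK _).1 hw (ε / 2) (by linarith)
    obtain ⟨m, m1, hm⟩ := (hK _).1 hw' (ε / 2) (by linarith)
    refine ⟨n * m, Nat.mul_pos n1 m1, gm _ _ (ga _ _ (gk _ hn m) (gk _ hm n)) fun x => ?_⟩
    rw [ContinuousMap.add_apply]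
    push_cast
    exact le_of_eq (by ring)
  have ks : ∀ c : ℝ, 0 ≤ c → ∀ w ∈ K, c • w ∈ K := by
    intro c hc w hw
    refine (hK _).2 fun ε hε => ?_
    obtain ⟨η, η0, hη⟩ : ∃ η : ℝ, 0 < η ∧ (c + 1) * η = ε / 2 :=
      ⟨ε / 2 / (c + 1), by positivity, by field_simp⟩
    obtain ⟨n, n1, hn⟩ := (hK _).1 hw η η0
    obtain ⟨q, hq⟩ := exists_nat_gt (max 1 (2 * ‖w‖ / ε))
    have q1 : (1 : ℝ) < q := (le_max_left _ _).trans_lt hq
    have q2 : 2 * ‖w‖ < q * ε := (div_lt_iff₀ hε).1 ((le_max_right _ _).trans_lt hq)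
    have p1 : (⌊q * c⌋₊ : ℝ) ≤ q * c := Nat.floor_le (by positivity)
    have p2 : q * c < ⌊q * c⌋₊ + 1 := Nat.lt_floor_add_one _
    refine ⟨n * q, Nat.mul_pos n1 (by exact_mod_cast q1.le), gm _ _ (gk _ hn ⌊q * c⌋₊) fun x => ?_⟩
    have a1 : |w x| ≤ ‖w‖ := w.norm_coe_le_norm x
    have a2 : -(q * c - ⌊q * c⌋₊) * w x ≤ ‖w‖ := by
      have := (abs_le.1 a1).1
      nlinarith [norm_nonneg w]
    have a3 : (⌊q * c⌋₊ : ℝ) * η ≤ q * (ε / 2) := by
      rw [← hη]
      nlinarith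
    have a4 : (⌊q * c⌋₊ : ℝ) * (w x + η) ≤ q * (c * w x + ε) := by nlinarith
    rw [ContinuousMap.smul_apply, smul_eq_mul]
    push_cast
    have := mul_le_mul_of_nonneg_left a4 (Nat.cast_nonneg (α := ℝ) n)
    linarith
  have kc : Convex ℝ K := fun w hw w' hw' a b ha hb _ => ka _ (ks a ha w hw) _ (ks b hb w' hw')
  have dis : Disjoint (ball (-1 : C(X, ℝ)) 1) K := by
    refine Set.disjoint_left.2 fun w hw hk => ?_
    rw [mem_ball, dist_eq_norm] at hw
    obtain ⟨n, n1, hn⟩ := (hK _).1 hk ((1 - ‖w - -1‖) / 2) (by linarith)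
    refine gn ((1 - ‖w - -1‖) / 2) (by linarith) (gm _ _ hn fun x => ?_)
    have a1 : |(w - -1) x| ≤ ‖w - -1‖ := (w - -1).norm_coe_le_norm x
    have a2 : (w - -1) x = w x + 1 := by simp
    have a3 := (abs_le.1 a1).2
    have a4 : (1 : ℝ) ≤ n := by exact_mod_cast n1
    nlinarith
  obtain ⟨f, s, h1, h2⟩ := geometric_hahn_banach_open (convex_ball _ _) isOpen_ball kc dis
  have s0 : s ≤ 0 := by simpa using h2 0 (kg 0 g0)
  refine ⟨f, ?_, fun w hw => ?_⟩
  · have := h1 (-1) (mem_ball_self one_pos)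
    rw [map_neg] at this
    linarith
  · by_contra hn
    rw [not_le] at hn
    have := h2 _ (ks ((s - 1) / f w) (div_nonneg_of_nonpos (by linarith) hn.le) w (kg w hw))
    rw [map_smul, smul_eq_mul, div_mul_cancel₀ _ hn.ne] at this
    linarith

theorem sHB : SHB := by
  intro X _ _ _ R r1 r2 r3 r4
  obtain ⟨f, f1, hf⟩ := sep_HB (X := X)
    (fun g => ∃ v a, R v a ∧ 0 < a ∧ ∀ x, v x ≤ a * Real.exp (g x))
    ⟨_, 1, r1 1 one_pos, one_pos, fun x => by simp⟩
    (fun g g' ⟨v, a, h, a0, hv⟩ ⟨v', a', h', a0', hv'⟩ => ⟨_, _, r2 v a v' a' h h', mul_pos a0 a0',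
      fun x => (mul_le_mul (hv x) (hv' x) (r3 v' a' h' x) (by positivity)).trans_eq
        (by rw [Real.exp_add]; ring)⟩)
    (fun g g' ⟨v, a, h, a0, hv⟩ hg => ⟨v, a, h, a0, fun x => (hv x).trans
      (mul_le_mul_of_nonneg_left (Real.exp_le_exp.2 (hg x)) a0.le)⟩)
    (fun δ hδ ⟨v, a, h, a0, hv⟩ => by
      have h1 := r4 v a _ h hv
      have h2 : Real.exp (-δ) < 1 := Real.exp_lt_one_iff.2 (by linarith)
      nlinarith)
  refine ⟨(f 1)⁻¹ • (f : C(X, ℝ) →ₗ[ℝ] ℝ), fun v a h a0 u hu => ?_⟩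
  have h1 := hf (u - Real.log a • 1) ⟨v, a, h, a0, fun x => (hu x).trans_eq (by
    rw [ContinuousMap.sub_apply, ContinuousMap.smul_apply, ContinuousMap.one_apply, smul_eq_mul,
      mul_one, Real.exp_sub, Real.exp_log a0]
    field_simp)⟩
  rw [map_sub, map_smul, smul_eq_mul] at h1
  change Real.log a ≤ (f 1)⁻¹ * f u
  rw [← div_eq_inv_mul, le_div_iff₀ f1]
  linarith

theorem sRz : SRz := by
  intro K hK Λ hΛ
  haveI : CompactSpace K := isCompact_iff_compactSpace.1 hK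
  have h1 : Λ 1 = 1 := by
    have a1 := hΛ 1 1 fun x => le_rfl
    have a2 := hΛ (-1) (-1) fun x => le_rfl
    rw [map_neg] at a2
    linarith
  let L : CompactlySupportedContinuousMap K ℝ →ₚ[ℝ] ℝ :=
    { toFun := fun u => Λ u.toContinuousMap
      map_add' := fun u v => by
        rw [← map_add]
        rfl
      map_smul' := fun c u => by
        rw [RingHom.id_apply, ← map_smul]
        rfl
      monotone' := fun u v huv => by
        have := hΛ (v.toContinuousMap - u.toContinuousMap) 0 fun x => sub_nonneg.2 (huv x)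
        rw [map_sub] at this
        exact sub_nonneg.1 this }
  have hint : ∀ u : C(K, ℝ), ∫ x, u x ∂(RealRMK.rieszMeasure L) = Λ u := fun u =>
    RealRMK.integral_rieszMeasure L (CompactlySupportedContinuousMap.continuousMapEquiv u)
  have hemb : MeasurableEmbedding (Subtype.val : K → ℂ) :=
    MeasurableEmbedding.subtype_coe hK.measurableSet
  have hP : IsProbabilityMeasure (RealRMK.rieszMeasure L) := by
    have h2 := hint 1
    simp only [ContinuousMap.one_apply, integral_const, smul_eq_mul, mul_one, h1] at h2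
    exact isProbabilityMeasure_iff_real.2 h2
  refine ⟨(RealRMK.rieszMeasure L).map Subtype.val,
    Measure.isProbabilityMeasure_map hemb.measurable.aemeasurable, ?_, fun f u hu => ?_⟩
  · rw [hemb.map_apply]
    simp
  · rw [hemb.integral_map, ← hint u]
    simp only [hu]

theorem pt_Bish {a ε x : ℝ} (ha : 0 < a) (hε : 0 < ε) (hx : 0 ≤ x) :
    x ≤ Real.exp (Real.log a - Real.log (a + ε) / (a / (a + ε)) +
      (a / (a + ε))⁻¹ * Real.log (x + ε)) := by
  rcases hx.eq_or_lt with rfl | hx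
  · exact (Real.exp_pos _).le
  have l0 : 0 < a / (a + ε) := by positivity
  have h := strictConcaveOn_log_Ioi.concaveOn.2 (x := x / a) (y := 1) (mem_Ioi.2 (by positivity))
    (mem_Ioi.2 one_pos) l0.le (show 0 ≤ ε / (a + ε) by positivity) (by field_simp)
  have e : (a / (a + ε)) • (x / a) + (ε / (a + ε)) • (1 : ℝ) = (x + ε) / (a + ε) := by
    simp only [smul_eq_mul]
    field_simp
  rw [e, Real.log_one, smul_zero, add_zero, smul_eq_mul, Real.log_div hx.ne' ha.ne',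
    Real.log_div (by positivity) (by positivity), mul_comm, ← le_div_iff₀ l0] at h
  rw [← Real.log_le_iff_le_exp hx, inv_mul_eq_div]
  rw [sub_div] at h
  linarith

theorem sBish (h1 : SHB) (h2 : SRz) : SBish := by
  intro Ω z₀ _ hb hz
  have hK : IsCompact (frontier Ω) :=
    hb.isCompact_closure.of_isClosed_subset isClosed_frontier frontier_subset_closure
  have : CompactSpace (frontier Ω) := isCompact_iff_compactSpace.1 hK
  have : Nonempty (frontier Ω) := by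
    rw [nonempty_coe_sort, nonempty_iff_ne_empty]
    intro h
    rcases frontier_eq_empty_iff.1 h with h | h
    · simp [h] at hz
    · exact NormedSpace.unbounded_univ ℝ ℂ (h ▸ hb)
  obtain ⟨Λ, hΛ⟩ := h1 (frontier Ω)
    (fun v a => ∃ f : ℂ → ℂ, DiffContOnCl ℂ f Ω ∧ (∀ x, v x = ‖f x‖) ∧ a = ‖f z₀‖)
    (fun c hc => ⟨fun _ => c, diffContOnCl_const, fun _ => by simp [abs_of_pos hc],
      by simp [abs_of_pos hc]⟩)
    (by
      rintro v a v' a' ⟨f, f1, f2, rfl⟩ ⟨g, g1, g2, rfl⟩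
      exact ⟨fun z => f z * g z, ⟨f1.1.mul g1.1, f1.2.mul g1.2⟩,
        fun x => by simp only [f2, g2, norm_mul], (norm_mul _ _).symm⟩)
    (by
      rintro v a ⟨f, -, f2, -⟩ x
      rw [f2]
      exact norm_nonneg _)
    (by
      rintro v a M ⟨f, f1, f2, rfl⟩ hM
      exact Complex.norm_le_of_forall_mem_frontier_norm_le hb f1
        (fun z hz => f2 ⟨z, hz⟩ ▸ hM ⟨z, hz⟩) (subset_closure hz))
  have lo : ∀ (u : C(frontier Ω, ℝ)) (c : ℝ), (∀ x, c ≤ u x) → c ≤ Λ u := fun u c h => by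
    have := hΛ (fun _ => Real.exp c) (Real.exp c) ⟨fun _ => (Real.exp c : ℝ), diffContOnCl_const,
      fun _ => by rw [Complex.norm_real, Real.norm_of_nonneg (Real.exp_pos c).le],
      by rw [Complex.norm_real, Real.norm_of_nonneg (Real.exp_pos c).le]⟩ (Real.exp_pos c) u
      fun x => Real.exp_le_exp.2 (h x)
    rwa [Real.log_exp] at this
  have cst : ∀ c : ℝ, Λ (ContinuousMap.const _ c) ≤ c := fun c => by
    have := lo (-ContinuousMap.const _ c) (-c) fun _ => le_rfl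
    rw [map_neg] at this
    linarith
  obtain ⟨ω, o1, o2, o3⟩ := h2 _ hK Λ lo
  refine ⟨ω, o1, o2, fun f hf ε hε => ?_⟩
  have fc : Continuous fun x : frontier Ω => f x :=
    (hf.continuousOn.mono frontier_subset_closure).domRestrict
  let g : C(frontier Ω, ℝ) := ⟨fun x => Real.log (‖f x‖ + ε),
    (fc.norm.add continuous_const).log fun x =>
      (add_pos_of_nonneg_of_pos (norm_nonneg _) hε).ne'⟩
  rw [o3 (fun z => Real.log (‖f z‖ + ε)) g fun _ => rfl]
  rcases (norm_nonneg (f z₀)).eq_or_lt with h | h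
  · rw [← h]
    exact lo g _ fun x => Real.log_le_log (by positivity) (by gcongr; exact norm_nonneg _)
  · set a := ‖f z₀‖ with ha
    have l0 : 0 < a / (a + ε) := by positivity
    have := hΛ (fun x => ‖f x‖) a ⟨f, hf, fun _ => rfl, rfl⟩ h
      (ContinuousMap.const _ (Real.log a - Real.log (a + ε) / (a / (a + ε))) + (a / (a + ε))⁻¹ • g)
      fun x => pt_Bish h hε (norm_nonneg _)
    rw [map_add, map_smul, smul_eq_mul, inv_mul_eq_div] at this
    have h3 := cst (Real.log a - Real.log (a + ε) / (a / (a + ε)))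
    exact (div_le_div_iff_of_pos_right l0).1 (by linarith)

lemma exp_bd_St1 {u : ℂ} {K : ℝ} (h : ‖u‖ ≤ K) :
    Real.exp (-K) ≤ ‖Complex.exp (-u)‖ ∧ ‖Complex.exp (-u)‖ ≤ Real.exp K := by
  have h1 := abs_le.1 ((Complex.abs_re_le_norm u).trans h)
  rw [Complex.norm_exp, Complex.neg_re]
  exact ⟨Real.exp_le_exp.2 (by linarith [h1.2]), Real.exp_le_exp.2 (by linarith [h1.1])⟩

lemma int_log_St1 {ω : Measure ℂ} [IsFiniteMeasure ω] {r ε : ℝ} (hε : 0 < ε)
    (h : ∀ᵐ z ∂ω, ‖z‖ ≤ r) {f : ℂ → ℂ} (hf : ContinuousOn f (closedBall 0 r)) :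
    Integrable (fun z => Real.log (‖f z‖ + ε)) ω :=
  int_cont h ((hf.norm.add continuousOn_const).log fun z _ =>
    (add_pos_of_nonneg_of_pos (norm_nonneg (f z)) hε).ne')

theorem sSt1 (h1 : STc) (h2 : SCC) (h3 : SHol) (h4 : SBish) : SSt1 := by
  intro γ L a M M₁ r φ h z₀ hW ha hM hB hφ hi h0 hz hr
  have hF : ContinuousOn (FF φ h) (ball 0 1) :=
    (h1 φ M₁ hB).continuousOn.add (h2 h hi).continuousOn
  have hg : Continuous fun z => γ z ^ a := hW.lip.continuous.rpow_const fun _ => Or.inr ha.le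
  have hsub : closedBall (0 : ℂ) r ⊆ ball 0 1 := closedBall_subset_ball hr
  obtain ⟨Ω, hΩ⟩ : ∃ Ω : Set ℂ, Ω = ball 0 r ∩ (fun z => ‖FF φ h z‖ - γ z ^ a) ⁻¹' Ioi 0 := ⟨_, rfl⟩
  have hm : ∀ z, z ∈ Ω ↔ ‖z‖ < r ∧ γ z ^ a < ‖FF φ h z‖ := fun z => by simp [hΩ]
  have ho : IsOpen Ω := by
    rw [hΩ]
    exact ((hF.mono (ball_subset_ball hr.le)).norm.sub hg.continuousOn).isOpen_inter_preimage
      isOpen_ball isOpen_Ioi
  have hb : Ω ⊆ ball 0 r := fun z hz => mem_ball_zero_iff.2 ((hm z).1 hz).1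
  have hcl : closure Ω ⊆ closedBall 0 r :=
    closure_minimal (hb.trans ball_subset_closedBall) isClosed_closedBall
  obtain ⟨u, hu, hK, hd⟩ := h3 φ h M₁ M r Ω hB hi ho hr hb hM fun w hw => by
    obtain ⟨w1, w2⟩ := (hm w).1 hw
    have w3 : 0 ≤ γ w ^ a := Real.rpow_nonneg (hW.nonneg w (w1.trans hr)) a
    exact ⟨norm_pos_iff.1 (w3.trans_lt w2),
      (hφ w (w1.trans hr)).trans (mul_le_mul_of_nonneg_left w2.le hM)⟩
  obtain ⟨ω, hp, hs, hj⟩ := h4 Ω z₀ ho (isBounded_ball.subset hb) ((hm z₀).2 ⟨hz, h0⟩)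
  have hfr : ∀ᵐ z ∂ω, z ∈ closure Ω \ Ω := by
    rw [← ho.frontier_eq]
    exact hs
  have hae : ∀ᵐ z ∂ω, ‖z‖ ≤ r := hfr.mono fun z hz => mem_closedBall_zero_iff.1 (hcl hz.1)
  refine ⟨ω, hp, ?_, fun H hH ε hε => hj H (hH.mono (hcl.trans hsub)).diffContOnCl ε hε,
    fun ε hε => ?_⟩
  · filter_upwards [hfr, hae] with z z1 z2
    rcases z2.lt_or_eq with z2 | z2
    · exact Or.inl ⟨z2, not_lt.1 fun c => z1.2 ((hm z).2 ⟨z2, c⟩)⟩
    · exact Or.inr z2
  · have hc : ContinuousOn (fun z => FF φ h z * Complex.exp (-u z)) (closedBall 0 r) :=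
      (hF.mono hsub).mul (Complex.continuous_exp.comp hu.neg).continuousOn
    have he : 0 < Real.exp (K0 * M) := Real.exp_pos _
    have e1 := hj _ ⟨hd, hc.mono hcl⟩ (ε * Real.exp (K0 * M)) (mul_pos hε he)
    have hpos : 0 < ‖FF φ h z₀‖ := (Real.rpow_nonneg (hW.nonneg z₀ (hz.trans hr)) a).trans_lt h0
    have e2 : Real.log ‖FF φ h z₀‖ - K0 * M ≤
        Real.log (‖FF φ h z₀ * Complex.exp (-u z₀)‖ + ε * Real.exp (K0 * M)) := by
      have : Real.log ‖FF φ h z₀‖ - K0 * M = Real.log (‖FF φ h z₀‖ * Real.exp (-(K0 * M))) := by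
        rw [Real.log_mul hpos.ne' (Real.exp_pos _).ne', Real.log_exp]
        ring
      rw [this, norm_mul]
      refine Real.log_le_log (mul_pos hpos (Real.exp_pos _)) ?_
      have := mul_le_mul_of_nonneg_left (exp_bd_St1 (hK z₀)).1 hpos.le
      linarith [mul_pos hε he]
    have i2 := int_log_St1 hε hae (hF.mono hsub)
    have e3 : ∫ z, Real.log (‖FF φ h z * Complex.exp (-u z)‖ + ε * Real.exp (K0 * M)) ∂ω ≤
        ∫ z, (Real.log (‖FF φ h z‖ + ε) + K0 * M) ∂ω := by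
      refine integral_mono (int_log_St1 (mul_pos hε he) hae hc) (i2.add (integrable_const _))
        fun z => ?_
      have p1 : 0 < ‖FF φ h z‖ + ε := add_pos_of_nonneg_of_pos (norm_nonneg _) hε
      have : Real.log (‖FF φ h z‖ + ε) + K0 * M =
          Real.log ((‖FF φ h z‖ + ε) * Real.exp (K0 * M)) := by
        rw [Real.log_mul p1.ne' he.ne', Real.log_exp]
      simp only [this]
      refine Real.log_le_log (add_pos_of_nonneg_of_pos (norm_nonneg _) (mul_pos hε he)) ?_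
      have := mul_le_mul_of_nonneg_left (exp_bd_St1 (hK z)).2 (norm_nonneg (FF φ h z))
      rw [norm_mul]
      linarith
    rw [integral_add i2 (integrable_const _), integral_const, probReal_univ, one_smul] at e3
    linarith

lemma log_up_Mv {x e B : ℝ} (he : 0 < e) (hx : -B ≤ x) :
    Real.log (Real.exp x + e) ≤ x + e * Real.exp B := by
  rw [Real.log_le_iff_le_exp (by positivity), Real.exp_add]
  have h1 : e * Real.exp B + 1 ≤ Real.exp (e * Real.exp B) := Real.add_one_le_exp _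
  have h2 : 1 ≤ Real.exp x * Real.exp B := by
    rw [← Real.exp_add]
    exact Real.one_le_exp (by linarith)
  have h3 := Real.exp_pos x
  have h4 := mul_le_mul_of_nonneg_left h1 h3.le
  nlinarith

lemma re_le_Mv {z₀ : ℂ} {r : ℝ} {ω : Measure ℂ} [IsProbabilityMeasure ω] (hr : r < 1)
    (hs : ∀ᵐ z ∂ω, ‖z‖ ≤ r) (hJ : JH z₀ ω) {G : ℂ → ℂ} (hG : DifferentiableOn ℂ G (ball 0 1)) :
    (G z₀).re ≤ ∫ z, (G z).re ∂ω := by
  have hc : ContinuousOn G (closedBall 0 r) := hG.continuousOn.mono (closedBall_subset_ball hr)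
  obtain ⟨B, hB⟩ := (isCompact_closedBall (0 : ℂ) r).exists_bound_of_continuousOn hc
  have hre : ContinuousOn (fun z => (G z).re) (closedBall 0 r) :=
    Complex.continuous_re.comp_continuousOn hc
  have hi : Integrable (fun z => (G z).re) ω := int_cont hs hre
  have key : ∀ e : ℝ, 0 < e → (G z₀).re ≤ (∫ z, (G z).re ∂ω) + e * Real.exp B := by
    intro e he
    have h1 := hJ (fun z => Complex.exp (G z)) hG.cexp e he
    simp only [Complex.norm_exp] at h1
    have h2 : (G z₀).re ≤ Real.log (Real.exp (G z₀).re + e) := by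
      rw [Real.le_log_iff_exp_le (by positivity)]
      linarith
    have h3 : Integrable (fun z => Real.log (Real.exp (G z).re + e)) ω :=
      int_cont hs ((hre.rexp.add continuousOn_const).log fun z _ =>
        (add_pos (Real.exp_pos _) he).ne')
    have h4 : ∫ z, Real.log (Real.exp (G z).re + e) ∂ω ≤ ∫ z, ((G z).re + e * Real.exp B) ∂ω := by
      refine integral_mono_ae h3 (hi.add (integrable_const _)) ?_
      filter_upwards [hs] with z hz
      have h5 := hB z (by simpa using hz)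
      have h6 := Complex.abs_re_le_norm (G z)
      exact log_up_Mv he (by linarith [neg_abs_le (G z).re])
    rw [integral_add hi (integrable_const _), integral_const] at h4
    simp only [probReal_univ, smul_eq_mul, one_mul] at h4
    linarith
  refine le_of_forall_pos_le_add fun η hη => ?_
  have h := key (η / Real.exp B) (by positivity)
  rwa [div_mul_cancel₀ _ (Real.exp_pos B).ne'] at h

theorem sMv (h1 : SPh) : SMv := by
  intro z₀ r ω hp hr hz hs hJ h hi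
  obtain ⟨H, hH, hre⟩ := h1 h hi
  have hae : (fun z => (H z).re) =ᵐ[ω] Pr h := by
    filter_upwards [hs] with z hz using hre z (hz.trans_lt hr)
  have hc : ContinuousOn (fun z => (H z).re) (closedBall 0 r) :=
    Complex.continuous_re.comp_continuousOn (hH.continuousOn.mono (closedBall_subset_ball hr))
  refine ⟨(int_cont hs hc).congr hae, ?_⟩
  have a1 := re_le_Mv hr hs hJ hH
  have a2 := re_le_Mv hr hs hJ hH.neg
  simp only [Pi.neg_apply, Complex.neg_re, integral_neg] at a2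
  rw [← integral_congr_ae hae, ← hre z₀ hz]
  linarith

lemma ta_St2 {ε x : ℝ} (hε : 0 < ε) (h1 : ε ≤ 1) (hx : 0 ≤ x) :
    ta ε x ≤ -Real.log (x + ε) + x := by
  have := Real.log_le_sub_one_of_pos (show 0 < x + ε by linarith)
  exact max_le (by linarith) (by linarith)

theorem sSt2 (h1 : SMv) : SSt2 := by
  intro γ a r δ A B F h z₀ ω hω hz hr hi hF hs hJ hA hB hδ hδF hP
  have hle : ∀ᵐ z ∂ω, ‖z‖ ≤ r := hs.mono fun z hz => hz.elim (fun e => e.1.le) fun e => e.le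
  have hm := h1 z₀ r ω hω hr hz hle hJ
  refine ⟨hω, hs, fun p ε hε => hJ _ p.differentiable.differentiableOn ε hε, hm, ?_⟩
  intro ε hε hε1
  have hF' : ContinuousOn (fun z => ‖F z‖ + ε) (closedBall 0 r) :=
    (hF.mono (closedBall_subset_ball hr)).norm.add continuousOn_const
  have hlog : ContinuousOn (fun z => Real.log (‖F z‖ + ε)) (closedBall 0 r) :=
    hF'.log fun z _ => (add_pos_of_nonneg_of_pos (norm_nonneg _) hε).ne'
  have i1 : Integrable (fun z => ta ε ‖F z‖) ω :=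
    int_cont hle (continuousOn_const.sup hlog.neg)
  have i2 : Integrable (fun z => Real.log (‖F z‖ + ε)) ω := int_cont hle hlog
  obtain ⟨i3, e3⟩ := hm _ hi.norm
  refine ⟨i1, ?_⟩
  have i4 : Integrable (fun z => B + Pr (fun ζ => ‖h ζ‖) z) ω := (integrable_const B).add i3
  have h2 : ∫ z, ta ε ‖F z‖ ∂ω ≤
      ∫ z, ((B + Pr (fun ζ => ‖h ζ‖) z) - Real.log (‖F z‖ + ε)) ∂ω := by
    refine integral_mono_ae i1 (i4.sub i2) ?_
    filter_upwards [hle] with z hz
    have hz1 : ‖z‖ < 1 := hz.trans_lt hr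
    have t1 := ta_St2 hε hε1 (norm_nonneg (F z))
    have t2 := norm_sub_norm_le (F z) (Po h z)
    have t3 := hB z hz1
    have t4 := Po_norm h hz1
    linarith
  rw [integral_sub i4 i2, integral_add (integrable_const B) i3, e3, integral_const,
    probReal_univ, one_smul] at h2
  have h3 := hA ε hε
  have h4 := Real.log_le_log hδ hδF
  linarith

theorem sWk : SWk := by
  intro ωs hp hb
  have hK : MeasurableSet (closedBall (0 : ℂ) 1) := measurableSet_closedBall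
  have he : MeasurableEmbedding ((↑) : closedBall (0 : ℂ) 1 → ℂ) := MeasurableEmbedding.subtype_coe hK
  have : CompactSpace (closedBall (0 : ℂ) 1) := isCompact_iff_compactSpace.1 (isCompact_closedBall _ _)
  have hm : ∀ k, ((ωs k).comap ((↑) : closedBall (0 : ℂ) 1 → ℂ)).map (↑) = ωs k := fun k => by
    rw [he.map_comap, Subtype.range_coe]
    exact Measure.restrict_eq_self_of_ae_mem ((hb k).mono fun z hz => by simpa using hz)
  have hq : ∀ k, IsProbabilityMeasure ((ωs k).comap ((↑) : closedBall (0 : ℂ) 1 → ℂ)) := fun k =>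
    ⟨by
      have := hp k
      have h := congrArg (fun μ : Measure ℂ => μ univ) (hm k)
      simpa [he.map_apply] using h⟩
  let ν : ℕ → ProbabilityMeasure (closedBall (0 : ℂ) 1) := fun k => ⟨_, hq k⟩
  obtain ⟨μ, -, hμ⟩ := isCompact_univ.ultrafilter_le_nhds ((Ultrafilter.of atTop).map ν) (by simp)
  refine ⟨(μ : Measure (closedBall (0 : ℂ) 1)).map (↑),
    Measure.isProbabilityMeasure_map he.measurable.aemeasurable, ?_,
    ((Ultrafilter.of atTop : Ultrafilter ℕ) : Filter ℕ), inferInstance, Ultrafilter.of_le _,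
    fun f hf => ?_⟩
  · rw [Cl, he.map_apply]
    convert measure_empty (μ := (μ : Measure (closedBall (0 : ℂ) 1)))
    exact eq_empty_of_forall_notMem fun z hz => hz z.2
  · have h := ProbabilityMeasure.tendsto_iff_forall_integral_tendsto.1
      (show Tendsto ν ((Ultrafilter.of atTop : Ultrafilter ℕ) : Filter ℕ) (𝓝 μ) from hμ)
      (BoundedContinuousFunction.mkOfCompact ⟨fun z => f z, hf.comp continuous_subtype_val⟩)
    rw [he.integral_map]
    refine h.congr fun k => ?_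
    rw [← hm k, he.integral_map]
    rfl

noncomputable def eta_La (j : ℕ) (z : ℂ) : ℝ := min 1 (max 0 (((j : ℝ) + 1) * (1 - ‖z‖) - 1))

noncomputable def ff_La (γ : ℂ → ℝ) (a : ℝ) (j : ℕ) (z : ℂ) : ℝ :=
  eta_La j z * ta (1 / ((j : ℝ) + 1)) (|γ z| ^ a)

lemma eta_nonneg_La (j : ℕ) (z : ℂ) : 0 ≤ eta_La j z := le_min zero_le_one (le_max_left _ _)

lemma ff_nonneg_La (γ : ℂ → ℝ) (a : ℝ) (j : ℕ) (z : ℂ) : 0 ≤ ff_La γ a j z :=
  mul_nonneg (eta_nonneg_La j z) (ta_nonneg _ _)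

lemma ff_cont_La {γ : ℂ → ℝ} (hγ : Continuous γ) {a : ℝ} (ha : 0 < a) (j : ℕ) :
    Continuous (ff_La γ a j) := by
  have h1 : Continuous (eta_La j) := by unfold eta_La; fun_prop
  exact h1.mul (ta_cont (by positivity) (hγ.abs.rpow_const fun _ => Or.inr ha.le)
    fun x => Real.rpow_nonneg (abs_nonneg _) _)

lemma ff_lim_La {γ : ℂ → ℝ} {a : ℝ} {z : ℂ} (hz : ‖z‖ < 1) (hp : 0 ≤ γ z) :
    Tendsto (fun j => ENNReal.ofReal (ff_La γ a j z)) atTop (𝓝 (lp (γ z ^ a))) := by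
  refine (lp_liminf (Real.rpow_nonneg hp a)).congr' ?_
  have h3 : 0 < 1 - ‖z‖ := by linarith
  obtain ⟨N, hN⟩ := exists_nat_ge (2 / (1 - ‖z‖))
  filter_upwards [eventually_ge_atTop N] with j hj
  have h4 : (N : ℝ) ≤ j := by exact_mod_cast hj
  rw [div_le_iff₀ h3] at hN
  have h5 : eta_La j z = 1 := min_eq_left (le_max_of_le_right (by nlinarith))
  rw [ff_La, h5, one_mul, abs_of_nonneg hp]

theorem sLa : SLa := by
  intro γ L a K F z₀ r ωs ω hW ha hr1 hr hS hL
  obtain ⟨hP, hC, l, hl, hle, hlim⟩ := hL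
  have hγ : Continuous γ := hW.lip.continuous
  refine ⟨fun p ε hε => ?_, ?_⟩
  · have hc : Continuous fun z : ℂ => Real.log (‖p.eval z‖ + ε) :=
      (p.continuous.norm.add continuous_const).log fun z =>
        (add_pos_of_nonneg_of_pos (norm_nonneg _) hε).ne'
    exact ge_of_tendsto (hlim _ hc) (Eventually.of_forall fun k => (hS k).jen p ε hε)
  have hA : ∀ j : ℕ, ∫ z, ff_La γ a j z ∂ω ≤ K := fun j => by
    have e0 : (0 : ℝ) < 1 / ((j : ℝ) + 1) := by positivity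
    have e1 : 1 / ((j : ℝ) + 1) ≤ 1 := by
      rw [div_le_one (by positivity)]
      linarith [(Nat.cast_nonneg j : (0 : ℝ) ≤ j)]
    refine le_of_tendsto (hlim _ (ff_cont_La hγ ha j)) ?_
    have hev : ∀ᶠ k in atTop, 1 - 1 / ((j : ℝ) + 1) < r k :=
      hr.eventually (lt_mem_nhds (by linarith))
    filter_upwards [hev.filter_mono hle] with k hk
    have := (hS k).prob
    obtain ⟨b1, b2⟩ := (hS k).bd _ e0 e1
    refine le_trans (integral_mono_ae (int_cont (r := 1) ?_ (ff_cont_La hγ ha j).continuousOn)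
      b1 ?_) b2
    · filter_upwards [(hS k).supp] with z hz
      rcases hz with hz | hz
      · linarith [hz.1, hr1 k]
      · linarith [hr1 k]
    · filter_upwards [(hS k).supp] with z hz
      rcases hz with hz | hz
      · have hp := hW.nonneg z (hz.1.trans (hr1 k))
        refine (mul_le_of_le_one_left (ta_nonneg _ _) (min_le_left _ _)).trans ?_
        rw [abs_of_nonneg hp]
        exact ta_anti e0 (norm_nonneg _) hz.2
      · have h1 : ((j : ℝ) + 1) * (1 / ((j : ℝ) + 1)) = 1 := by field_simp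
        have h2 : eta_La j z = 0 := by
          rw [eta_La, hz, max_eq_left, min_eq_right zero_le_one]
          have := mul_le_mul_of_nonneg_left (show 1 - r k ≤ 1 / ((j : ℝ) + 1) by linarith)
            (show (0 : ℝ) ≤ j + 1 by positivity)
          linarith
        rw [ff_La, h2, zero_mul]
        exact ta_nonneg _ _
  have hm : ∀ j, Measurable fun z => ENNReal.ofReal (ff_La γ a j z) := fun j =>
    (ff_cont_La hγ ha j).measurable.ennreal_ofReal
  calc ∫⁻ z in ball (0 : ℂ) 1, lp (γ z ^ a) ∂ω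
      = ∫⁻ z in ball (0 : ℂ) 1, liminf (fun j => ENNReal.ofReal (ff_La γ a j z)) atTop ∂ω := by
        refine setLIntegral_congr_fun measurableSet_ball fun z hz => ?_
        have hz' : ‖z‖ < 1 := by simpa using hz
        exact (ff_lim_La (a := a) hz' (hW.nonneg z hz')).liminf_eq.symm
    _ ≤ liminf (fun j => ∫⁻ z in ball (0 : ℂ) 1, ENNReal.ofReal (ff_La γ a j z) ∂ω) atTop :=
        lintegral_liminf_le hm
    _ ≤ ENNReal.ofReal K := by
        refine liminf_le_of_frequently_le' (Frequently.of_forall fun j => ?_)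
        refine (setLIntegral_le_lintegral _ _).trans ?_
        rw [← ofReal_integral_eq_lintegral_ofReal
          (int_cont hC.ae (ff_cont_La hγ ha j).continuousOn)
          (Eventually.of_forall (ff_nonneg_La γ a j))]
        exact ENNReal.ofReal_le_ofReal (hA j)

lemma ring_Lb {γ : ℂ → ℝ} {L : NNReal} {a : ℝ} (hw : Wt γ L) (ha : 0 < a) (lam : ℝ) :
    ∃ t : ℝ, 0 < t ∧ t < 1 ∧ ∀ z : ℂ, t < ‖z‖ → ‖z‖ < 1 →
      ENNReal.ofReal lam ≤ lp (γ z ^ a) := by
  have hη : 0 < Real.exp (-lam / a) := Real.exp_pos _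
  have hL : (0 : ℝ) ≤ L := L.2
  have hq : 0 < Real.exp (-lam / a) / (L + 1) := by positivity
  refine ⟨max (1 / 2) (1 - Real.exp (-lam / a) / (L + 1)), lt_max_of_lt_left (by norm_num),
    max_lt (by norm_num) (by linarith), fun z h1 h2 => ?_⟩
  have h3 : 1 - ‖z‖ ≤ Real.exp (-lam / a) / (L + 1) := by linarith [(max_lt_iff.1 h1).2]
  rw [le_div_iff₀ (by positivity)] at h3
  have h4 : γ z ≤ Real.exp (-lam / a) := by nlinarith [hw.le h2.le]
  rcases (hw.nonneg z h2).eq_or_lt with h0 | h0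
  · rw [← h0, Real.zero_rpow ha.ne', lp, if_pos rfl]
    exact le_top
  have h5 := Real.log_le_log h0 h4
  rw [Real.log_exp, le_div_iff₀ ha] at h5
  rw [lp, if_neg (Real.rpow_pos_of_pos h0 a).ne', Real.log_rpow h0]
  exact ENNReal.ofReal_le_ofReal (by linarith)

lemma ball_Lb {z₀ : ℂ} {ω : Measure ℂ} [IsProbabilityMeasure ω] (hc : Cl ω) (hj : Jen z₀ ω)
    (t : ℝ) : Real.log (‖z₀‖ + 1) ≤
      Real.log 2 - ω.real (closedBall 0 t) * (Real.log 2 - Real.log (t + 1)) := by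
  have h1 := hj X 1 one_pos
  simp only [eval_X] at h1
  have hm : MeasurableSet (closedBall (0 : ℂ) t) := measurableSet_closedBall
  have i1 : Integrable (fun z : ℂ => Real.log (‖z‖ + 1)) ω :=
    int_cont hc.ae ((continuous_norm.add continuous_const).log fun z : ℂ =>
      (add_pos_of_nonneg_of_pos (norm_nonneg z) one_pos).ne').continuousOn
  have i2 : Integrable ((closedBall (0 : ℂ) t).indicator
      fun _ => Real.log 2 - Real.log (t + 1)) ω := (integrable_const _).indicator hm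
  refine h1.trans ((integral_mono_ae i1 ((integrable_const (Real.log 2)).sub i2) ?_).trans
    (le_of_eq ?_))
  · filter_upwards [hc.ae] with z hz
    rw [Pi.sub_apply]
    by_cases e : z ∈ closedBall (0 : ℂ) t
    · rw [indicator_of_mem e, sub_sub_cancel]
      exact Real.log_le_log (by positivity) (by linarith [mem_closedBall_zero_iff.1 e])
    · rw [indicator_of_notMem e, sub_zero]
      exact Real.log_le_log (by positivity) (by linarith)
  · rw [integral_sub' (integrable_const _) i2, integral_indicator_const _ hm]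
    simp

theorem sLb : SLb := by
  intro γ L a K hw ha
  obtain ⟨t, t0, t1, ht⟩ := ring_Lb hw ha (4 * (|K| + 1))
  obtain ⟨c, hc⟩ : ∃ c, c = Real.log 2 - Real.log (t + 1) := ⟨_, rfl⟩
  have c0 : 0 < c := by
    rw [hc, sub_pos]
    exact Real.log_lt_log (by positivity) (by linarith)
  have e1 : Real.exp (-(c / 4)) < 1 := Real.exp_lt_one_iff.2 (by linarith)
  refine ⟨2 * Real.exp (-(c / 4)) - 1, by linarith, fun z₀ ω h1 _ _ hcl hj hK => ?_⟩
  have m1 : ω.real (closedBall 0 t) ≤ 1 / 4 := by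
    have b1 := ball_Lb hcl hj t
    have b2 : Real.log (2 * Real.exp (-(c / 4))) ≤ Real.log (‖z₀‖ + 1) :=
      Real.log_le_log (by positivity) (by linarith)
    rw [Real.log_mul (by norm_num) (Real.exp_pos _).ne', Real.log_exp] at b2
    rw [← hc] at b1
    refine le_of_mul_le_mul_right ?_ c0
    linarith
  have hA : MeasurableSet {z : ℂ | t < ‖z‖ ∧ ‖z‖ < 1} :=
    (measurableSet_lt measurable_const measurable_norm).inter
      (measurableSet_lt measurable_norm measurable_const)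
  have m2 : ω.real {z : ℂ | t < ‖z‖ ∧ ‖z‖ < 1} ≤ 1 / 4 := by
    have k0 := abs_nonneg K
    have b1 : ∫⁻ _ in {z : ℂ | t < ‖z‖ ∧ ‖z‖ < 1}, ENNReal.ofReal (4 * (|K| + 1)) ∂ω ≤
        ENNReal.ofReal |K| :=
      (setLIntegral_mono' hA fun z hz => ht z hz.1 hz.2).trans
        ((lintegral_mono_set fun z hz => mem_ball_zero_iff.2 hz.2).trans
          (hK.trans (ENNReal.ofReal_le_ofReal (le_abs_self K))))
    rw [setLIntegral_const, ← ofReal_measureReal, ← ENNReal.ofReal_mul (by positivity),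
      ENNReal.ofReal_le_ofReal_iff k0] at b1
    refine le_of_mul_le_mul_left (b1.trans ?_) (by positivity : 0 < 4 * (|K| + 1))
    linarith
  have m3 : ω.real (closedBall (0 : ℂ) 1)ᶜ = 0 := by
    rw [Measure.real, show ω (closedBall (0 : ℂ) 1)ᶜ = 0 from hcl, ENNReal.toReal_zero]
  have m4 : ω.real univ ≤ ω.real (((closedBall 0 t ∪ {z : ℂ | t < ‖z‖ ∧ ‖z‖ < 1}) ∪ sphere 0 1) ∪
      (closedBall (0 : ℂ) 1)ᶜ) := by
    refine measureReal_mono fun z _ => ?_
    simp only [mem_union, mem_closedBall_zero_iff, mem_ofPred_eq, mem_sphere_zero_iff_norm,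
      mem_compl_iff, not_le]
    rcases lt_trichotomy ‖z‖ 1 with h | h | h
    · exact Or.inl (Or.inl ((le_or_gt ‖z‖ t).imp_right fun k => ⟨k, h⟩))
    · exact Or.inl (Or.inr h)
    · exact Or.inr h
  have m5 := measureReal_union_le (μ := ω)
    ((closedBall 0 t ∪ {z : ℂ | t < ‖z‖ ∧ ‖z‖ < 1}) ∪ sphere 0 1) (closedBall (0 : ℂ) 1)ᶜ
  have m6 := measureReal_union_le (μ := ω)
    (closedBall 0 t ∪ {z : ℂ | t < ‖z‖ ∧ ‖z‖ < 1}) (sphere 0 1)
  have m7 := measureReal_union_le (μ := ω) (closedBall 0 t) {z : ℂ | t < ‖z‖ ∧ ‖z‖ < 1}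
  rw [probReal_univ] at m4
  linarith

theorem sLc : SLc := by
  intro γ L a K β hw ha hβ
  obtain ⟨c, hc⟩ : ∃ c : ℝ, c = (|K| + 1) / β := ⟨_, rfl⟩
  have c0 : 0 < c := by rw [hc]; positivity
  obtain ⟨e, he⟩ : ∃ e : ℝ, e = Real.exp (-c) / 2 := ⟨_, rfl⟩
  have e0 : 0 < e := by rw [he]; positivity
  have e1 : e ≤ 1 := by
    have := Real.exp_le_one_iff.2 (neg_nonpos.2 c0.le)
    linarith
  have e2 : -Real.log (e + e) = c := by
    rw [he, add_halves, Real.log_exp, neg_neg]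
  have L0 : (0 : ℝ) ≤ L := L.2
  have p0 : 0 < e ^ a⁻¹ := Real.rpow_pos_of_pos e0 _
  have p1 : 0 < e ^ a⁻¹ / (L + 1) := by positivity
  refine ⟨1 - e ^ a⁻¹ / (L + 1), by linarith, fun F z₀ r ω hr hs => ?_⟩
  have := hs.prob
  have hm : MeasurableSet {z : ℂ | 1 - e ^ a⁻¹ / (L + 1) ≤ ‖z‖ ∧ ‖z‖ < r} :=
    (measurableSet_le measurable_const measurable_norm).inter
      (measurableSet_lt measurable_norm measurable_const)
  obtain ⟨i1, i2⟩ := hs.bd e e0 e1
  have key : ∫ z, indicator {z : ℂ | 1 - e ^ a⁻¹ / (L + 1) ≤ ‖z‖ ∧ ‖z‖ < r} (fun _ => c) z ∂ω ≤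
      ∫ z, ta e ‖F z‖ ∂ω := by
    refine integral_mono_ae ((integrable_const c).indicator hm) i1 ?_
    filter_upwards [hs.supp] with z hz
    by_cases k : z ∈ {z : ℂ | 1 - e ^ a⁻¹ / (L + 1) ≤ ‖z‖ ∧ ‖z‖ < r}
    · rw [indicator_of_mem k]
      obtain ⟨k1, k2⟩ := k
      rcases hz with ⟨-, h2⟩ | h2
      · have z1 : ‖z‖ < 1 := k2.trans hr
        have g1 : γ z ≤ e ^ a⁻¹ := by
          refine (hw.le z1.le).trans ?_
          have h3 : (L : ℝ) * (1 - ‖z‖) ≤ (L + 1) * (e ^ a⁻¹ / (L + 1)) :=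
            mul_le_mul (by linarith) (by linarith) (by linarith) (by linarith)
          rwa [mul_div_cancel₀ _ (by positivity)] at h3
        have g2 : γ z ^ a ≤ e := by
          have h4 := Real.rpow_le_rpow (hw.nonneg z z1) g1 ha.le
          rwa [Real.rpow_inv_rpow e0.le ha.ne'] at h4
        refine le_trans ?_ (ta_anti e0 (norm_nonneg _) (h2.trans g2))
        rw [← e2]
        exact le_max_right _ _
      · exact absurd h2 k2.ne
    · rw [indicator_of_notMem k]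
      exact ta_nonneg _ _
  rw [integral_indicator_const c hm, smul_eq_mul] at key
  have h5 : β * c = |K| + 1 := by rw [hc, mul_div_cancel₀ _ hβ.ne']
  refine le_of_mul_le_mul_right ?_ c0
  linarith [le_abs_self K]

/-- a continuous cut-off vanishing for `|z| ≤ t` and equal to one on the circle -/
noncomputable def xi_Ld (t : ℝ) (z : ℂ) : ℝ := min 1 (max 0 ((‖z‖ - t) / (1 - t)))

lemma xi_cont_Ld (t : ℝ) : Continuous (xi_Ld t) := by
  unfold xi_Ld
  fun_prop

lemma xi_nonneg_Ld (t : ℝ) (z : ℂ) : 0 ≤ xi_Ld t z := le_min zero_le_one (le_max_left _ _)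

lemma xi_le_Ld (t : ℝ) (z : ℂ) : xi_Ld t z ≤ 1 := min_le_left _ _

lemma xi_zero_Ld {t : ℝ} (ht : t < 1) {z : ℂ} (hz : ‖z‖ ≤ t) : xi_Ld t z = 0 := by
  have : (‖z‖ - t) / (1 - t) ≤ 0 := div_nonpos_of_nonpos_of_nonneg (by linarith) (by linarith)
  simp [xi_Ld, max_eq_left this]

lemma xi_one_Ld {t : ℝ} (ht : t < 1) {z : ℂ} (hz : ‖z‖ = 1) : xi_Ld t z = 1 := by
  have : (1 - t) / (1 - t) = 1 := div_self (by linarith)
  simp [xi_Ld, hz, this]

lemma stage_Ld (h1 : SRep) {γ : ℂ → ℝ} {a K β ρ t r ε : ℝ} {F h : ℂ → ℂ} {z₀ : ℂ}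
    {ω : Measure ℂ} (p q : ℂ[X]) (hz₀ : ‖z₀‖ < 1) (hi : Integrable h sig) (hβ : 0 < β)
    (hρ : ∀ z, ρ < ‖z‖ → ‖z‖ < 1 → ‖F z - Po h z‖ ≤ β) (ht : t < 1) (hr : r < 1) (hρr : ρ < r)
    (hs : Stage γ a F z₀ K r ω) (hm : ω.real {z | t ≤ ‖z‖ ∧ ‖z‖ < r} ≤ β) (hε : 0 < ε)
    (hε1 : ε ≤ 1) :
    ∫ z, xi_Ld t z * ta ε ‖tg p q z‖ ∂ω ≤ -Real.log ε * β + K +
      (β + (1 - ‖z₀‖)⁻¹ * ∫ ζ, ‖h ζ - tg p q ζ‖ ∂sig) / ε := by
  have := hs.prob
  have hlog : 0 ≤ -Real.log ε := neg_nonneg.2 (Real.log_nonpos hε.le hε1)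
  have hH : Integrable (fun ζ => ‖h ζ - tg p q ζ‖) sig := (hi.sub (tg_int p q)).norm
  obtain ⟨m1, m2⟩ := hs.mean _ hH
  obtain ⟨b1, b2⟩ := hs.bd ε hε hε1
  have hA : MeasurableSet {z : ℂ | t ≤ ‖z‖ ∧ ‖z‖ < r} :=
    (measurableSet_le measurable_const measurable_norm).inter
      (measurableSet_lt measurable_norm measurable_const)
  have hc : Continuous fun z => xi_Ld t z * ta ε ‖tg p q z‖ :=
    (xi_cont_Ld t).mul (ta_cont hε (tg_cont p q).norm fun _ => norm_nonneg _)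
  have hle : ∀ᵐ z ∂ω, ‖z‖ ≤ r := hs.supp.mono fun z hz => hz.elim (fun g => g.1.le) fun g => g.le
  have i1 : Integrable (fun z => ({z : ℂ | t ≤ ‖z‖ ∧ ‖z‖ < r}.indicator
      (fun _ => -Real.log ε) z)) ω := (integrable_const _).indicator hA
  have i3 : Integrable (fun z => (β + Pr (fun ζ => ‖h ζ - tg p q ζ‖) z) / ε) ω :=
    ((integrable_const _).add m1).div_const _
  have i2 : Integrable (fun z => {z : ℂ | t ≤ ‖z‖ ∧ ‖z‖ < r}.indicator
      (fun _ => -Real.log ε) z + ta ε ‖F z‖) ω := i1.add b1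
  have key : ∫ z, xi_Ld t z * ta ε ‖tg p q z‖ ∂ω ≤
      ∫ z, (({z : ℂ | t ≤ ‖z‖ ∧ ‖z‖ < r}.indicator (fun _ => -Real.log ε) z + ta ε ‖F z‖) +
        (β + Pr (fun ζ => ‖h ζ - tg p q ζ‖) z) / ε) ∂ω := by
    refine integral_mono_ae (int_cont hle hc.continuousOn) (i2.add i3) ?_
    filter_upwards [hs.supp, hle] with z hz hzr
    have hz1 : ‖z‖ < 1 := hzr.trans_lt hr
    have p0 : 0 ≤ Pr (fun ζ => ‖h ζ - tg p q ζ‖) z := Pr_nonneg (fun _ => norm_nonneg _) hz1
    have p1 : 0 ≤ (β + Pr (fun ζ => ‖h ζ - tg p q ζ‖) z) / ε := by positivity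
    have p2 : 0 ≤ {z : ℂ | t ≤ ‖z‖ ∧ ‖z‖ < r}.indicator (fun _ => -Real.log ε) z :=
      indicator_nonneg (fun _ _ => hlog) z
    have p3 := ta_nonneg ε ‖F z‖
    have p4 : xi_Ld t z * ta ε ‖tg p q z‖ ≤ ta ε ‖tg p q z‖ :=
      mul_le_of_le_one_left (ta_nonneg _ _) (xi_le_Ld t z)
    rcases hz with hz | hz
    · by_cases hzt : t ≤ ‖z‖
      · have e : {z : ℂ | t ≤ ‖z‖ ∧ ‖z‖ < r}.indicator (fun _ => -Real.log ε) z = -Real.log ε :=
          indicator_of_mem (s := {z : ℂ | t ≤ ‖z‖ ∧ ‖z‖ < r}) ⟨hzt, hz.1⟩ _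
        have := ta_le hε hε1 (norm_nonneg (tg p q z))
        linarith
      · rw [xi_zero_Ld ht (not_le.1 hzt).le, zero_mul]
        linarith
    · have q1 := ta_lip hε (norm_nonneg (tg p q z)) (norm_nonneg (F z))
      have q2 := hρ z (by rw [hz]; exact hρr) hz1
      have q3 := Po_norm (fun ζ => h ζ - tg p q ζ) hz1
      rw [Po_sub hi (tg_int p q) hz1, h1 p q z hz1] at q3
      have q4 : |‖tg p q z‖ - ‖F z‖| ≤ β + Pr (fun ζ => ‖h ζ - tg p q ζ‖) z := by
        refine (abs_norm_sub_norm_le _ _).trans ?_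
        have e : tg p q z - F z = -((F z - Po h z) + (Po h z - tg p q z)) := by ring
        rw [e, norm_neg]
        exact (norm_add_le _ _).trans (add_le_add q2 q3)
      have q5 := div_le_div_of_nonneg_right q4 hε.le
      linarith
  refine key.trans ?_
  rw [integral_add i2 i3, integral_add i1 b1, integral_indicator_const _ hA,
    integral_div, integral_add (integrable_const _) m1, m2, integral_const, smul_eq_mul,
    smul_eq_mul, probReal_univ, one_mul]
  have r1 := Pr_le hH (fun _ => norm_nonneg _) hz₀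
  have r2 := mul_le_mul_of_nonneg_right hm hlog
  have r3 := div_le_div_of_nonneg_right (add_le_add_right r1 β) hε.le
  linarith

theorem sLd (h1 : SRep) (h2 : SLc) : SLd := by
  intro γ L a K F h z₀ r ωs ω hγ ha hz₀ hi hF hr hr1 hs hl ε p q hε hε1
  obtain ⟨hp, hcl, l, hne, hla, hlim⟩ := hl
  have hlog : 0 ≤ -Real.log ε := neg_nonneg.2 (Real.log_nonpos hε.le hε1)
  have main : ∀ β : ℝ, 0 < β → ∫ z in sphere (0 : ℂ) 1, ta ε ‖tg p q z‖ ∂ω ≤
      -Real.log ε * β + K + (β + (1 - ‖z₀‖)⁻¹ * ∫ ζ, ‖h ζ - tg p q ζ‖ ∂sig) / ε := by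
    intro β hβ
    obtain ⟨t, ht, hm⟩ := h2 γ L a K β hγ ha hβ
    obtain ⟨ρ, hρ1, hρ⟩ := hF β hβ
    have hc : Continuous fun z => xi_Ld t z * ta ε ‖tg p q z‖ :=
      (xi_cont_Ld t).mul (ta_cont hε (tg_cont p q).norm fun _ => norm_nonneg _)
    have e : ∫ z in sphere (0 : ℂ) 1, ta ε ‖tg p q z‖ ∂ω =
        ∫ z in sphere (0 : ℂ) 1, xi_Ld t z * ta ε ‖tg p q z‖ ∂ω :=
      setIntegral_congr_fun isClosed_sphere.measurableSet fun z hz => by
        simp only [xi_one_Ld ht (mem_sphere_zero_iff_norm.1 hz), one_mul]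
    rw [e]
    refine (setIntegral_le_integral (int_cont hcl.ae hc.continuousOn)
      (Eventually.of_forall fun z => mul_nonneg (xi_nonneg_Ld t z) (ta_nonneg _ _))).trans ?_
    refine le_of_tendsto (hlim _ hc) ?_
    filter_upwards [(hr1.eventually (lt_mem_nhds hρ1)).filter_mono hla] with k hk
    exact stage_Ld h1 p q hz₀ hi hβ hρ ht (hr k) hk (hs k) (hm F z₀ _ _ (hr k) (hs k)) hε hε1
  refine le_of_forall_pos_le_add fun δ hδ => ?_
  have hc : 0 < -Real.log ε + 1 / ε := by positivity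
  refine (main (δ / (-Real.log ε + 1 / ε)) (by positivity)).trans (le_of_eq ?_)
  have e : δ = (-Real.log ε + 1 / ε) * (δ / (-Real.log ε + 1 / ε)) :=
    (mul_div_cancel₀ δ hc.ne').symm
  generalize δ / (-Real.log ε + 1 / ε) = β at e
  rw [e]
  ring

lemma meas_Le (ε : ℝ) {v : ℂ → ℂ} (hv : Measurable v) : Measurable fun z => ta ε ‖v z‖ :=
  measurable_const.max (hv.norm.add_const ε).log.neg

lemma int_Le {ε : ℝ} (hε : 0 < ε) (h1 : ε ≤ 1) {v : ℂ → ℂ} (hv : Measurable v) (ν : Measure ℂ)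
    [IsFiniteMeasure ν] : Integrable (fun z => ta ε ‖v z‖) ν :=
  (integrable_const (-Real.log ε)).mono' (meas_Le ε hv).aestronglyMeasurable
    (Eventually.of_forall fun z => by
      rw [Real.norm_of_nonneg (ta_nonneg _ _)]
      exact ta_le hε h1 (norm_nonneg _))

lemma lim_Le {x : ℝ} (hx : 0 ≤ x) :
    Tendsto (fun j : ℕ => ENNReal.ofReal (ta (1 / ((j : ℝ) + 1)) x)) atTop (𝓝 (lp x)) := by
  have t := tendsto_one_div_add_atTop_nhds_zero_nat (𝕜 := ℝ)
  unfold lp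
  split_ifs with h
  · subst h
    refine ENNReal.tendsto_ofReal_atTop.comp (tendsto_atTop_mono (fun j => le_max_right _ _) ?_)
    simp only [zero_add, one_div, Real.log_inv, neg_neg]
    exact Real.tendsto_log_atTop.comp (tendsto_atTop_add_const_right _ 1 tendsto_natCast_atTop_atTop)
  · have a : Tendsto (fun j : ℕ => -Real.log (x + 1 / ((j : ℝ) + 1))) atTop (𝓝 (-Real.log x)) := by
      have := (t.const_add x).log (by simpa using h)
      rw [add_zero] at this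
      exact this.neg
    refine (ENNReal.tendsto_ofReal a).congr fun j => ?_
    simp [ta, ENNReal.ofReal_max]

theorem sLe (h1 : STrig) : SLe := by
  intro h ν K C hm hi hν hC hd hK
  have A : ∀ v : ℂ → ℂ, Measurable v → Integrable v sig →
      Integrable v ν ∧ ∫ z, ‖v z‖ ∂ν ≤ C * ∫ ζ, ‖v ζ‖ ∂sig := by
    intro v hv iv
    have a := hd _ hv.enorm
    rw [← ofReal_integral_norm_eq_lintegral_enorm iv, ← ENNReal.ofReal_mul hC] at a
    have i : Integrable v ν := ⟨hv.aestronglyMeasurable, a.trans_lt ENNReal.ofReal_lt_top⟩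
    rw [← ofReal_integral_norm_eq_lintegral_enorm i] at a
    exact ⟨i, (ENNReal.ofReal_le_ofReal_iff
      (mul_nonneg hC (integral_nonneg fun _ => norm_nonneg _))).1 a⟩
  have B : ∀ ε : ℝ, 0 < ε → ε ≤ 1 → ∫ z, ta ε ‖h z‖ ∂ν ≤ K := by
    intro ε e0 e1
    refine le_of_forall_pos_le_add fun δ hδ => ?_
    obtain ⟨p, q, k⟩ := h1.2 h hi (δ * ε / (2 * C + 1)) (by positivity)
    have mt := (tg_cont p q).measurable
    obtain ⟨i, b⟩ := A (fun z => h z - tg p q z) (hm.sub mt) (hi.sub (tg_int p q))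
    have c : ∫ z, ta ε ‖h z‖ ∂ν ≤ ∫ z, (ta ε ‖tg p q z‖ + ‖h z - tg p q z‖ / ε) ∂ν :=
      integral_mono (int_Le e0 e1 hm ν) ((int_Le e0 e1 mt ν).add (i.norm.div_const ε)) fun z =>
        (ta_lip e0 (norm_nonneg _) (norm_nonneg (tg p q z))).trans (by
          have := abs_norm_sub_norm_le (h z) (tg p q z)
          gcongr)
    rw [integral_add (int_Le e0 e1 mt ν) (i.norm.div_const ε), integral_div] at c
    have d := hK ε p q e0 e1
    have f := div_le_div_of_nonneg_right b e0.le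
    have g : C * (∫ ζ, ‖h ζ - tg p q ζ‖ ∂sig) / ε ≤ δ / 2 := by
      rw [le_div_iff₀ (by positivity)] at k
      have n : 0 ≤ ∫ ζ, ‖h ζ - tg p q ζ‖ ∂sig := integral_nonneg fun _ => norm_nonneg _
      rw [div_le_iff₀ e0]
      linarith
    linarith
  have e0 : ∀ j : ℕ, (0 : ℝ) < 1 / ((j : ℝ) + 1) := fun j => by positivity
  have e1 : ∀ j : ℕ, 1 / ((j : ℝ) + 1) ≤ 1 := fun j =>
    (div_le_one (by positivity)).2 (by linarith [Nat.cast_nonneg (α := ℝ) j])
  have F := lintegral_liminf_le (μ := ν) (u := atTop)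
    (f := fun (j : ℕ) z => ENNReal.ofReal (ta (1 / ((j : ℝ) + 1)) ‖h z‖))
    fun j => (meas_Le _ hm).ennreal_ofReal
  simp only [fun z => (lim_Le (norm_nonneg (h z))).liminf_eq] at F
  refine F.trans (liminf_le_of_frequently_le' (Frequently.of_forall fun j => ?_))
  rw [← ofReal_integral_eq_lintegral_ofReal (int_Le (e0 j) (e1 j) hm ν)
    (Eventually.of_forall fun z => ta_nonneg _ _)]
  exact ENNReal.ofReal_le_ofReal (B _ (e0 j) (e1 j))

lemma pt_Lw {c W n : ℝ} (hc : 0 < c) (hW : 0 ≤ W) (hn : 0 ≤ n) : lp W ≤ 2 * lp (c * (n * W)) +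
    ENNReal.ofReal (c ^ 2) * (ENNReal.ofReal W * ENNReal.ofReal n ^ (2 : ℕ)) := by
  by_cases hx : c * (n * W) = 0
  · simp [lp, hx]
  have hW0 : W ≠ 0 := fun h => hx (by rw [h, mul_zero, mul_zero])
  have hn0 : n ≠ 0 := fun h => hx (by rw [h, zero_mul, mul_zero])
  have hy : 0 < c ^ 2 * (W * n ^ 2) := by positivity
  have e : (c * (n * W)) ^ 2 = c ^ 2 * (W * n ^ 2) * W := by ring
  have h1 := congrArg Real.log e
  rw [Real.log_pow, Real.log_mul hy.ne' hW0] at h1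
  have h2 := Real.log_le_sub_one_of_pos hy
  rw [lp, lp, if_neg hW0, if_neg hx, ← ENNReal.ofReal_pow hn, ← ENNReal.ofReal_mul hW,
    ← ENNReal.ofReal_mul (sq_nonneg c), ← ENNReal.ofReal_ofNat 2,
    ← ENNReal.ofReal_mul (by norm_num)]
  refine le_trans (ENNReal.ofReal_le_ofReal ?_) ENNReal.ofReal_add_le
  push_cast at h1
  linarith

theorem sLw : SLw := by
  intro W g ν C hW hg hn _ hd hx
  have hae : ∀ᵐ z ∂ν, ‖z‖ = 1 := by
    have hm : MeasurableSet {z : ℂ | ¬ ‖z‖ = 1} :=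
      (isClosed_eq continuous_norm continuous_const).measurableSet.compl
    have h := hd (indicator {z : ℂ | ¬ ‖z‖ = 1} 1) (measurable_one.indicator hm)
    rw [lintegral_indicator_one hm, lintegral_indicator_one hm, ae_iff.1 sig_ae, mul_zero] at h
    exact ae_iff.2 (le_antisymm h zero_le)
  have hf : Measurable fun ζ => ENNReal.ofReal (W ζ) * ‖g ζ‖ₑ ^ (2 : ℕ) :=
    hW.meas.ennreal_ofReal.mul (hg.enorm.pow_const 2)
  have key : ∫⁻ z, lp (W z) ∂ν ≤ ∫⁻ z, (2 * lp ‖hh (fun ζ => g ζ * (W ζ : ℂ)) z‖ +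
      ENNReal.ofReal ((2 * Real.pi) ^ 2) * (ENNReal.ofReal (W z) * ‖g z‖ₑ ^ (2 : ℕ))) ∂ν := by
    refine lintegral_mono_ae (hae.mono fun z hz => ?_)
    rw [hh_norm _ hz, norm_mul, Complex.norm_real, Real.norm_of_nonneg (hW.nonneg z),
      ← ofReal_norm]
    exact pt_Lw (by positivity) (hW.nonneg z) (norm_nonneg _)
  rw [lintegral_add_right _ (hf.const_mul _), lintegral_const_mul' _ _ ENNReal.ofNat_ne_top,
    lintegral_const_mul _ hf] at key
  refine key.trans_lt (ENNReal.add_lt_top.2 ⟨ENNReal.mul_lt_top ENNReal.ofNat_lt_top hx,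
    ENNReal.mul_lt_top ENNReal.ofReal_lt_top ((hd _ hf).trans_lt ?_)⟩)
  exact ENNReal.mul_lt_top ENNReal.ofReal_lt_top hn

lemma small_Main {γ : ℂ → ℝ} {L : NNReal} (hγ : Wt γ L) {a δ : ℝ} (ha : 0 < a) (hδ : 0 < δ) :
    ∃ ρ : ℝ, ρ < 1 ∧ ∀ z, ρ < ‖z‖ → ‖z‖ < 1 → γ z ^ a < δ := by
  have h0 : 0 < δ ^ a⁻¹ := Real.rpow_pos_of_pos hδ _
  have hL : (0 : ℝ) ≤ L := L.2
  refine ⟨1 - δ ^ a⁻¹ / (L + 1), by
    have : 0 < δ ^ a⁻¹ / (L + 1) := by positivity
    linarith, fun z h1 h2 => ?_⟩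
  have h3 : γ z < δ ^ a⁻¹ := by
    have h4 := hγ.le h2.le
    have h5 : 1 - ‖z‖ < δ ^ a⁻¹ / (L + 1) := by linarith
    rw [lt_div_iff₀ (by positivity)] at h5
    nlinarith
  calc γ z ^ a < (δ ^ a⁻¹) ^ a := Real.rpow_lt_rpow (hγ.nonneg z h2) h3 ha
    _ = δ := Real.rpow_inv_rpow hδ.le ha.ne'

theorem ba_Main (hDom : SDom) (hDual : SDual) (hTc : STc) (hCC : SCC) (hJump : SJump)
    (hSt1 : SSt1) (hSt2 : SSt2) (hPick : SPick) (hWk : SWk) (hLa : SLa) (hLb : SLb) (hLd : SLd)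
    (hLe : SLe) (hLw : SLw) {γ : ℂ → ℝ} {L : NNReal} {s : ℝ} {W : ℂ → ℝ} {S : Set ℂ}
    {g₀ : ℂ → ℂ} (hγ : Wt γ L) (hs : 2 < s) (hW : Bw W) (hS : MeasurableSet S)
    (hg₀ : Measurable g₀) (hz : ∀ z, z ∉ S → g₀ z = 0) (hn : nW W g₀ < ⊤) (hA : ¬ App γ s W g₀) :
    ∃ z₀ ω, Adm γ W z₀ ω ∧ ω (S ∩ sphere 0 1) ≠ 0 := by
  obtain ⟨φ, g, M, hM, φm, φ0, φb, gm, gn, hi, horth, hne⟩ :=
    hDual γ L s W S g₀ hγ hs hW hg₀ hz hn hA
  set a := s / 2 - 1 with ha
  have ha0 : 0 < a := by linarith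
  set h : ℂ → ℂ := fun ζ => g ζ * (W ζ : ℂ) with hh'
  have hL : (0 : ℝ) ≤ L := L.2
  have hBS : BS φ (M * L ^ a) := by
    refine ⟨φm, fun w => ?_, φ0⟩
    rcases lt_or_ge ‖w‖ 1 with hw | hw
    · refine (φb w hw).trans (mul_le_mul_of_nonneg_left ?_ hM)
      refine Real.rpow_le_rpow (hγ.nonneg w hw) ?_ ha0.le
      nlinarith [hγ.le hw.le, norm_nonneg w]
    · rw [φ0 w hw, norm_zero]
      positivity
  obtain ⟨J1, J2⟩ := hJump φ h _ hBS hi horth
  have hm : Measurable (hh h) := by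
    have := hW.meas
    unfold hh
    fun_prop
  have hi1 := hh_int hi
  have hne1 : sig {ζ | ζ ∈ S ∧ hh h ζ ≠ 0} ≠ 0 := fun h0 => hne (by
    refine measure_mono_null_ae ?_ h0
    filter_upwards [sig_ae] with ζ hζ hx
    refine ⟨hx.1, fun h1 => hx.2 ?_⟩
    have := hh_norm h hζ
    rw [h1, norm_zero] at this
    exact norm_eq_zero.1 ((mul_eq_zero.1 this.symm).resolve_left (by positivity)))
  obtain ⟨δ, hδ, hP⟩ := hPick (FF φ h) (hh h) S hm hi1 hS hne1 J2
  set K := 2 * K0 * M + 2 * K0 * (M * L ^ a) + 1 / δ - Real.log δ with hK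
  obtain ⟨ρ₀, hρ₀, hB⟩ := hLb γ L a K hγ ha0
  obtain ⟨ρ₁, hρ₁, hsm⟩ := small_Main hγ ha0 hδ
  obtain ⟨z₀, z1, z2, z3, z4, z5⟩ := hP (max ρ₀ ρ₁) (max_lt hρ₀ hρ₁)
  set r : ℕ → ℝ := fun k => 1 - (1 - ‖z₀‖) / 2 * (1 / ((k : ℝ) + 1)) with hr
  have r1 : ∀ k, r k < 1 := fun k => by
    have : 0 < (1 - ‖z₀‖) / 2 * (1 / ((k : ℝ) + 1)) := mul_pos (by linarith) (by positivity)
    simp only [hr]
    linarith
  have r0 : ∀ k, ‖z₀‖ < r k := fun k => by
    have h1 : 1 / ((k : ℝ) + 1) ≤ 1 := by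
      rw [div_le_one (by positivity)]
      linarith [Nat.cast_nonneg (α := ℝ) k]
    simp only [hr]
    nlinarith
  have rt : Tendsto r atTop (𝓝 1) := by
    have := (tendsto_one_div_add_atTop_nhds_zero_nat.const_mul ((1 - ‖z₀‖) / 2)).const_sub 1
    rwa [mul_zero, sub_zero] at this
  have hFc : ContinuousOn (FF φ h) (ball 0 1) :=
    (hTc φ _ hBS).continuousOn.add (hCC h hi).continuousOn
  have hst : ∀ k, ∃ ω, Stage γ a (FF φ h) z₀ K (r k) ω := fun k => by
    obtain ⟨ω, p1, p2, p3, p4⟩ := hSt1 γ L a M _ (r k) φ h z₀ hγ ha0 hM hBS φb hi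
      ((hsm z₀ ((le_max_right _ _).trans_lt z1) z2).trans_le z3) (r0 k) (r1 k)
    exact ⟨ω, hSt2 γ a (r k) δ _ _ (FF φ h) (hh h) z₀ ω p1 z2 (r1 k) hi1 hFc p2 p3 p4 J1 hδ z3 z4⟩
  choose ωs hωs using hst
  obtain ⟨ω, hlim⟩ := hWk ωs (fun k => (hωs k).prob) fun k => by
    filter_upwards [(hωs k).supp] with z hz
    rcases hz with hz | hz
    · linarith [hz.1, r1 k]
    · linarith [r1 k]
  obtain ⟨hJ, hD⟩ := hLa γ L a K _ z₀ r ωs ω hγ ha0 r1 rt hωs hlim
  have := hlim.1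
  have hT := hB z₀ ω ((le_max_left _ _).trans_lt z1) z2 hlim.1 hlim.2.1 hJ hD
  obtain ⟨D1, D2⟩ := hDom z₀ ω hlim.1 hlim.2.1 hJ z2
  have hC : 0 ≤ (1 - ‖z₀‖)⁻¹ := inv_nonneg.2 (by linarith)
  have hE := hLe (hh h) (ω.restrict (sphere 0 1)) K _ hm hi1 inferInstance hC D1
    (hLd γ L a K _ (hh h) z₀ r ωs ω hγ ha0 z2 hi1 J2 r1 rt hωs hlim)
  refine ⟨z₀, ω, ⟨z2, hlim.1, hlim.2.1, hJ, ?_, hLw W g _ _ hW gm gn inferInstance D1
    (hE.trans_lt ENNReal.ofReal_lt_top)⟩, fun h0 => ?_⟩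
  · have e : EqOn (fun z => lp (γ z)) (fun z => ENNReal.ofReal a⁻¹ * lp (γ z ^ a)) (ball 0 1) := by
      intro z hz
      rcases (hγ.nonneg z (mem_ball_zero_iff.1 hz)).eq_or_lt with h0 | h0
      · simp [← h0, Real.zero_rpow ha0.ne', lp, ENNReal.mul_top, ha0]
      · simp only [lp, if_neg h0.ne', if_neg (Real.rpow_pos_of_pos h0 a).ne', Real.log_rpow h0]
        rw [← ENNReal.ofReal_mul (by positivity)]
        congr 1
        field_simp
    rw [setLIntegral_congr_fun measurableSet_ball e,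
      lintegral_const_mul' _ _ ENNReal.ofReal_ne_top]
    exact ENNReal.mul_lt_top ENNReal.ofReal_lt_top (hD.trans_lt ENNReal.ofReal_lt_top)
  · have h1 := (D2 Sᶜ hS.compl).trans z5
    have h2 : ω.real (sphere 0 1) ≤ ω.real (S ∩ sphere 0 1) + ω.real (Sᶜ ∩ sphere 0 1) := by
      refine le_trans (measureReal_mono ?_) (measureReal_union_le _ _)
      intro z hz
      by_cases hzS : z ∈ S
      · exact Or.inl ⟨hzS, hz⟩
      · exact Or.inr ⟨hzS, hz⟩
    rw [Measure.real, Measure.real, h0, ENNReal.toReal_zero] at h2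
    rw [Measure.real] at hT
    linarith

theorem ab_Main (hAB : SAB) {γ : ℂ → ℝ} {L : NNReal} {s : ℝ} {W : ℂ → ℝ} {S : Set ℂ}
    (hγ : Wt γ L) (hs : 0 < s) (hW : Bw W) (hS : MeasurableSet S)
    (h : ∀ g : ℂ → ℂ, Measurable g → (∀ z, z ∉ S → g z = 0) → nW W g < ⊤ → App γ s W g)
    {z₀ : ℂ} {ω : Measure ℂ} (hA : Adm γ W z₀ ω) : ω (S ∩ sphere 0 1) = 0 := by
  refine hAB γ L s W S z₀ ω hγ hs hW hS (h _ (Measurable.indicator (by fun_prop) hS)
    (fun z hz => indicator_of_notMem hz _) ?_) hA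
  have h1 : 0 < 1 - ‖z₀‖ := by linarith [hA.lt]
  refine lt_of_le_of_lt ?_ (ENNReal.mul_lt_top
    (ENNReal.pow_lt_top (n := 2) (ENNReal.ofReal_lt_top (r := (1 - ‖z₀‖)⁻¹))) hW.fin)
  rw [nW, ← lintegral_const_mul' _ _ (ENNReal.pow_ne_top ENNReal.ofReal_ne_top)]
  refine lintegral_mono_ae (sig_ae.mono fun ζ hζ => ?_)
  rw [mul_comm]
  refine mul_le_mul_left (pow_le_pow_left' ?_ 2) _
  rw [← ofReal_norm]
  refine ENNReal.ofReal_le_ofReal ((norm_indicator_le_norm_self _ _).trans ?_)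
  rw [norm_inv]
  exact inv_anti₀ h1 (by linarith [norm_sub_norm_le ζ z₀])

end Pool.Agent.MP_17fac5_an.Js
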