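import Pool.Agent.MP_17fac5_an.Js.PA
import Pool.Agent.MP_17fac5_an.Js.PB
import Pool.Agent.MP_17fac5_an.Js.PC

set_option autoImplicit false

namespace Pool.Agent.MP_17fac5_an.Js

open MeasureTheory Filter Topology Metric Set Polynomial
open scoped ComplexConjugate ENNReal

/-- approximation for a general weight on the disc -/
def AppG (G : ℂ → ℝ) (W : ℂ → ℝ) (g : ℂ → ℂ) : Prop := ∀ ε : ℝ, 0 < ε → ∃ p : ℂ[X],
  ∫⁻ z in ball (0 : ℂ) 1, ENNReal.ofReal (G z) * ‖p.eval z‖ₑ ^ (2 : ℕ) < ENNReal.ofReal ε ∧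
    nW W (fun ζ => p.eval ζ - g ζ) < ENNReal.ofReal ε

lemma AppG.mono {G G' W : ℂ → ℝ} {g : ℂ → ℂ} {c : ℝ} (hc : 0 < c)
    (h : ∀ z, ‖z‖ < 1 → G' z ≤ c * G z) (hA : AppG G W g) : AppG G' W g := by
  intro ε hε
  obtain ⟨p, h1, h2⟩ := hA (min ε (ε / c)) (lt_min hε (by positivity))
  refine ⟨p, ?_, h2.trans_le (ENNReal.ofReal_le_ofReal (min_le_left _ _))⟩
  calc ∫⁻ z in ball (0 : ℂ) 1, ENNReal.ofReal (G' z) * ‖p.eval z‖ₑ ^ (2 : ℕ)
      ≤ ∫⁻ z in ball (0 : ℂ) 1,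
          ENNReal.ofReal c * (ENNReal.ofReal (G z) * ‖p.eval z‖ₑ ^ (2 : ℕ)) := by
        refine setLIntegral_mono' measurableSet_ball fun z hz => ?_
        rw [← mul_assoc, ← ENNReal.ofReal_mul hc.le]
        exact mul_le_mul_left (ENNReal.ofReal_le_ofReal (h z (mem_ball_zero_iff.1 hz))) _
    _ < ENNReal.ofReal c * ENNReal.ofReal (ε / c) := by
        rw [lintegral_const_mul' _ _ ENNReal.ofReal_ne_top]
        exact ENNReal.mul_lt_mul_right (ENNReal.ofReal_pos.2 hc).ne' ENNReal.ofReal_ne_top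
          (h1.trans_le (ENNReal.ofReal_le_ofReal (min_le_right _ _)))
    _ = ENNReal.ofReal ε := by rw [← ENNReal.ofReal_mul hc.le, mul_div_cancel₀ _ hc.ne']

theorem crit {γ G W : ℂ → ℝ} {L : NNReal} {s t c C : ℝ} {S : Set ℂ} (hγ : Wt γ L) (hs : 2 < s)
    (ht : 0 < t) (hc : 0 < c) (hG : ∀ z, ‖z‖ < 1 → c * γ z ^ t ≤ G z ∧ G z ≤ C * γ z ^ s)
    (hW : Bw W) (hS : MeasurableSet S) :
    (∀ g : ℂ → ℂ, Measurable g → (∀ z, z ∉ S → g z = 0) → nW W g < ⊤ → AppG G W g) ↔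
      ∀ z₀ ω, Adm γ W z₀ ω → ω (S ∩ sphere 0 1) = 0 := by
  have hDom := sDom (sDomC sRep sTrig sJh) sCmp
  have hPt := sPt sMean
  have hTc := sTc sTb
  have hTm := sTm sTb
  constructor
  · intro h z₀ ω hA
    refine ab_Main (sAB hDom (sDisc hPt) sCirc) hγ ht hW hS (fun g h1 h2 h3 => ?_) hA
    refine AppG.mono (G' := fun z => γ z ^ t) (inv_pos.2 hc) (fun z hz => ?_) (h g h1 h2 h3)
    rw [← div_eq_inv_mul, le_div_iff₀' hc]
    exact (hG z hz).1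
  · intro h g hg hz hn
    by_contra hA
    obtain ⟨z₀, ω, h1, h2⟩ := ba_Main hDom (sDual hPt sProj sMu) hTc sCC (sJump sTb hTc (sOut sTb))
      (sSt1 hTc sCC (sHol sTb hTc sTh hTm (sTe sTb hTm) (sTx sTb sCC) sCC) (sBish sHB sRz))
      (sSt2 (sMv (sPh sCC))) (sPick (sL1 sRep sTrig (sCtr sRep))) sWk sLa sLb (sLd sRep sLc)
      (sLe sTrig) sLw hγ hs hW hS hg hz hn fun hB => hA (AppG.mono (G := fun z => γ z ^ s)
        (c := |C| + 1) (by positivity) (fun z hz => (hG z hz).2.trans (mul_le_mul_of_nonneg_right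
          (by linarith [le_abs_self C]) (Real.rpow_nonneg (hγ.nonneg z hz) s))) hB)
    exact h2 (h z₀ ω h1)

lemma nW_eq {W : ℂ → ℝ} {g : ℂ → ℂ} (hW : Measurable W) (hg : Measurable g) : nW W g =
    ∫⁻ θ in Ioc (0 : ℝ) (2 * Real.pi), ENNReal.ofReal (W (Complex.exp ((θ : ℂ) * Complex.I))) *
      ‖g (Complex.exp ((θ : ℂ) * Complex.I))‖ₑ ^ (2 : ℕ) :=
  lint_sig (hW.ennreal_ofReal.mul (hg.enorm.pow_const 2))

end Pool.Agent.MP_17fac5_an.Js
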