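import Pool.Agent.MP_17fac5_an.Js.St

set_option autoImplicit false

namespace Pool.Agent.MP_17fac5_an.Js

open MeasureTheory Filter Topology Metric Set Polynomial
open scoped ComplexConjugate ENNReal

lemma int_Rep (p : ℂ[X]) : Integrable (fun ζ => p.eval ζ) sig :=
  int_cont (r := 1) (sig_ae.mono fun _ h => h.le) p.continuous.continuousOn

lemma poly_Rep (p : ℂ[X]) {z : ℂ} (hz : ‖z‖ < 1) : Po (fun ζ => p.eval ζ) z = p.eval z := by
  have h1 : DiffContOnCl ℂ (fun ζ => p.eval ζ) (ball (0 : ℂ) 1) :=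
    p.differentiable.diffContOnCl
  have h2 := h1.circleAverage_poissonKernel_smul' (w := z) (by simpa using hz)
  rw [← h2, Po, int_sig (PK_intC (int_Rep p) hz).aestronglyMeasurable, Real.circleAverage_def,
    ← intervalIntegral.integral_smul, intervalIntegral.integral_of_le (by positivity)]
  refine integral_congr_ae (Eventually.of_forall fun θ => ?_)
  simp only [circleMap, PK, zero_add, Complex.ofReal_one, one_mul, sub_zero,
    Complex.norm_exp_ofReal_mul_I, Complex.real_smul]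
  push_cast
  ring

theorem sRep : SRep := by
  intro p q z hz
  have h1 := poly_Rep p hz
  have h2 := congrArg conj (poly_Rep q hz)
  have i1 := PK_intC (int_Rep p) hz
  have i2 : Integrable (fun ζ => (PK z ζ : ℂ) * conj (q.eval ζ)) sig :=
    PK_intC (int_cont (r := 1) (sig_ae.mono fun _ h => h.le)
      (Complex.continuous_conj.comp q.continuous).continuousOn) hz
  rw [Po, ← integral_conj] at h2
  simp only [map_mul, Complex.conj_ofReal] at h2
  simp only [Po, tg, mul_add] at h1 ⊢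
  rw [integral_add i1 i2, h1, h2]

theorem sCC : SCC := by
  intro h hi z0 hz0
  have h0 : ‖z0‖ < 1 := by simpa using hz0
  set δ : ℝ := (1 - ‖z0‖) / 2 with hδ
  have hd : 0 < δ := by rw [hδ]; linarith
  have far : ∀ ζ : ℂ, ‖ζ‖ = 1 → ∀ z ∈ ball z0 δ, δ ≤ ‖ζ - z‖ := by
    intro ζ hζ z hz
    have a := mem_ball_iff_norm.1 hz
    have b := norm_sub_norm_le ζ z
    have c := norm_sub_norm_le z z0
    linarith
  have m1 : ∀ (z : ℂ) (n : ℕ), AEStronglyMeasurable (fun ζ => h ζ / (ζ - z) ^ n) sig := fun z n =>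
    (hi.aestronglyMeasurable.aemeasurable.div (by fun_prop)).aestronglyMeasurable
  have bd : ∀ (n : ℕ) (ζ : ℂ), ‖ζ‖ = 1 → ∀ z ∈ ball z0 δ,
      ‖h ζ / (ζ - z) ^ n‖ ≤ ‖h ζ‖ / δ ^ n := by
    intro n ζ hζ z hz
    rw [norm_div, norm_pow]
    have := far ζ hζ z hz
    gcongr
  have key := hasDerivAt_integral_of_dominated_loc_of_deriv_le (μ := sig)
    (F := fun z ζ => h ζ / (ζ - z)) (F' := fun z ζ => h ζ / (ζ - z) ^ 2) (x₀ := z0)
    (bound := fun ζ => ‖h ζ‖ / δ ^ 2) (ball_mem_nhds z0 hd)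
    (Eventually.of_forall fun z => by simpa using m1 z 1)
    (by
      refine Integrable.mono' (hi.norm.div_const (δ ^ 1)) (by simpa using m1 z0 1) ?_
      filter_upwards [sig_ae] with ζ hζ
      simpa using bd 1 ζ hζ z0 (mem_ball_self hd))
    (m1 z0 2)
    (by filter_upwards [sig_ae] with ζ hζ using bd 2 ζ hζ)
    (hi.norm.div_const _)
    (by
      filter_upwards [sig_ae] with ζ hζ z hz
      have hne : ζ - z ≠ 0 := norm_pos_iff.1 (hd.trans_le (far ζ hζ z hz))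
      have := (hasDerivAt_const z (h ζ)).div ((hasDerivAt_id z).const_sub ζ) hne
      exact this.congr_deriv (by simp))
  exact key.2.differentiableAt.differentiableWithinAt

lemma re_Ph {z ζ : ℂ} (hz : ‖z‖ < 1) (hζ : ‖ζ‖ = 1) (x : ℝ) :
    (ζ * ((x / Real.pi : ℝ) : ℂ) / (ζ - z)).re = PK z ζ * x + x / (2 * Real.pi) := by
  have h0 : Complex.normSq (ζ - z) ≠ 0 := fun h => by
    rw [sub_eq_zero.1 (Complex.normSq_eq_zero.1 h)] at hζ
    exact hz.ne hζ
  have h1 : ζ.re * ζ.re + ζ.im * ζ.im = 1 := by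
    rw [← Complex.normSq_apply, Complex.normSq_eq_norm_sq, hζ, one_pow]
  have hπ := Real.pi_pos.ne'
  rw [mul_comm ζ, mul_div_assoc, Complex.re_ofReal_mul, Complex.div_re, PK, Complex.sq_norm,
    Complex.sq_norm]
  field_simp
  simp only [Complex.normSq_apply, Complex.sub_re, Complex.sub_im]
  linear_combination x * h1

theorem sPh (h1 : SCC) : SPh := by
  intro h hi
  have h2 : Integrable (fun ζ : ℂ => ζ * ((h ζ / Real.pi : ℝ) : ℂ)) sig :=
    (hi.div_const Real.pi).ofReal.bdd_mul (c := 1) (f := fun ζ : ℂ => ζ)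
      continuous_id.aestronglyMeasurable (sig_ae.mono fun _ e => e.le)
  refine ⟨fun z => CC (fun ζ => ζ * ((h ζ / Real.pi : ℝ) : ℂ)) z -
    ((∫ ζ, h ζ / (2 * Real.pi) ∂sig : ℝ) : ℂ), (h1 _ h2).sub_const _, fun z hz => ?_⟩
  have h3 : Integrable (fun ζ : ℂ => ζ * ((h ζ / Real.pi : ℝ) : ℂ) / (ζ - z)) sig := by
    simp only [div_eq_inv_mul _ (_ - z)]
    refine h2.bdd_mul (c := (1 - ‖z‖)⁻¹) (f := fun ζ : ℂ => (ζ - z)⁻¹)
      (measurable_id.sub_const z).inv.aestronglyMeasurable (sig_ae.mono fun ζ e => ?_)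
    rw [norm_inv]
    exact inv_anti₀ (by linarith) (by linarith [norm_sub_norm_le ζ z])
  have h4 := Complex.reCLM.integral_comp_comm h3
  simp only [Complex.reCLM_apply] at h4
  rw [Complex.sub_re, Complex.ofReal_re, CC, ← h4,
    integral_congr_ae (sig_ae.mono fun ζ e => re_Ph hz e (h ζ)),
    integral_add (PK_int hi hz) (hi.div_const _), Pr, add_sub_cancel_right]

lemma span_Trig (g : C(AddCircle (1 : ℝ), ℂ))
    (hg : g ∈ Submodule.span ℂ (range (@fourier 1))) :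
    ∃ p q : ℂ[X], ∀ x, g x = tg p q (AddCircle.toCircle x) := by
  induction hg using Submodule.span_induction with
  | mem f hf =>
    obtain ⟨n, rfl⟩ := hf
    have e : ∀ (k : ℕ) (x : AddCircle (1 : ℝ)), fourier k x = (AddCircle.toCircle x : ℂ) ^ k :=
      fun k x => by rw [fourier_apply, natCast_zsmul, AddCircle.toCircle_nsmul, Circle.coe_pow]
    obtain ⟨k, rfl | rfl⟩ := n.eq_nat_or_neg
    · exact ⟨X ^ k, 0, fun x => by rw [e]; simp [tg]⟩
    · exact ⟨0, X ^ k, fun x => by rw [fourier_neg, e]; simp [tg]⟩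
  | zero => exact ⟨0, 0, fun x => by simp [tg]⟩
  | add f g _ _ hf hg =>
    obtain ⟨p, q, h⟩ := hf
    obtain ⟨p', q', h'⟩ := hg
    refine ⟨p + p', q + q', fun x => ?_⟩
    simp only [ContinuousMap.add_apply, h, h', tg, eval_add, map_add]
    ring
  | smul a f _ hf =>
    obtain ⟨p, q, h⟩ := hf
    refine ⟨C a * p, C (conj a) * q, fun x => ?_⟩
    simp only [ContinuousMap.smul_apply, h, tg, eval_mul, eval_C, map_mul, Complex.conj_conj,
      smul_eq_mul]
    ring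

lemma unif_Trig (φ : ℂ → ℂ) (hφ : Continuous φ) (η : ℝ) (hη : 0 < η) :
    ∃ p q : ℂ[X], ∀ ζ, ‖ζ‖ = 1 → ‖φ ζ - tg p q ζ‖ ≤ η := by
  let f : C(AddCircle (1 : ℝ), ℂ) := ⟨fun x => φ (AddCircle.toCircle x),
    hφ.comp (continuous_subtype_val.comp AddCircle.continuous_toCircle)⟩
  have hf : f ∈ (Submodule.span ℂ (range (@fourier 1))).topologicalClosure := by
    rw [span_fourier_closure_eq_top]; trivial
  obtain ⟨g, hg, hd⟩ := Metric.mem_closure_iff.1 hf η hη
  obtain ⟨p, q, h⟩ := span_Trig g hg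
  refine ⟨p, q, fun ζ hζ => ?_⟩
  obtain ⟨x, hx⟩ := (AddCircle.homeomorphCircle (T := 1) one_ne_zero).surjective
    ⟨ζ, mem_sphere_zero_iff_norm.2 hζ⟩
  rw [AddCircle.homeomorphCircle_apply] at hx
  have e : (AddCircle.toCircle x : ℂ) = ζ := by rw [hx]
  have h1 := (ContinuousMap.dist_apply_le_dist (f := f) (g := g) x).trans hd.le
  rw [dist_eq_norm, h x, e] at h1
  rw [← e] at h1 ⊢
  exact h1

theorem sTrig : STrig := by
  refine ⟨unif_Trig, fun h hi η hη => ?_⟩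
  obtain ⟨g, hg, gi⟩ := hi.exists_boundedContinuous_integral_sub_le (half_pos hη)
  have s0 : 0 ≤ sig.real univ := measureReal_nonneg
  obtain ⟨p, q, H⟩ := unif_Trig g g.continuous (η / 2 / (sig.real univ + 1)) (by positivity)
  refine ⟨p, q, ?_⟩
  have i1 : Integrable (fun ζ => ‖h ζ - g ζ‖) sig := (hi.sub gi).norm
  have h1 : ∫ ζ, ‖h ζ - tg p q ζ‖ ∂sig ≤
      ∫ ζ, (‖h ζ - g ζ‖ + η / 2 / (sig.real univ + 1)) ∂sig := by
    refine integral_mono_ae (hi.sub (tg_int p q)).norm (i1.add (integrable_const _)) ?_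
    filter_upwards [sig_ae] with ζ hζ
    linarith [norm_sub_le_norm_sub_add_norm_sub (h ζ) (g ζ) (tg p q ζ), H ζ hζ]
  rw [integral_add i1 (integrable_const _), integral_const, smul_eq_mul] at h1
  have h2 : sig.real univ * (η / 2 / (sig.real univ + 1)) ≤ η / 2 := by
    rw [← mul_div_assoc, div_le_iff₀ (by positivity)]
    nlinarith
  linarith

lemma sym_Ctr (ρ : ℝ) {ζ ξ : ℂ} (h1 : ‖ζ‖ = 1) (h2 : ‖ξ‖ = 1) :
    PK (ρ * ζ) ξ = PK (ρ * ξ) ζ := by
  have a1 : ζ.re ^ 2 + ζ.im ^ 2 = 1 := by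
    have := Complex.sq_norm ζ
    rw [h1, Complex.normSq_apply] at this
    linarith
  have a2 : ξ.re ^ 2 + ξ.im ^ 2 = 1 := by
    have := Complex.sq_norm ξ
    rw [h2, Complex.normSq_apply] at this
    linarith
  have e : ‖ξ - ρ * ζ‖ ^ 2 = ‖ζ - ρ * ξ‖ ^ 2 := by
    rw [Complex.sq_norm, Complex.sq_norm, Complex.normSq_apply, Complex.normSq_apply]
    simp only [Complex.sub_re, Complex.sub_im, Complex.re_ofReal_mul, Complex.im_ofReal_mul]
    linear_combination (1 - ρ ^ 2) * (a2 - a1)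
  rw [PK, PK, e, norm_mul, norm_mul, h1, h2]

lemma one_Ctr (h1 : SRep) {z : ℂ} (hz : ‖z‖ < 1) : ∫ ζ, PK z ζ ∂sig = 1 := by
  have h := h1 1 0 z hz
  have e : tg 1 0 = fun _ => ((1 : ℝ) : ℂ) := by
    funext w
    simp [tg]
  rw [e, Po_real (fun _ => 1)] at h
  have h2 : Pr (fun _ => 1) z = 1 := Complex.ofReal_injective h
  simpa [Pr] using h2

theorem sCtr (h1 : SRep) : SCtr := by
  intro h ρ hi h0 hρ
  have nz : ∀ ζ : ℂ, ‖ζ‖ = 1 → ‖(ρ : ℂ) * ζ‖ = ρ := fun ζ hζ => by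
    rw [norm_mul, hζ, mul_one, Complex.norm_real, Real.norm_of_nonneg h0]
  have lt : ∀ ζ : ℂ, ‖ζ‖ = 1 → ‖(ρ : ℂ) * ζ‖ < 1 := fun ζ hζ => by rw [nz ζ hζ]; exact hρ
  have mk : Measurable fun q : ℂ × ℂ => PK (ρ * q.1) q.2 := by unfold PK; fun_prop
  have bk : ∀ᵐ q : ℂ × ℂ ∂sig.prod sig, ‖PK (ρ * q.1) q.2‖ ≤ (1 - ρ)⁻¹ := by
    filter_upwards [Measure.quasiMeasurePreserving_fst.ae sig_ae,
      Measure.quasiMeasurePreserving_snd.ae sig_ae] with q q1 q2
    rw [Real.norm_of_nonneg (PK_nonneg (lt _ q1) _)]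
    have := PK_le (lt _ q1) q2
    rwa [nz _ q1] at this
  have I1 : Integrable (fun q : ℂ × ℂ => (PK (ρ * q.1) q.2 : ℂ) * h q.2) (sig.prod sig) :=
    (hi.comp_snd sig).bdd_mul (c := (1 - ρ)⁻¹)
      (Complex.measurable_ofReal.comp mk).aestronglyMeasurable
      (bk.mono fun q hq => by rwa [Complex.norm_real])
  have I2 : Integrable (fun q : ℂ × ℂ => PK (ρ * q.1) q.2 * ‖h q.2‖) (sig.prod sig) :=
    (hi.norm.comp_snd sig).bdd_mul (c := (1 - ρ)⁻¹) mk.aestronglyMeasurable bk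
  have J1 : Integrable (fun ζ => Po h (ρ * ζ)) sig := I1.integral_prod_left
  have J2 : Integrable (fun ζ => Pr (fun ξ => ‖h ξ‖) (ρ * ζ)) sig := I2.integral_prod_left
  refine ⟨J1, (integral_mono_ae J1.norm J2
    (sig_ae.mono fun ζ hζ => Po_norm h (lt ζ hζ))).trans (le_of_eq ?_)⟩
  refine (integral_integral_swap (f := fun ζ ξ : ℂ => PK (ρ * ζ) ξ * ‖h ξ‖) I2).trans
    (integral_congr_ae (sig_ae.mono fun ξ hξ => ?_))
  have e : ∫ ζ, PK (ρ * ζ) ξ ∂sig = 1 :=
    (integral_congr_ae (sig_ae.mono fun ζ hζ => sym_Ctr ρ hζ hξ)).trans (one_Ctr h1 (lt ξ hξ))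
  show ∫ ζ, PK (ρ * ζ) ξ * ‖h ξ‖ ∂sig = ‖h ξ‖
  rw [integral_mul_const, e, one_mul]

theorem sL1 (h1 : SRep) (h2 : STrig) (h3 : SCtr) : SL1 := by
  intro h hi η κ hη hκ
  obtain ⟨b, hb⟩ : ∃ b : ℝ, b = η * κ / 4 := ⟨_, rfl⟩
  have hb0 : 0 < b := by rw [hb]; positivity
  have hm : 0 ≤ sig.real univ := measureReal_nonneg
  obtain ⟨p, q, hpq⟩ := h2.2 h hi b hb0
  obtain ⟨δ, hδ, hu⟩ := Metric.uniformContinuousOn_iff.1
    ((isCompact_closedBall (0 : ℂ) 1).uniformContinuousOn_of_continuous (tg_cont p q).continuousOn)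
    (b / (sig.real univ + 1)) (by positivity)
  refine ⟨max 0 (1 - δ), max_lt one_pos (by linarith), fun ρ hρ hρ1 => ?_⟩
  have hρ0 : 0 ≤ ρ := (le_max_left _ _).trans hρ.le
  have hρδ : 1 - δ < ρ := (le_max_right _ _).trans_lt hρ
  have hd : Integrable (fun ζ => h ζ - tg p q ζ) sig := hi.sub (tg_int p q)
  obtain ⟨i1, i2⟩ := h3 _ ρ hd hρ0 hρ1
  have hf : Integrable (fun ζ => ‖Po h (ρ * ζ) - h ζ‖) sig := ((h3 h ρ hi hρ0 hρ1).1.sub hi).norm
  have hg : Integrable (fun ζ => ‖Po (fun ζ => h ζ - tg p q ζ) (ρ * ζ)‖ +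
      b / (sig.real univ + 1)) sig := i1.norm.add (integrable_const _)
  have h4 : ∫ ζ, ‖Po h (ρ * ζ) - h ζ‖ ∂sig ≤ ∫ ζ, (‖Po (fun ζ => h ζ - tg p q ζ) (ρ * ζ)‖ +
      b / (sig.real univ + 1)) + ‖h ζ - tg p q ζ‖ ∂sig := by
    refine integral_mono_ae hf (hg.add hd.norm) ?_
    filter_upwards [sig_ae] with ζ hζ
    have hn : ‖(ρ : ℂ) * ζ‖ < 1 := by
      rwa [norm_mul, hζ, mul_one, Complex.norm_real, Real.norm_of_nonneg hρ0]
    have hdist : dist ((ρ : ℂ) * ζ) ζ < δ := by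
      have e : (ρ : ℂ) * ζ - ζ = -(((1 - ρ : ℝ) : ℂ) * ζ) := by push_cast; ring
      rw [dist_eq_norm, e, norm_neg, norm_mul, hζ, mul_one, Complex.norm_real,
        Real.norm_of_nonneg (by linarith)]
      linarith
    have h5 := hu _ (mem_closedBall_zero_iff.2 hn.le) _ (mem_closedBall_zero_iff.2 hζ.le) hdist
    rw [dist_eq_norm] at h5
    have e : Po h (ρ * ζ) - h ζ = Po (fun ζ => h ζ - tg p q ζ) (ρ * ζ) +
        (tg p q (ρ * ζ) - tg p q ζ) - (h ζ - tg p q ζ) := by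
      rw [Po_sub hi (tg_int p q) hn, h1 p q _ hn]
      ring
    rw [e]
    exact (norm_sub_le _ _).trans (add_le_add ((norm_add_le _ _).trans
      (add_le_add le_rfl h5.le)) le_rfl)
  rw [integral_add hg hd.norm, integral_add i1.norm (integrable_const _), integral_const,
    smul_eq_mul] at h4
  have h6 : sig.real univ * (b / (sig.real univ + 1)) ≤ b := by
    rw [← mul_div_assoc, div_le_iff₀ (by positivity)]
    nlinarith
  have h7 := mul_meas_ge_le_integral_of_nonneg (Eventually.of_forall fun ζ => norm_nonneg _) hf η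
  have h8 : sig.real {ζ | η ≤ ‖Po h (ρ * ζ) - h ζ‖} ≤ κ :=
    le_of_mul_le_mul_left (by linarith) hη
  calc sig {ζ | η < ‖Po h (ρ * ζ) - h ζ‖} ≤ sig {ζ | η ≤ ‖Po h (ρ * ζ) - h ζ‖} :=
        measure_mono fun ζ (hζ : η < _) => hζ.le
    _ = ENNReal.ofReal (sig.real {ζ | η ≤ ‖Po h (ρ * ζ) - h ζ‖}) :=
        (ofReal_measureReal (measure_ne_top _ _)).symm
    _ ≤ ENNReal.ofReal κ := ENNReal.ofReal_le_ofReal h8

lemma up_Jh (w : ℂ) {e : ℝ} (he : 0 < e) :
    Real.log (‖1 + w‖ + e) ≤ w.re + ‖w‖ ^ 2 / 2 + e := by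
  have h1 : Real.log (‖1 + w‖ + e) ≤ ‖1 + w‖ + e - 1 :=
    Real.log_le_sub_one_of_pos (by positivity)
  have h2 : ‖1 + w‖ ^ 2 = 1 + 2 * w.re + ‖w‖ ^ 2 := by
    rw [Complex.sq_norm, Complex.sq_norm, Complex.normSq_apply, Complex.normSq_apply]
    simp
    ring
  nlinarith [sq_nonneg (‖1 + w‖ - 1)]

lemma lo_Jh (w : ℂ) (hw : |w.re| ≤ 1 / 2) {e : ℝ} (he : 0 < e) :
    w.re - 2 * w.re ^ 2 ≤ Real.log (‖1 + w‖ + e) := by
  obtain ⟨a1, a2⟩ := abs_le.1 hw
  have h0 : 0 < 1 + w.re := by linarith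
  have h1 : 1 + w.re ≤ ‖1 + w‖ + e := by
    have := Complex.re_le_norm (1 + w)
    simp only [Complex.add_re, Complex.one_re] at this
    linarith
  have h2 : 1 - (1 + w.re)⁻¹ ≤ Real.log (1 + w.re) := Real.one_sub_inv_le_log_of_pos h0
  have h3 : (1 + w.re)⁻¹ ≤ 1 - w.re + 2 * w.re ^ 2 := by
    rw [inv_le_iff_one_le_mul₀ h0]
    nlinarith [mul_nonneg (sq_nonneg w.re) (show 0 ≤ 1 + 2 * w.re by linarith)]
  linarith [Real.log_le_log h0 h1]

lemma half_Jh {z₀ : ℂ} {ω : Measure ℂ} [IsProbabilityMeasure ω] (hc : Cl ω) (hj : Jen z₀ ω)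
    (p : ℂ[X]) : (p.eval z₀).re ≤ ∫ z, (p.eval z).re ∂ω := by
  have hp : Continuous fun z : ℂ => p.eval z := p.continuous
  have i1 : Integrable (fun z => (p.eval z).re) ω :=
    int_cont hc.ae (Complex.continuous_re.comp hp).continuousOn
  have i2 : Integrable (fun z => ‖p.eval z‖ ^ 2) ω :=
    int_cont hc.ae (hp.norm.pow 2).continuousOn
  set a := (p.eval z₀).re with ha
  set I := ∫ z, (p.eval z).re ∂ω with hI
  set J := ∫ z, ‖p.eval z‖ ^ 2 ∂ω with hJ
  have key : ∀ t : ℝ, 0 < t → t * |a| ≤ 1 / 2 → a ≤ I + t * (2 * a ^ 2 + J / 2 + 1) := by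
    intro t ht hta
    have he : 0 < t ^ 2 := by positivity
    have h1 := hj (1 + C (t : ℂ) * p) (t ^ 2) he
    simp only [eval_add, eval_one, eval_mul, eval_C] at h1
    have h2 := lo_Jh ((t : ℂ) * p.eval z₀) (by
      rw [Complex.re_ofReal_mul, abs_mul, abs_of_pos ht]; exact hta) he
    rw [Complex.re_ofReal_mul, ← ha] at h2
    have i3 : Integrable (fun z => Real.log (‖1 + (t : ℂ) * p.eval z‖ + t ^ 2)) ω := by
      refine int_cont hc.ae (Continuous.continuousOn ?_)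
      refine Continuous.log (by fun_prop) fun z => ?_
      positivity
    have i4 : Integrable (fun z => t * (p.eval z).re + t ^ 2 / 2 * ‖p.eval z‖ ^ 2) ω :=
      (i1.const_mul t).add (i2.const_mul _)
    have h3 : ∫ z, Real.log (‖1 + (t : ℂ) * p.eval z‖ + t ^ 2) ∂ω ≤
        ∫ z, (t * (p.eval z).re + t ^ 2 / 2 * ‖p.eval z‖ ^ 2 + t ^ 2) ∂ω := by
      refine integral_mono i3 (i4.add (integrable_const _)) fun z => ?_
      have := up_Jh ((t : ℂ) * p.eval z) he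
      rw [Complex.re_ofReal_mul, norm_mul, Complex.norm_real, Real.norm_of_nonneg ht.le] at this
      refine this.trans (le_of_eq ?_)
      ring
    rw [integral_add i4 (integrable_const _), integral_add (i1.const_mul t) (i2.const_mul _),
      integral_const_mul, integral_const_mul, integral_const, ← hI, ← hJ] at h3
    simp only [probReal_univ, one_smul] at h3
    refine le_of_mul_le_mul_left ?_ ht
    nlinarith
  have hl : Tendsto (fun t : ℝ => I + t * (2 * a ^ 2 + J / 2 + 1)) (𝓝[>] 0) (𝓝 I) := by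
    have : Continuous fun t : ℝ => I + t * (2 * a ^ 2 + J / 2 + 1) := by fun_prop
    simpa using (this.tendsto 0).mono_left nhdsWithin_le_nhds
  refine ge_of_tendsto hl ?_
  have h0 : 0 < 1 / (2 * |a| + 1) := by positivity
  filter_upwards [Ioo_mem_nhdsGT h0] with t ht
  refine key t ht.1 ?_
  have h4 := (lt_div_iff₀ (by positivity)).1 ht.2
  nlinarith [ht.1]

theorem sJh : SJh := by
  intro z₀ ω hω hc hj _ p
  have h1 := half_Jh hc hj p
  have h2 := half_Jh hc hj (-p)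
  simp only [eval_neg, Complex.neg_re, integral_neg] at h2
  linarith

lemma rep_DomC (h1 : SRep) (p q : ℂ[X]) {z : ℂ} (hz : ‖z‖ < 1) :
    ((p + q).eval z).re = Pr (fun ζ => ((p + q).eval ζ).re) z := by
  have e : ∀ w, ((p + q).eval w).re = (tg p q w).re := fun w => by simp [tg]
  have h2 := integral_re (PK_intC (tg_int p q) hz)
  simp only [RCLike.re_to_complex, Complex.re_ofReal_mul] at h2
  simp only [e, Pr]
  rw [h2, ← h1 p q z hz]
  rfl

theorem sDomC (h1 : SRep) (h2 : STrig) (h3 : SJh) : SDomC := by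
  intro z₀ ω hp hc hj hz φ hφ h0
  have ci : ∀ {f : ℂ → ℝ}, Continuous f → Integrable f sig := fun hf =>
    int_cont (r := 1) (sig_ae.mono fun _ h => h.le) hf.continuousOn
  refine le_of_forall_pos_le_add fun ε hε => ?_
  obtain ⟨p, q, hpq⟩ := h2.1 (fun z => (φ z : ℂ)) (Complex.continuous_ofReal.comp hφ) (ε / 2)
    (half_pos hε)
  let u : ℂ → ℝ := fun z => ((p + C ((ε / 2 : ℝ) : ℂ) + q).eval z).re
  have uc : Continuous u := Complex.continuous_re.comp (Polynomial.continuous _)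
  have hu : ∀ ζ, ‖ζ‖ = 1 → φ ζ ≤ u ζ ∧ u ζ ≤ φ ζ + ε := fun ζ hζ => by
    have h4 := abs_le.1 ((Complex.abs_re_le_norm _).trans (hpq ζ hζ))
    have h5 : u ζ = (tg p q ζ).re + ε / 2 := by
      simp only [u, tg, eval_add, eval_C, Complex.add_re, Complex.ofReal_re, Complex.conj_re]
      ring
    rw [Complex.sub_re, Complex.ofReal_re] at h4
    constructor <;> linarith [h4.1, h4.2]
  have rp : ∀ z, ‖z‖ < 1 → u z = Pr u z := fun z hz => rep_DomC h1 _ q hz
  have u0 : ∀ z, ‖z‖ ≤ 1 → 0 ≤ u z := fun z hz => by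
    rcases hz.eq_or_lt with h4 | h4
    · exact (h0 z).trans (hu z h4).1
    rw [rp z h4]
    refine integral_nonneg_of_ae ?_
    filter_upwards [sig_ae] with ζ hζ using mul_nonneg (PK_nonneg h4 ζ) ((h0 ζ).trans (hu ζ hζ).1)
  have iu : Integrable u ω := int_cont hc.ae uc.continuousOn
  have iφ : Integrable φ ω := int_cont hc.ae hφ.continuousOn
  have e1 : Pr (fun _ => ε) z₀ = ε := by
    simpa using (rep_DomC h1 (C (ε : ℂ)) 0 hz).symm
  calc ∫ z in sphere (0 : ℂ) 1, φ z ∂ω ≤ ∫ z in sphere (0 : ℂ) 1, u z ∂ω :=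
        setIntegral_mono_on iφ.integrableOn iu.integrableOn isClosed_sphere.measurableSet
          fun z hz => (hu z (by simpa using hz)).1
    _ ≤ ∫ z, u z ∂ω := setIntegral_le_integral iu (hc.ae.mono u0)
    _ = Pr u z₀ := (h3 z₀ ω hp hc hj hz _).trans (rp z₀ hz)
    _ ≤ Pr φ z₀ + Pr (fun _ => ε) z₀ := by
        rw [Pr, Pr, Pr, ← integral_add (PK_int (ci hφ) hz) (PK_int (ci continuous_const) hz)]
        refine integral_mono_ae (PK_int (ci uc) hz)
          ((PK_int (ci hφ) hz).add (PK_int (ci continuous_const) hz)) ?_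
        filter_upwards [sig_ae] with ζ hζ
        rw [← mul_add]
        exact mul_le_mul_of_nonneg_left (hu ζ hζ).2 (PK_nonneg hz ζ)
    _ = Pr φ z₀ + ε := by rw [e1]

theorem sCmp : SCmp := by
  intro μ ν _ _ h
  have key : ∀ F : Set ℂ, IsClosed F → μ F ≤ ν F := fun F hF => by
    have hp : ∀ n : ℕ, (0 : ℝ) < 1 / (n + 1) := fun _ => by positivity
    have h1 := le_of_tendsto_of_tendsto'
      (tendsto_integral_thickenedIndicator_of_isClosed μ hF hp
        tendsto_one_div_add_atTop_nhds_zero_nat)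
      (tendsto_integral_thickenedIndicator_of_isClosed ν hF hp
        tendsto_one_div_add_atTop_nhds_zero_nat) fun n =>
      h _ (NNReal.continuous_coe.comp (thickenedIndicator (hp n) F).continuous)
        (fun z => NNReal.coe_nonneg _) fun z =>
          NNReal.coe_le_coe.2 (thickenedIndicator_le_one (hp n) F z)
    exact (ENNReal.toReal_le_toReal (measure_ne_top _ _) (measure_ne_top _ _)).1 h1
  refine Measure.le_iff.2 fun A hA => ?_
  rw [hA.measure_eq_iSup_isClosed_of_ne_top (measure_ne_top μ A)]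
  exact iSup_le fun K => iSup_le fun hK => iSup_le fun hc => (key K hc).trans (measure_mono hK)

lemma int_Dom {z : ℂ} (hz : ‖z‖ < 1) (φ : ℂ → ℝ) :
    ∫ ζ, φ ζ ∂(sig.withDensity fun ζ => ENNReal.ofReal (PK z ζ)) = Pr φ z := by
  rw [integral_withDensity_eq_integral_toReal_smul (PK_meas z).ennreal_ofReal
    (Eventually.of_forall fun _ => ENNReal.ofReal_lt_top)]
  simp only [ENNReal.toReal_ofReal (PK_nonneg hz _), smul_eq_mul, Pr]

theorem sDom (h1 : SDomC) (h2 : SCmp) : SDom := by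
  intro z₀ ω hω hc hj hz
  have hi : Integrable (PK z₀) sig := by
    simpa only [mul_one] using PK_int (h := fun _ => 1) (integrable_const 1) hz
  have hfin : IsFiniteMeasure (sig.withDensity fun ζ => ENNReal.ofReal (PK z₀ ζ)) :=
    isFiniteMeasure_withDensity_ofReal hi.2
  have hle : ω.restrict (sphere 0 1) ≤ sig.withDensity fun ζ => ENNReal.ofReal (PK z₀ ζ) :=
    h2 _ _ inferInstance hfin fun φ hφ h0 _ => by
      rw [int_Dom hz]
      exact h1 z₀ ω hω hc hj hz φ hφ h0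
  refine ⟨fun f hf => (lintegral_mono' hle le_rfl).trans ?_, fun A hA => ?_⟩
  · rw [lintegral_withDensity_eq_lintegral_mul _ (PK_meas z₀).ennreal_ofReal hf,
      ← lintegral_const_mul _ hf]
    refine lintegral_mono_ae ?_
    filter_upwards [sig_ae] with ζ hζ
    exact mul_le_mul_left (ENNReal.ofReal_le_ofReal (PK_le hz hζ)) _
  · rw [← int_Dom hz, integral_indicator_one hA, ← measureReal_restrict_apply hA]
    exact ENNReal.toReal_mono (measure_ne_top _ _) (hle A)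

theorem ang_Mean (p : ℂ[X]) (z : ℂ) (t : ℝ) : ENNReal.ofReal (2 * Real.pi * ‖p.eval z‖ ^ 2) ≤
    ∫⁻ θ in Ioo (-Real.pi) Real.pi, ‖p.eval (circleMap z t θ)‖ₑ ^ (2 : ℕ) := by
  have hp := Real.pi_pos
  have h : Real.circleAverage (fun w => p.eval w ^ 2) z t = p.eval z ^ 2 :=
    (p.differentiable.fun_pow 2).diffContOnCl.circleAverage
  rw [Real.circleAverage_eq_integral_add (-Real.pi),
    intervalIntegral.integral_comp_add_right (fun θ => p.eval (circleMap z t θ) ^ 2), zero_add,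
    show 2 * Real.pi + -Real.pi = Real.pi by ring, intervalIntegral.integral_of_le (by linarith),
    integral_Ioc_eq_integral_Ioo, inv_smul_eq_iff₀ (by positivity)] at h
  have h2 := enorm_integral_le_lintegral_enorm (μ := volume.restrict (Ioo (-Real.pi) Real.pi))
    fun θ => p.eval (circleMap z t θ) ^ 2
  rw [h, ← ofReal_norm, norm_smul, norm_pow, Real.norm_of_nonneg (by positivity)] at h2
  simpa only [enorm_pow] using h2

theorem sMean : SMean := by
  intro p z ρ hρ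
  have hp := Real.pi_pos
  have hc : Continuous fun q : ℝ × ℝ => p.eval (circleMap z q.1 q.2) :=
    p.continuous.comp (by unfold circleMap; fun_prop)
  have e1 : ∫⁻ t in Ioo 0 ρ, ENNReal.ofReal t = ENNReal.ofReal (ρ ^ 2 / 2) := by
    rw [← ofReal_integral_eq_lintegral_ofReal (μ := volume.restrict (Ioo 0 ρ))
      ((continuous_id'.integrableOn_Icc).mono_set Ioo_subset_Icc_self)
      ((ae_restrict_mem measurableSet_Ioo).mono fun t ht => ht.1.le),
      ← integral_Ioc_eq_integral_Ioo, ← intervalIntegral.integral_of_le hρ.le, integral_id]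
    simp
  calc ENNReal.ofReal (Real.pi * ρ ^ 2 * ‖p.eval z‖ ^ 2)
      = ∫⁻ t in Ioo 0 ρ, ENNReal.ofReal t * ENNReal.ofReal (2 * Real.pi * ‖p.eval z‖ ^ 2) := by
        rw [lintegral_mul_const' _ _ ENNReal.ofReal_ne_top, e1,
          ← ENNReal.ofReal_mul (by positivity)]
        congr 1
        ring
    _ ≤ ∫⁻ t in Ioo 0 ρ, ∫⁻ θ in Ioo (-Real.pi) Real.pi,
          ENNReal.ofReal t * ‖p.eval (circleMap z t θ)‖ₑ ^ (2 : ℕ) := by
        refine lintegral_mono fun t => ?_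
        rw [lintegral_const_mul' _ _ ENNReal.ofReal_ne_top]
        exact mul_le_mul_right (ang_Mean p z t) _
    _ = ∫⁻ q in Ioo 0 ρ ×ˢ Ioo (-Real.pi) Real.pi,
          ENNReal.ofReal q.1 * ‖p.eval (circleMap z q.1 q.2)‖ₑ ^ (2 : ℕ) :=
        (setLIntegral_prod (fun q : ℝ × ℝ =>
          ENNReal.ofReal q.1 * ‖p.eval (circleMap z q.1 q.2)‖ₑ ^ (2 : ℕ))
          (measurable_fst.ennreal_ofReal.mul (hc.measurable.enorm.pow_const 2)).aemeasurable).symm
    _ = ∫⁻ q in Ioo 0 ρ ×ˢ Ioo (-Real.pi) Real.pi, ENNReal.ofReal q.1 •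
          (ball z ρ).indicator (fun w => ‖p.eval w‖ₑ ^ (2 : ℕ)) (z + Complex.polarCoord.symm q) := by
        refine setLIntegral_congr_fun (measurableSet_Ioo.prod measurableSet_Ioo) fun q hq => ?_
        have hm : z + Complex.polarCoord.symm q ∈ ball z ρ := by
          rw [mem_ball, dist_self_add_left, Complex.norm_polarCoord_symm, abs_of_pos hq.1.1]
          exact hq.1.2
        rw [indicator_of_mem hm, smul_eq_mul, Complex.polarCoord_symm_apply, circleMap,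
          Complex.exp_mul_I, Complex.ofReal_cos, Complex.ofReal_sin]
    _ ≤ ∫⁻ q in polarCoord.target, ENNReal.ofReal q.1 •
          (ball z ρ).indicator (fun w => ‖p.eval w‖ₑ ^ (2 : ℕ)) (z + Complex.polarCoord.symm q) :=
        lintegral_mono_set fun q hq => ⟨hq.1.1, hq.2⟩
    _ = _ := by
        rw [Complex.lintegral_comp_polarCoord_symm fun w =>
          (ball z ρ).indicator (fun w => ‖p.eval w‖ₑ ^ (2 : ℕ)) (z + w),
          lintegral_add_left_eq_self, lintegral_indicator measurableSet_ball]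

theorem sPt (h1 : SMean) : SPt := by
  intro γ L s hW hs
  have hL : (0 : ℝ) ≤ L := L.2
  refine ⟨2 ^ s * 4 * (L + 1) ^ 2 / Real.pi, by positivity, fun p B hB hn z hz => ?_⟩
  rcases (hW.nonneg z hz).eq_or_lt with h0 | h0
  · rw [← h0, Real.zero_rpow (by linarith), mul_zero]
    positivity
  have hle := hW.le hz.le
  obtain ⟨ρ, hρ⟩ : ∃ ρ : ℝ, γ z = ρ * (2 * (L + 1)) := ⟨γ z / (2 * (L + 1)), by field_simp⟩
  have hρ0 : 0 < ρ := (mul_pos_iff_of_pos_right (by positivity)).1 (hρ ▸ h0)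
  have h2 : ρ ≤ 1 - ‖z‖ := by
    by_contra h
    nlinarith [mul_le_mul_of_nonneg_left (not_le.1 h).le hL]
  have hsub : ball z ρ ⊆ ball (0 : ℂ) 1 := ball_subset_ball' (by rw [dist_zero_right]; linarith)
  have h3 : ∀ w ∈ ball z ρ, γ z / 2 ≤ γ w := fun w hw => by
    have h4 := hW.lip.dist_le_mul w z
    have h5 := mul_le_mul_of_nonneg_left (mem_ball.1 hw).le hL
    rw [Real.dist_eq] at h4
    have := (abs_le.1 h4).1
    nlinarith
  have h4 : ENNReal.ofReal ((γ z / 2) ^ s) * ENNReal.ofReal (Real.pi * ρ ^ 2 * ‖p.eval z‖ ^ 2) ≤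
      ENNReal.ofReal B := by
    refine le_trans ?_ ((lintegral_mono_set hsub).trans hn)
    refine (mul_le_mul_right (h1 p z ρ hρ0) _).trans ?_
    rw [← lintegral_const_mul' _ _ ENNReal.ofReal_ne_top]
    exact setLIntegral_mono' measurableSet_ball fun w hw => mul_le_mul_left
      (ENNReal.ofReal_le_ofReal (Real.rpow_le_rpow (by positivity) (h3 w hw) hs.le)) _
  rw [← ENNReal.ofReal_mul (by positivity), ENNReal.ofReal_le_ofReal_iff hB,
    Real.div_rpow h0.le (by norm_num), div_mul_eq_mul_div, div_le_iff₀ (by positivity)] at h4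
  rw [Real.rpow_add h0, Real.rpow_two, div_mul_eq_mul_div, le_div_iff₀ Real.pi_pos]
  calc ‖p.eval z‖ ^ 2 * (γ z ^ s * γ z ^ 2) * Real.pi
      = γ z ^ s * (Real.pi * ρ ^ 2 * ‖p.eval z‖ ^ 2) * (4 * (L + 1) ^ 2) := by
        rw [show γ z ^ 2 = (ρ * (2 * (L + 1))) ^ 2 by rw [hρ]]; ring
    _ ≤ B * 2 ^ s * (4 * (L + 1) ^ 2) := mul_le_mul_of_nonneg_right h4 (by positivity)
    _ = _ := by ring

lemma pt_Disc {x y g a D m e : ℝ} (hy : 0 ≤ y) (hxy : y ≤ 1 + 2 * x) (hg : 0 < g) (ha : 0 ≤ a)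
    (hD : 0 ≤ D) (hm : 0 ≤ m) (hgm : -Real.log g ≤ m) (he : 0 < e) (he1 : e ≤ 1)
    (h : x ^ 2 * g ^ a ≤ D) : Real.log (y + e) ≤ Real.log (3 + D) + a * m := by
  have h1 : 1 ≤ g ^ a * Real.exp (a * m) := by
    rw [Real.rpow_def_of_pos hg, ← Real.exp_add]
    exact Real.one_le_exp (by nlinarith)
  have h2 : 1 ≤ Real.exp (a * m) := Real.one_le_exp (mul_nonneg ha hm)
  have h3 : x ^ 2 ≤ D * Real.exp (a * m) := by
    have := mul_le_mul_of_nonneg_left h1 (sq_nonneg x)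
    have := mul_le_mul_of_nonneg_right h (Real.exp_pos (a * m)).le
    nlinarith
  rw [← Real.log_exp (a * m), ← Real.log_mul (by positivity) (by positivity)]
  refine Real.log_le_log (by positivity) ?_
  nlinarith [sq_nonneg (x - 1)]

theorem sDisc (h1 : SPt) : SDisc := by
  intro γ L s B ω hγ hs hB hω hfin
  obtain ⟨C, hC, hpt⟩ := h1 γ L s hγ hs
  have hl : Measurable fun z => lp (γ z) := lp_meas.comp hγ.lip.continuous.measurable
  have hm : Integrable (fun z => (lp (γ z)).toReal) (ω.restrict (ball 0 1)) :=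
    integrable_toReal_of_lintegral_ne_top hl.aemeasurable hfin.ne
  refine ⟨∫ z in ball (0 : ℂ) 1, (Real.log (3 + C * B) +
    (s + 2) * (lp (γ z)).toReal) ∂ω, fun p q e he he1 hp hq => ?_⟩
  have hc : Continuous fun z => Real.log (‖q.eval z‖ + e) :=
    (q.continuous.norm.add continuous_const).log fun z =>
      (add_pos_of_nonneg_of_pos (norm_nonneg _) he).ne'
  refine integral_mono_ae
    ((hc.continuousOn.integrableOn_compact (isCompact_closedBall 0 1)).mono_set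
      ball_subset_closedBall)
    ((integrable_const _).add (hm.const_mul _)) ?_
  filter_upwards [ae_lt_top hl hfin.ne, ae_restrict_mem measurableSet_ball] with z h0 hz
  have hz' : ‖z‖ < 1 := mem_ball_zero_iff.1 hz
  have h1 : γ z ≠ 0 := fun c => by simp [lp, c] at h0
  refine pt_Disc (x := ‖p.eval z‖) (norm_nonneg _) (hq z hz')
    ((hγ.nonneg z hz').lt_of_ne' h1) (by linarith)
    (by positivity) ENNReal.toReal_nonneg ?_ he he1 (hpt p B hB hp z hz')
  rw [lp, if_neg h1, ENNReal.toReal_ofReal']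
  exact le_max_left _ _

lemma pt_Circ {x w e : ℝ} (hx : 0 ≤ x) (hw : 0 < w) (he : 0 < e) :
    Real.log (x + e) ≤ Real.log e + 1 + max (-Real.log w) 0 + w * x ^ 2 / e ^ 2 := by
  set y := x / e with hy
  have y0 : 0 ≤ y := by positivity
  have e1 : x + e = e * (1 + y) := by rw [hy]; field_simp; ring
  have e2 : w * x ^ 2 / e ^ 2 = w * y ^ 2 := by rw [hy]; field_simp
  rw [e1, e2, Real.log_mul he.ne' (by positivity)]
  obtain ⟨m, m1, m2, m3⟩ : ∃ m : ℝ, 1 ≤ m ∧ 1 ≤ m * w ∧ Real.log m ≤ max (-Real.log w) 0 := by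
    rcases le_total 1 w with h | h
    · exact ⟨1, le_rfl, by linarith, by rw [Real.log_one]; exact le_max_right _ _⟩
    · exact ⟨w⁻¹, (one_le_inv₀ hw).2 h, (inv_mul_cancel₀ hw.ne').ge,
        by rw [Real.log_inv]; exact le_max_left _ _⟩
  have t0 : 0 < 1 + w * y ^ 2 := by positivity
  have h1 : (1 + y) ^ 2 ≤ 2 * m * (1 + w * y ^ 2) := by
    have a1 := mul_le_mul_of_nonneg_right m2 (sq_nonneg y)
    nlinarith [sq_nonneg (1 - y)]
  have h2 := Real.log_le_log (by positivity) h1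
  rw [Real.log_pow, Real.log_mul (by positivity) t0.ne', Real.log_mul two_ne_zero (by positivity)]
    at h2
  have h3 := Real.log_le_sub_one_of_pos t0
  have h4 := Real.log_le_sub_one_of_pos (show (0 : ℝ) < 2 by norm_num)
  have h5 : 0 ≤ Real.log (1 + y) := Real.log_nonneg (by linarith)
  push_cast at h2
  linarith

theorem sCirc : SCirc := by
  intro W ν hW h0 hν hl
  have hm : Measurable fun z => lp (W z) := by
    unfold lp
    exact Measurable.ite (hW (measurableSet_singleton 0)) measurable_const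
      (Real.measurable_log.comp hW).neg.ennreal_ofReal
  have hg : Integrable (fun z => (lp (W z)).toReal) ν :=
    integrable_toReal_of_lintegral_ne_top hm.aemeasurable hl.ne
  refine ⟨ν.real univ + ∫ z, (lp (W z)).toReal ∂ν, fun v e B hv he hB hi hb => ?_⟩
  have hm2 : Measurable fun z => ENNReal.ofReal (W z) * ‖v z‖ₑ ^ (2 : ℕ) :=
    hW.ennreal_ofReal.mul (hv.enorm.pow_const 2)
  have hne : ∫⁻ z, ENNReal.ofReal (W z) * ‖v z‖ₑ ^ (2 : ℕ) ∂ν ≠ ⊤ :=
    ne_top_of_le_ne_top ENNReal.ofReal_ne_top hb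
  have hh := integrable_toReal_of_lintegral_ne_top hm2.aemeasurable hne
  have hI : ∫ z, (ENNReal.ofReal (W z) * ‖v z‖ₑ ^ (2 : ℕ)).toReal ∂ν ≤ B * e ^ 2 := by
    rw [integral_toReal hm2.aemeasurable (ae_lt_top hm2 hne)]
    exact ENNReal.toReal_le_of_le_ofReal (by positivity) hb
  have hc : Integrable (fun _ : ℂ => Real.log e + 1) ν := integrable_const _
  have hle : ∫ z, Real.log (‖v z‖ + e) ∂ν ≤ ∫ z, (Real.log e + 1 + (lp (W z)).toReal +
      (ENNReal.ofReal (W z) * ‖v z‖ₑ ^ (2 : ℕ)).toReal / e ^ 2) ∂ν := by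
    refine integral_mono_ae hi ((hc.add hg).add (hh.div_const _)) ?_
    filter_upwards [ae_lt_top hm hl.ne] with z hz
    have w0 : W z ≠ 0 := by
      intro h
      rw [lp, if_pos h] at hz
      exact lt_irrefl _ hz
    have a1 : (lp (W z)).toReal = max (-Real.log (W z)) 0 := by
      rw [lp, if_neg w0, ENNReal.toReal_ofReal']
    have a2 : (ENNReal.ofReal (W z) * ‖v z‖ₑ ^ (2 : ℕ)).toReal = W z * ‖v z‖ ^ 2 := by
      rw [ENNReal.toReal_mul, ENNReal.toReal_ofReal (h0 z), ENNReal.toReal_pow, toReal_enorm]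
    rw [a1, a2]
    exact pt_Circ (norm_nonneg _) (lt_of_le_of_ne (h0 z) w0.symm) he
  have s1 := integral_add (hc.add hg) (hh.div_const (e ^ 2))
  have s2 := integral_add hc hg
  simp only [Pi.add_apply] at s1
  rw [s1, s2, integral_const, integral_div, smul_eq_mul] at hle
  have s3 : (∫ z, (ENNReal.ofReal (W z) * ‖v z‖ₑ ^ (2 : ℕ)).toReal ∂ν) / e ^ 2 ≤ B :=
    (div_le_iff₀ (by positivity)).2 hI
  linarith

lemma split_AB {ω : Measure ℂ} (hc : Cl ω) {S : Set ℂ} (hS : MeasurableSet S) {f : ℂ → ℝ}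
    (hf : Integrable f ω) : ∫ z, f z ∂ω = (∫ z in ball (0 : ℂ) 1, f z ∂ω) +
      ((∫ z in S ∩ sphere (0 : ℂ) 1, f z ∂ω) + ∫ z in sphere (0 : ℂ) 1 \ S, f z ∂ω) := by
  have h1 : ω.restrict (closedBall (0 : ℂ) 1) = ω :=
    Measure.restrict_eq_self_of_ae_mem (by simpa using hc.ae)
  have h2 : Disjoint (ball (0 : ℂ) 1) (sphere (0 : ℂ) 1) := by
    rw [Set.disjoint_left]
    intro z hz hz'
    rw [mem_ball] at hz
    rw [mem_sphere] at hz'
    linarith
  rw [inter_comm, integral_inter_add_sdiff hS hf.integrableOn,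
    ← setIntegral_union h2 isClosed_sphere.measurableSet hf.integrableOn hf.integrableOn,
    ball_union_sphere, h1]

lemma logc_AB (p : ℂ[X]) {e : ℝ} (he : 0 < e) : Continuous fun z => Real.log (‖p.eval z‖ + e) :=
  (p.continuous.norm.add continuous_const).log fun z =>
    (add_pos_of_nonneg_of_pos (norm_nonneg (p.eval z)) he).ne'

theorem sAB (h2 : SDom) (h3 : SDisc) (h4 : SCirc) : SAB := by
  intro γ L s W S z₀ ω hγ hs hW hS hA ha
  have := ha.prob
  set T : Set ℂ := sphere (0 : ℂ) 1 with hT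
  have hTm : MeasurableSet T := isClosed_sphere.measurableSet
  have hC0 : 0 < (1 - ‖z₀‖)⁻¹ * 4 := mul_pos (inv_pos.2 (by linarith [ha.lt])) four_pos
  set C0 : ℝ := (1 - ‖z₀‖)⁻¹ * 4 with hC0e
  obtain ⟨Cd, hD⟩ := h3 γ L s 1 ω hγ hs zero_le_one inferInstance ha.disc
  obtain ⟨C1, hC1⟩ := h4 W (ω.restrict (S ∩ T)) hW.meas hW.nonneg inferInstance
    ((lintegral_mono_set inter_subset_right).trans_lt ha.circ)
  obtain ⟨C2, hC2⟩ := h4 W (ω.restrict (T \ S)) hW.meas hW.nonneg inferInstance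
    ((lintegral_mono_set sdiff_subset).trans_lt ha.circ)
  have hdom := (h2 z₀ ω ha.prob ha.cl ha.jen ha.lt).1
  have hint : ∀ (p : ℂ[X]) (e : ℝ), 0 < e → Integrable (fun z => Real.log (‖p.eval z‖ + e)) ω :=
    fun p e he => int_cont ha.cl.ae (logc_AB p he).continuousOn
  have hn2 : ∀ z : ℂ, ‖z‖ ≤ 1 → ‖z - z₀‖ ≤ 2 := fun z hz => by
    linarith [norm_sub_le z z₀, ha.lt]
  have key : ∀ e : ℝ, 0 < e → e ≤ 1 → Real.log (1 / 2) ≤
      Cd + (((ω.restrict (S ∩ T)).real univ * Real.log e + C1 + C0) +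
        ((ω.restrict (T \ S)).real univ * Real.log 2 + C2 + C0)) := by
    intro e he he1
    have he2 : e ^ 2 ≤ 1 := by nlinarith
    obtain ⟨p, hp1, hp2⟩ := hA (e ^ 2) (by positivity)
    set P : ℂ[X] := (X - C z₀) * p with hP
    have eP : ∀ z, P.eval z = (z - z₀) * p.eval z := fun z => by simp [hP]
    have hz2 : Real.log (1 / 2) ≤ Real.log (‖(1 - P).eval z₀‖ + e) := by
      refine Real.log_le_log (by norm_num) ?_
      rw [eval_sub, eval_one, eP, sub_self, zero_mul, sub_zero, norm_one]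
      linarith
    set g : ℂ → ℂ := S.indicator fun ζ => (ζ - z₀)⁻¹ with hg
    set v : ℂ → ℂ := fun ζ => (ζ - z₀) * (p.eval ζ - g ζ) with hv
    have hgm : Measurable fun ζ => p.eval ζ - g ζ :=
      p.continuous.measurable.sub (Measurable.indicator (by fun_prop) hS)
    have hvm : Measurable v := (measurable_id.sub measurable_const).mul hgm
    have hl : ∀ A : Set ℂ, A ⊆ T → ∀ d : ℝ, e ^ 2 ≤ d →
        ∫⁻ z, ENNReal.ofReal (W z) * ‖v z‖ₑ ^ (2 : ℕ) ∂(ω.restrict A) ≤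
          ENNReal.ofReal (C0 * d) := by
      intro A hAT d hd
      refine (lintegral_mono_set hAT).trans ((hdom _ ?_).trans ?_)
      · exact hW.meas.ennreal_ofReal.mul (hvm.enorm.pow_const _)
      · rw [hC0e, mul_assoc, ENNReal.ofReal_mul (inv_nonneg.2 (by linarith [ha.lt])),
          ENNReal.ofReal_mul (by norm_num)]
        refine mul_le_mul_right (le_trans ?_
          (mul_le_mul_right (hp2.le.trans (ENNReal.ofReal_le_ofReal hd)) _)) _
        rw [nW, ← lintegral_const_mul' _ _ ENNReal.ofReal_ne_top]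
        refine lintegral_mono_ae (sig_ae.mono fun z hz => ?_)
        have a1 : ‖z - z₀‖ₑ ^ (2 : ℕ) ≤ ENNReal.ofReal 4 := by
          rw [← ofReal_norm, ← ENNReal.ofReal_pow (norm_nonneg _)]
          exact ENNReal.ofReal_le_ofReal (by nlinarith [hn2 z hz.le, norm_nonneg (z - z₀)])
        simp only [hv, enorm_mul, mul_pow]
        rw [mul_left_comm]
        exact mul_le_mul_left a1 _
    have e1 : EqOn (fun z => Real.log (‖(1 - P).eval z‖ + e)) (fun z => Real.log (‖v z‖ + e))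
        (S ∩ T) := by
      intro z hz
      have a1 : z - z₀ ≠ 0 := fun c => by
        have := mem_sphere_zero_iff_norm.1 hz.2
        rw [sub_eq_zero.1 c] at this
        exact ha.lt.ne this
      simp only [hv, hg, indicator_of_mem hz.1, eval_sub, eval_one, eP]
      rw [norm_sub_rev, mul_sub (z - z₀), mul_inv_cancel₀ a1]
    have e2 : EqOn (fun z => Real.log (‖P.eval z‖ + 2)) (fun z => Real.log (‖v z‖ + 2))
        (T \ S) := by
      intro z hz
      simp only [hv, hg, indicator_of_notMem hz.2, sub_zero, eP]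
    have b1 := hC1 v e C0 hvm he hC0.le
      (((hint (1 - P) e he).integrableOn (s := S ∩ T)).congr_fun e1 (hS.inter hTm))
      (hl _ inter_subset_right _ le_rfl)
    have b2 := hC2 v 2 C0 hvm two_pos hC0.le
      (((hint P 2 two_pos).integrableOn (s := T \ S)).congr_fun e2 (hTm.diff hS))
      (hl _ sdiff_subset _ (by linarith))
    rw [← setIntegral_congr_fun (hS.inter hTm) e1] at b1
    rw [← setIntegral_congr_fun (hTm.diff hS) e2] at b2
    have b3 : ∫ z in T \ S, Real.log (‖(1 - P).eval z‖ + e) ∂ω ≤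
        ∫ z in T \ S, Real.log (‖P.eval z‖ + 2) ∂ω := by
      refine integral_mono (hint (1 - P) e he).integrableOn (hint P 2 two_pos).integrableOn
        fun z => Real.log_le_log (add_pos_of_nonneg_of_pos (norm_nonneg _) he) ?_
      have a1 := norm_sub_le (1 : ℂ) (P.eval z)
      rw [norm_one] at a1
      rw [eval_sub, eval_one]
      linarith
    have b0 := hD p (1 - P) e he he1 (hp1.le.trans (ENNReal.ofReal_le_ofReal he2)) fun z hz => by
      have a1 := norm_sub_le (1 : ℂ) (P.eval z)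
      rw [norm_one, eP, norm_mul] at a1
      rw [eval_sub, eval_one, eP]
      nlinarith [hn2 z hz.le, norm_nonneg (p.eval z)]
    have j := ha.jen (1 - P) e he
    rw [split_AB ha.cl hS (hint (1 - P) e he)] at j
    linarith
  rw [← measureReal_eq_zero_iff]
  rw [measureReal_restrict_apply_univ] at key
  by_contra hm
  have hm0 : 0 < ω.real (S ∩ T) := lt_of_le_of_ne measureReal_nonneg (Ne.symm hm)
  set m := ω.real (S ∩ T) with hme
  set K := Cd + C1 + C0 + ((ω.restrict (T \ S)).real univ * Real.log 2 + C2 + C0) -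
    Real.log (1 / 2) with hK
  have hq : 0 ≤ (|K| + 1) / m := by positivity
  have k := key (Real.exp (-((|K| + 1) / m))) (Real.exp_pos _)
    (Real.exp_le_one_iff.2 (by linarith))
  rw [Real.log_exp] at k
  have k2 : m * -((|K| + 1) / m) = -(|K| + 1) := by field_simp
  rw [k2] at k
  linarith [le_abs_self K]

lemma exm_Pick (h : ℂ → ℂ) (S : Set ℂ) (hne : sig {ζ | ζ ∈ S ∧ h ζ ≠ 0} ≠ 0) :
    ∃ m : ℝ, 1 ≤ m ∧ sig {ζ | ζ ∈ S ∧ 1 / m ≤ ‖h ζ‖ ∧ ‖h ζ‖ ≤ m} ≠ 0 := by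
  by_contra hc
  push Not at hc
  apply hne
  refine measure_mono_null
    (t := ⋃ n : ℕ, {ζ | ζ ∈ S ∧ 1 / ((n : ℝ) + 1) ≤ ‖h ζ‖ ∧ ‖h ζ‖ ≤ (n : ℝ) + 1}) ?_
    (measure_iUnion_null fun n => hc _ (by linarith [Nat.cast_nonneg (α := ℝ) n]))
  rintro ζ ⟨hS, h0⟩
  have hp : 0 < ‖h ζ‖ := norm_pos_iff.2 h0
  obtain ⟨n, hn⟩ := exists_nat_ge (max ‖h ζ‖ (1 / ‖h ζ‖))
  have h2 : ‖h ζ‖ ≤ n := (le_max_left _ _).trans hn
  have h3 : 1 / ‖h ζ‖ ≤ n := (le_max_right _ _).trans hn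
  refine mem_iUnion.2 ⟨n, hS, ?_, by linarith⟩
  rw [div_le_iff₀ (by positivity)]
  rw [div_le_iff₀ hp] at h3
  nlinarith

lemma good_Pick {E A B C : Set ℂ} (hE : sig E ≠ 0)
    (hA : sig A ≤ ENNReal.ofReal ((sig E).toReal / 4))
    (hB : sig B ≤ ENNReal.ofReal ((sig E).toReal / 4))
    (hC : sig C ≤ ENNReal.ofReal ((sig E).toReal / 4)) :
    ∃ ζ, ζ ∈ E ∧ ‖ζ‖ = 1 ∧ ζ ∉ A ∧ ζ ∉ B ∧ ζ ∉ C := by
  by_contra hc
  push Not at hc
  have hN : sig {ζ : ℂ | ¬ ‖ζ‖ = 1} = 0 := ae_iff.1 sig_ae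
  have hsub : E ⊆ A ∪ B ∪ C ∪ {ζ : ℂ | ¬ ‖ζ‖ = 1} := by
    intro ζ hζ
    by_cases h1 : ‖ζ‖ = 1
    · by_cases ha : ζ ∈ A
      · exact Or.inl (Or.inl (Or.inl ha))
      · by_cases hb : ζ ∈ B
        · exact Or.inl (Or.inl (Or.inr hb))
        · exact Or.inl (Or.inr (hc ζ hζ h1 ha hb))
    · exact Or.inr h1
  have hfin : sig E ≠ ⊤ := measure_ne_top _ _
  have hpos : 0 < (sig E).toReal := ENNReal.toReal_pos hE hfin
  have hk : 0 ≤ (sig E).toReal / 4 := by positivity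
  have h1 : sig E ≤ ENNReal.ofReal ((sig E).toReal / 4 + (sig E).toReal / 4 +
      (sig E).toReal / 4) := by
    rw [ENNReal.ofReal_add (by positivity) hk, ENNReal.ofReal_add hk hk]
    calc sig E ≤ sig (A ∪ B ∪ C ∪ {ζ : ℂ | ¬ ‖ζ‖ = 1}) := measure_mono hsub
      _ ≤ sig (A ∪ B ∪ C) + sig {ζ : ℂ | ¬ ‖ζ‖ = 1} := measure_union_le _ _
      _ = sig (A ∪ B ∪ C) := by rw [hN, add_zero]
      _ ≤ sig (A ∪ B) + sig C := measure_union_le _ _
      _ ≤ sig A + sig B + sig C := add_le_add (measure_union_le _ _) le_rfl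
      _ ≤ _ := add_le_add (add_le_add hA hB) hC
  have h2 := ENNReal.toReal_le_of_le_ofReal (by positivity) h1
  linarith

theorem sPick (h1 : SL1) : SPick := by
  intro F h S _ hi hS hne hF
  obtain ⟨m, hm, hE⟩ := exm_Pick h S hne
  set E : Set ℂ := {ζ | ζ ∈ S ∧ 1 / m ≤ ‖h ζ‖ ∧ ‖h ζ‖ ≤ m} with hEdef
  have hm0 : 0 < m := by linarith
  have hκ : 0 < (sig E).toReal / 4 := by
    have := ENNReal.toReal_pos hE (measure_ne_top _ _)
    positivity
  have hη : 0 < 1 / (4 * m) := by positivity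
  have i2 : Integrable (fun ζ => ((‖h ζ‖ : ℝ) : ℂ)) sig := hi.norm.ofReal
  have i3 : Integrable (fun ζ => (((Sᶜ.indicator 1 : ℂ → ℝ) ζ : ℝ) : ℂ)) sig :=
    ((integrable_const (1 : ℝ)).indicator hS.compl).ofReal
  obtain ⟨r0, hr0, H0⟩ := hF _ hη
  obtain ⟨r1, hr1, H1⟩ := h1 h hi _ _ hη hκ
  obtain ⟨r2, hr2, H2⟩ := h1 _ i2 _ _ hη hκ
  obtain ⟨r3, hr3, H3⟩ := h1 _ i3 _ _ hη hκ
  refine ⟨1 / (2 * m), by positivity, fun ρ₀ hρ₀ => ?_⟩
  obtain ⟨ρ, hρ, hρ1⟩ := exists_between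
    (show max (max (max ρ₀ 0) (max r0 r1)) (max r2 r3) < 1 by
      simp only [max_lt_iff]
      exact ⟨⟨⟨hρ₀, one_pos⟩, hr0, hr1⟩, hr2, hr3⟩)
  simp only [max_lt_iff] at hρ
  obtain ⟨⟨⟨a0, a1⟩, a2, a3⟩, a4, a5⟩ := hρ
  obtain ⟨ζ, ⟨hζS, hlo, hhi⟩, hζ, b1, b2, b3⟩ :=
    good_Pick hE (H1 ρ a3 hρ1) (H2 ρ a4 hρ1) (H3 ρ a5 hρ1)
  simp only [mem_ofPred_eq, not_lt] at b1 b2 b3
  have hn : ‖(ρ : ℂ) * ζ‖ = ρ := by
    rw [norm_mul, hζ, mul_one, Complex.norm_real, Real.norm_of_nonneg a1.le]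
  have e1 : 1 / m = 1 / (2 * m) + 1 / (4 * m) + 1 / (4 * m) := by
    field_simp
    ring
  have e2 : 1 / (4 * m) ≤ 1 / 4 := one_div_le_one_div_of_le (by norm_num) (by linarith)
  refine ⟨ρ * ζ, by rw [hn]; exact a0, by rw [hn]; exact hρ1, ?_, ?_, ?_⟩
  · have c0 := H0 (ρ * ζ) (by rw [hn]; exact a2) (by rw [hn]; exact hρ1)
    have c1 : ‖h ζ‖ ≤ ‖F (ρ * ζ)‖ + ‖F (ρ * ζ) - Po h (ρ * ζ)‖ + ‖Po h (ρ * ζ) - h ζ‖ := by
      have e : h ζ = F (ρ * ζ) - (F (ρ * ζ) - Po h (ρ * ζ)) - (Po h (ρ * ζ) - h ζ) := by ring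
      calc ‖h ζ‖ = ‖F (ρ * ζ) - (F (ρ * ζ) - Po h (ρ * ζ)) - (Po h (ρ * ζ) - h ζ)‖ := by rw [← e]
        _ ≤ ‖F (ρ * ζ) - (F (ρ * ζ) - Po h (ρ * ζ))‖ + ‖Po h (ρ * ζ) - h ζ‖ := norm_sub_le _ _
        _ ≤ _ := add_le_add (norm_sub_le _ _) le_rfl
    linarith
  · rw [Po_real (fun ζ => ‖h ζ‖), ← Complex.ofReal_sub, Complex.norm_real, Real.norm_eq_abs] at b2
    have c := (abs_le.1 b2).2
    rw [one_div_one_div]
    linarith
  · rw [Po_real (Sᶜ.indicator 1), ← Complex.ofReal_sub, Complex.norm_real, Real.norm_eq_abs,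
      indicator_of_notMem (by simpa using hζS)] at b3
    have c := (abs_le.1 b3).2
    linarith

end Pool.Agent.MP_17fac5_an.Js
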