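import Mathlib

/-! Splitting and Jensen measures: working definitions, basic facts, statements of the steps. -/

set_option autoImplicit false

namespace Pool.Agent.MP_17fac5_an.Js

open MeasureTheory Filter Topology Metric Set Polynomial
open scoped ComplexConjugate ENNReal

/-- arc length on the unit circle -/
noncomputable def sig : Measure ℂ :=
  Measure.map (fun θ : ℝ => Complex.exp ((θ : ℂ) * Complex.I))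
    (volume.restrict (Ioc (0 : ℝ) (2 * Real.pi)))

noncomputable def PK (z ζ : ℂ) : ℝ := (1 - ‖z‖ ^ 2) / ‖ζ - z‖ ^ 2 / (2 * Real.pi)
noncomputable def Po (h : ℂ → ℂ) (z : ℂ) : ℂ := ∫ ζ, (PK z ζ : ℂ) * h ζ ∂sig
noncomputable def Pr (h : ℂ → ℝ) (z : ℂ) : ℝ := ∫ ζ, PK z ζ * h ζ ∂sig
noncomputable def TT (φ : ℂ → ℂ) (z : ℂ) : ℂ := ∫ w, φ w / (w - z)
noncomputable def CC (h : ℂ → ℂ) (z : ℂ) : ℂ := ∫ ζ, h ζ / (ζ - z) ∂sig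
noncomputable def FF (φ h : ℂ → ℂ) (z : ℂ) : ℂ := TT φ z + CC h z
noncomputable def hh (h : ℂ → ℂ) (ζ : ℂ) : ℂ := 2 * Real.pi * conj ζ * h ζ
noncomputable def tg (p q : ℂ[X]) (z : ℂ) : ℂ := p.eval z + conj (q.eval z)
noncomputable def K0 : ℝ := (∫ w in ball (0 : ℂ) 1, ‖w‖⁻¹) + 4
noncomputable def lp (x : ℝ) : ℝ≥0∞ := if x = 0 then ⊤ else ENNReal.ofReal (-Real.log x)
noncomputable def ta (ε x : ℝ) : ℝ := max 0 (-Real.log (x + ε))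

/-- bounded, measurable, supported in the open disc -/
def BS (φ : ℂ → ℂ) (M : ℝ) : Prop :=
  Measurable φ ∧ (∀ w, ‖φ w‖ ≤ M) ∧ ∀ w, 1 ≤ ‖w‖ → φ w = 0

def Jen (z₀ : ℂ) (ω : Measure ℂ) : Prop := ∀ (p : ℂ[X]) (ε : ℝ), 0 < ε →
  Real.log (‖p.eval z₀‖ + ε) ≤ ∫ z, Real.log (‖p.eval z‖ + ε) ∂ω

def Cl (ω : Measure ℂ) : Prop := ω (closedBall (0 : ℂ) 1)ᶜ = 0

structure Wt (γ : ℂ → ℝ) (L : NNReal) : Prop where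
  lip : LipschitzWith L γ
  nonneg : ∀ z, ‖z‖ < 1 → 0 ≤ γ z
  zero : ∀ z, ‖z‖ = 1 → γ z = 0

structure Bw (W : ℂ → ℝ) : Prop where
  meas : Measurable W
  nonneg : ∀ z, 0 ≤ W z
  fin : ∫⁻ ζ, ENNReal.ofReal (W ζ) ∂sig < ⊤

noncomputable def nG (γ : ℂ → ℝ) (s : ℝ) (p : ℂ[X]) : ℝ≥0∞ :=
  ∫⁻ z in ball (0 : ℂ) 1, ENNReal.ofReal (γ z ^ s) * ‖p.eval z‖ₑ ^ (2 : ℕ)
noncomputable def nW (W : ℂ → ℝ) (g : ℂ → ℂ) : ℝ≥0∞ :=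
  ∫⁻ ζ, ENNReal.ofReal (W ζ) * ‖g ζ‖ₑ ^ (2 : ℕ) ∂sig

def App (γ : ℂ → ℝ) (s : ℝ) (W : ℂ → ℝ) (g : ℂ → ℂ) : Prop := ∀ ε : ℝ, 0 < ε → ∃ p : ℂ[X],
  nG γ s p < ENNReal.ofReal ε ∧ nW W (fun ζ => p.eval ζ - g ζ) < ENNReal.ofReal ε

structure Adm (γ W : ℂ → ℝ) (z₀ : ℂ) (ω : Measure ℂ) : Prop where
  lt : ‖z₀‖ < 1
  prob : IsProbabilityMeasure ω
  cl : Cl ω
  jen : Jen z₀ ω
  disc : ∫⁻ z in ball (0 : ℂ) 1, lp (γ z) ∂ω < ⊤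
  circ : ∫⁻ z in sphere (0 : ℂ) 1, lp (W z) ∂ω < ⊤

structure Stage (γ : ℂ → ℝ) (a : ℝ) (F : ℂ → ℂ) (z₀ : ℂ) (K r : ℝ) (ω : Measure ℂ) : Prop where
  prob : IsProbabilityMeasure ω
  supp : ∀ᵐ z ∂ω, (‖z‖ < r ∧ ‖F z‖ ≤ γ z ^ a) ∨ ‖z‖ = r
  jen : Jen z₀ ω
  mean : ∀ h : ℂ → ℝ, Integrable h sig → Integrable (Pr h) ω ∧ ∫ z, Pr h z ∂ω = Pr h z₀
  bd : ∀ ε : ℝ, 0 < ε → ε ≤ 1 →
    Integrable (fun z => ta ε ‖F z‖) ω ∧ ∫ z, ta ε ‖F z‖ ∂ω ≤ K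

def Lim (ωs : ℕ → Measure ℂ) (ω : Measure ℂ) : Prop := IsProbabilityMeasure ω ∧ Cl ω ∧
  ∃ l : Filter ℕ, l.NeBot ∧ l ≤ atTop ∧ ∀ f : ℂ → ℝ, Continuous f →
    Tendsto (fun k => ∫ z, f z ∂ωs k) l (𝓝 (∫ z, f z ∂ω))

/-! ### basic facts -/

lemma meas_e : Measurable fun θ : ℝ => Complex.exp ((θ : ℂ) * Complex.I) := by fun_prop

instance : IsFiniteMeasure sig := by unfold sig; infer_instance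

lemma sig_ae : ∀ᵐ ζ ∂sig, ‖ζ‖ = 1 := by
  rw [sig, ae_map_iff meas_e.aemeasurable (isClosed_eq continuous_norm continuous_const).measurableSet]
  exact Eventually.of_forall fun θ => Complex.norm_exp_ofReal_mul_I θ

lemma lint_sig {f : ℂ → ℝ≥0∞} (hf : Measurable f) : ∫⁻ ζ, f ζ ∂sig =
    ∫⁻ θ in Ioc (0 : ℝ) (2 * Real.pi), f (Complex.exp ((θ : ℂ) * Complex.I)) :=
  lintegral_map hf meas_e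

lemma int_sig {E : Type} [NormedAddCommGroup E] [NormedSpace ℝ E] {f : ℂ → E}
    (hf : AEStronglyMeasurable f sig) : ∫ ζ, f ζ ∂sig =
    ∫ θ in Ioc (0 : ℝ) (2 * Real.pi), f (Complex.exp ((θ : ℂ) * Complex.I)) :=
  integral_map meas_e.aemeasurable hf

lemma Cl.ae {ω : Measure ℂ} (h : Cl ω) : ∀ᵐ z ∂ω, ‖z‖ ≤ 1 := by
  have h1 : ∀ᵐ z ∂ω, z ∈ closedBall (0 : ℂ) 1 := h
  simpa using h1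

lemma int_cont {E : Type} [NormedAddCommGroup E] {ω : Measure ℂ} [IsFiniteMeasure ω] {r : ℝ}
    (h : ∀ᵐ z ∂ω, ‖z‖ ≤ r) {f : ℂ → E} (hf : ContinuousOn f (closedBall 0 r)) : Integrable f ω := by
  have h1 : ω.restrict (closedBall 0 r) = ω :=
    Measure.restrict_eq_self_of_ae_mem (by simpa using h)
  rw [← h1]
  exact hf.integrableOn_compact (isCompact_closedBall 0 r)

lemma PK_meas (z : ℂ) : Measurable (PK z) := by unfold PK; fun_prop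

lemma PK_nonneg {z : ℂ} (hz : ‖z‖ < 1) (ζ : ℂ) : 0 ≤ PK z ζ := by
  have : 0 ≤ 1 - ‖z‖ ^ 2 := by nlinarith [norm_nonneg z]
  unfold PK
  positivity

lemma PK_le {z ζ : ℂ} (hz : ‖z‖ < 1) (hζ : ‖ζ‖ = 1) : PK z ζ ≤ (1 - ‖z‖)⁻¹ := by
  have h0 := norm_nonneg z
  have h1 : 0 < 1 - ‖z‖ := by linarith
  have h2 : 1 - ‖z‖ ≤ ‖ζ - z‖ := by linarith [norm_sub_norm_le ζ z]
  have h3 : (1 - ‖z‖ ^ 2) / ‖ζ - z‖ ^ 2 ≤ (1 - ‖z‖ ^ 2) / (1 - ‖z‖) ^ 2 := by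
    have : 0 ≤ 1 - ‖z‖ ^ 2 := by nlinarith
    gcongr
  have h4 : (1 - ‖z‖ ^ 2) / (1 - ‖z‖) ^ 2 = (1 + ‖z‖) * (1 - ‖z‖)⁻¹ := by
    field_simp
    ring
  rw [PK, div_le_iff₀ (by positivity)]
  have h5 : 0 < (1 - ‖z‖)⁻¹ := inv_pos.2 h1
  nlinarith [Real.pi_gt_three]

lemma PK_int {h : ℂ → ℝ} (hi : Integrable h sig) {z : ℂ} (hz : ‖z‖ < 1) :
    Integrable (fun ζ => PK z ζ * h ζ) sig :=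
  hi.bdd_mul (c := (1 - ‖z‖)⁻¹) (PK_meas z).aestronglyMeasurable (by
    filter_upwards [sig_ae] with ζ hζ
    rw [Real.norm_of_nonneg (PK_nonneg hz ζ)]
    exact PK_le hz hζ)

lemma PK_intC {h : ℂ → ℂ} (hi : Integrable h sig) {z : ℂ} (hz : ‖z‖ < 1) :
    Integrable (fun ζ => (PK z ζ : ℂ) * h ζ) sig :=
  hi.bdd_mul (c := (1 - ‖z‖)⁻¹)
    (Complex.measurable_ofReal.comp (PK_meas z)).aestronglyMeasurable (by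
    filter_upwards [sig_ae] with ζ hζ
    rw [Complex.norm_real, Real.norm_of_nonneg (PK_nonneg hz ζ)]
    exact PK_le hz hζ)

lemma Pr_nonneg {h : ℂ → ℝ} (h0 : ∀ ζ, 0 ≤ h ζ) {z : ℂ} (hz : ‖z‖ < 1) : 0 ≤ Pr h z :=
  integral_nonneg fun ζ => mul_nonneg (PK_nonneg hz ζ) (h0 ζ)

lemma Pr_le {h : ℂ → ℝ} (hi : Integrable h sig) (h0 : ∀ ζ, 0 ≤ h ζ) {z : ℂ} (hz : ‖z‖ < 1) :
    Pr h z ≤ (1 - ‖z‖)⁻¹ * ∫ ζ, h ζ ∂sig := by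
  rw [← integral_const_mul]
  refine integral_mono_ae (PK_int hi hz) (hi.const_mul _) ?_
  filter_upwards [sig_ae] with ζ hζ using mul_le_mul_of_nonneg_right (PK_le hz hζ) (h0 ζ)

lemma Po_norm (h : ℂ → ℂ) {z : ℂ} (hz : ‖z‖ < 1) : ‖Po h z‖ ≤ Pr (fun ζ => ‖h ζ‖) z := by
  refine (norm_integral_le_integral_norm _).trans (le_of_eq ?_)
  simp only [Pr, norm_mul, Complex.norm_real, Real.norm_of_nonneg (PK_nonneg hz _)]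

lemma Po_sub {h k : ℂ → ℂ} (hi : Integrable h sig) (hk : Integrable k sig) {z : ℂ}
    (hz : ‖z‖ < 1) : Po (fun ζ => h ζ - k ζ) z = Po h z - Po k z := by
  simp only [Po, mul_sub]
  exact integral_sub (PK_intC hi hz) (PK_intC hk hz)

lemma Po_real (h : ℂ → ℝ) (z : ℂ) : Po (fun ζ => (h ζ : ℂ)) z = (Pr h z : ℂ) := by
  simp only [Po, Pr, ← Complex.ofReal_mul]
  exact integral_ofReal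

lemma tg_cont (p q : ℂ[X]) : Continuous (tg p q) :=
  p.continuous.add (Complex.continuous_conj.comp q.continuous)

lemma tg_int (p q : ℂ[X]) : Integrable (tg p q) sig :=
  int_cont (r := 1) (sig_ae.mono fun _ h => h.le) (tg_cont p q).continuousOn

lemma hh_norm (h : ℂ → ℂ) {ζ : ℂ} (hζ : ‖ζ‖ = 1) : ‖hh h ζ‖ = 2 * Real.pi * ‖h ζ‖ := by
  simp [hh, hζ, abs_of_pos Real.pi_pos]

lemma hh_int {h : ℂ → ℂ} (hi : Integrable h sig) : Integrable (hh h) sig :=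
  hi.bdd_mul (c := 2 * Real.pi) (f := fun ζ : ℂ => 2 * Real.pi * conj ζ)
    (continuous_const.mul Complex.continuous_conj).aestronglyMeasurable (by
    filter_upwards [sig_ae] with ζ hζ
    simp [hζ, abs_of_pos Real.pi_pos])

lemma K0_pos : 0 < K0 := by
  have : 0 ≤ ∫ w in ball (0 : ℂ) 1, ‖w‖⁻¹ := integral_nonneg fun _ => by positivity
  unfold K0
  linarith

lemma Wt.le {γ : ℂ → ℝ} {L : NNReal} (h : Wt γ L) {z : ℂ} (hz : ‖z‖ ≤ 1) :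
    γ z ≤ L * (1 - ‖z‖) := by
  obtain ⟨u, hu, e⟩ : ∃ u : ℂ, ‖u‖ = 1 ∧ z = (‖z‖ : ℂ) * u :=
    ⟨_, Complex.norm_exp_ofReal_mul_I z.arg, (Complex.norm_mul_exp_arg_mul_I z).symm⟩
  have h1 := h.lip.dist_le_mul z u
  have h2 : dist z u = 1 - ‖z‖ := by
    have : z - u = -(((1 - ‖z‖ : ℝ) : ℂ) * u) := by
      conv_lhs => rw [e]
      push_cast
      ring
    rw [dist_eq_norm, this, norm_neg, norm_mul, hu, mul_one, Complex.norm_real,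
      Real.norm_of_nonneg (by linarith)]
  rw [h2, h.zero u hu, Real.dist_eq, sub_zero] at h1
  exact (le_abs_self _).trans h1

lemma ta_nonneg (ε x : ℝ) : 0 ≤ ta ε x := le_max_left _ _

lemma ta_anti {ε x y : ℝ} (hε : 0 < ε) (hx : 0 ≤ x) (h : x ≤ y) : ta ε y ≤ ta ε x :=
  max_le_max le_rfl (neg_le_neg (Real.log_le_log (by linarith) (by linarith)))

lemma ta_le {ε x : ℝ} (hε : 0 < ε) (h1 : ε ≤ 1) (hx : 0 ≤ x) : ta ε x ≤ -Real.log ε :=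
  max_le (neg_nonneg.2 (Real.log_nonpos hε.le h1))
    (neg_le_neg (Real.log_le_log hε (by linarith)))

lemma ta_lip {ε x y : ℝ} (hε : 0 < ε) (hx : 0 ≤ x) (hy : 0 ≤ y) :
    ta ε x ≤ ta ε y + |x - y| / ε := by
  have h0 : 0 ≤ |x - y| / ε := by positivity
  refine max_le (add_nonneg (ta_nonneg _ _) h0) ?_
  have h1 : Real.log ((y + ε) / (x + ε)) ≤ (y + ε) / (x + ε) - 1 :=
    Real.log_le_sub_one_of_pos (by positivity)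
  rw [Real.log_div (by positivity) (by positivity)] at h1
  have h2 : (y + ε) / (x + ε) - 1 ≤ |x - y| / ε := by
    have e : (y + ε) / (x + ε) - 1 = (y - x) / (x + ε) := by
      field_simp
      ring
    rw [e]
    calc (y - x) / (x + ε) ≤ |x - y| / (x + ε) := by
          gcongr
          linarith [neg_abs_le (x - y)]
      _ ≤ |x - y| / ε := by
          gcongr
          linarith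
  have h3 : -Real.log (y + ε) ≤ ta ε y := le_max_right _ _
  linarith

lemma ta_cont {X : Type} [TopologicalSpace X] {ε : ℝ} (hε : 0 < ε) {v : X → ℝ}
    (hv : Continuous v) (h0 : ∀ x, 0 ≤ v x) : Continuous fun x => ta ε (v x) :=
  continuous_const.max ((hv.add continuous_const).log fun x =>
    (add_pos_of_nonneg_of_pos (h0 x) hε).ne').neg

lemma lp_meas : Measurable lp :=
  Measurable.ite (measurableSet_singleton 0) measurable_const (by fun_prop)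

lemma lp_liminf {x : ℝ} (hx : 0 ≤ x) :
    Tendsto (fun j : ℕ => ENNReal.ofReal (ta (1 / ((j : ℝ) + 1)) x)) atTop (𝓝 (lp x)) := by
  rcases hx.eq_or_lt with rfl | hx
  · rw [lp, if_pos rfl]
    refine ENNReal.tendsto_ofReal_atTop.comp (tendsto_atTop_mono (fun j => ?_)
      (Real.tendsto_log_atTop.comp (tendsto_natCast_atTop_atTop.atTop_add tendsto_const_nhds
        (C := 1))))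
    rw [ta, zero_add, one_div, Real.log_inv, neg_neg]
    exact le_max_right _ _
  · have e : ENNReal.ofReal (-Real.log x) = ENNReal.ofReal (max 0 (-Real.log x)) := by simp
    rw [lp, if_neg hx.ne', e]
    refine ENNReal.tendsto_ofReal (tendsto_const_nhds.max (Tendsto.neg (Tendsto.log ?_ hx.ne')))
    simpa using (tendsto_one_div_add_atTop_nhds_zero_nat (𝕜 := ℝ)).const_add x

/-! ### the circle -/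

def SRep : Prop := ∀ (p q : ℂ[X]) (z : ℂ), ‖z‖ < 1 → Po (tg p q) z = tg p q z

def SCC : Prop := ∀ h : ℂ → ℂ, Integrable h sig → DifferentiableOn ℂ (CC h) (ball 0 1)

def SPh : Prop := ∀ h : ℂ → ℝ, Integrable h sig →
  ∃ H : ℂ → ℂ, DifferentiableOn ℂ H (ball 0 1) ∧ ∀ z, ‖z‖ < 1 → (H z).re = Pr h z

def STrig : Prop :=
  (∀ φ : ℂ → ℂ, Continuous φ → ∀ η : ℝ, 0 < η → ∃ p q : ℂ[X], ∀ ζ, ‖ζ‖ = 1 →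
    ‖φ ζ - tg p q ζ‖ ≤ η) ∧
  ∀ h : ℂ → ℂ, Integrable h sig → ∀ η : ℝ, 0 < η → ∃ p q : ℂ[X],
    ∫ ζ, ‖h ζ - tg p q ζ‖ ∂sig ≤ η

def SCtr : Prop := ∀ (h : ℂ → ℂ) (ρ : ℝ), Integrable h sig → 0 ≤ ρ → ρ < 1 →
  Integrable (fun ζ => Po h (ρ * ζ)) sig ∧ ∫ ζ, ‖Po h (ρ * ζ)‖ ∂sig ≤ ∫ ζ, ‖h ζ‖ ∂sig

def SL1 : Prop := ∀ h : ℂ → ℂ, Integrable h sig → ∀ η κ : ℝ, 0 < η → 0 < κ →
  ∃ ρ₀ : ℝ, ρ₀ < 1 ∧ ∀ ρ : ℝ, ρ₀ < ρ → ρ < 1 →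
    sig {ζ | η < ‖Po h (ρ * ζ) - h ζ‖} ≤ ENNReal.ofReal κ

/-! ### Jensen measures -/

def SJh : Prop := ∀ (z₀ : ℂ) (ω : Measure ℂ), IsProbabilityMeasure ω → Cl ω → Jen z₀ ω →
  ‖z₀‖ < 1 → ∀ p : ℂ[X], ∫ z, (p.eval z).re ∂ω = (p.eval z₀).re

def SDomC : Prop := ∀ (z₀ : ℂ) (ω : Measure ℂ), IsProbabilityMeasure ω → Cl ω → Jen z₀ ω →
  ‖z₀‖ < 1 → ∀ φ : ℂ → ℝ, Continuous φ → (∀ z, 0 ≤ φ z) →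
    ∫ z in sphere (0 : ℂ) 1, φ z ∂ω ≤ Pr φ z₀

def SCmp : Prop := ∀ μ ν : Measure ℂ, IsFiniteMeasure μ → IsFiniteMeasure ν →
  (∀ φ : ℂ → ℝ, Continuous φ → (∀ z, 0 ≤ φ z) → (∀ z, φ z ≤ 1) → ∫ z, φ z ∂μ ≤ ∫ z, φ z ∂ν) →
  μ ≤ ν

def SDom : Prop := ∀ (z₀ : ℂ) (ω : Measure ℂ), IsProbabilityMeasure ω → Cl ω → Jen z₀ ω →
  ‖z₀‖ < 1 → (∀ f : ℂ → ℝ≥0∞, Measurable f →
    ∫⁻ z in sphere (0 : ℂ) 1, f z ∂ω ≤ ENNReal.ofReal (1 - ‖z₀‖)⁻¹ * ∫⁻ ζ, f ζ ∂sig) ∧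
  ∀ A : Set ℂ, MeasurableSet A → ω.real (A ∩ sphere 0 1) ≤ Pr (A.indicator 1) z₀

/-! ### approximation excludes mass -/

def SMean : Prop := ∀ (p : ℂ[X]) (z : ℂ) (ρ : ℝ), 0 < ρ →
  ENNReal.ofReal (Real.pi * ρ ^ 2 * ‖p.eval z‖ ^ 2) ≤ ∫⁻ w in ball z ρ, ‖p.eval w‖ₑ ^ (2 : ℕ)

def SPt : Prop := ∀ (γ : ℂ → ℝ) (L : NNReal) (s : ℝ), Wt γ L → 0 < s → ∃ C : ℝ, 0 < C ∧
  ∀ (p : ℂ[X]) (B : ℝ), 0 ≤ B → nG γ s p ≤ ENNReal.ofReal B → ∀ z, ‖z‖ < 1 →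
    ‖p.eval z‖ ^ 2 * γ z ^ (s + 2) ≤ C * B

def SDisc : Prop := ∀ (γ : ℂ → ℝ) (L : NNReal) (s B : ℝ) (ω : Measure ℂ), Wt γ L → 0 < s → 0 ≤ B →
  IsFiniteMeasure ω → ∫⁻ z in ball (0 : ℂ) 1, lp (γ z) ∂ω < ⊤ →
  ∃ C : ℝ, ∀ (p q : ℂ[X]) (e : ℝ), 0 < e → e ≤ 1 → nG γ s p ≤ ENNReal.ofReal B →
    (∀ z, ‖z‖ < 1 → ‖q.eval z‖ ≤ 1 + 2 * ‖p.eval z‖) →
    ∫ z in ball (0 : ℂ) 1, Real.log (‖q.eval z‖ + e) ∂ω ≤ C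

def SCirc : Prop := ∀ (W : ℂ → ℝ) (ν : Measure ℂ), Measurable W → (∀ z, 0 ≤ W z) →
  IsFiniteMeasure ν → ∫⁻ z, lp (W z) ∂ν < ⊤ → ∃ C : ℝ, ∀ (v : ℂ → ℂ) (e B : ℝ), Measurable v →
    0 < e → 0 ≤ B → Integrable (fun z => Real.log (‖v z‖ + e)) ν →
    ∫⁻ z, ENNReal.ofReal (W z) * ‖v z‖ₑ ^ (2 : ℕ) ∂ν ≤ ENNReal.ofReal (B * e ^ 2) →
    ∫ z, Real.log (‖v z‖ + e) ∂ν ≤ ν.real univ * Real.log e + C + B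

def SAB : Prop := ∀ (γ : ℂ → ℝ) (L : NNReal) (s : ℝ) (W : ℂ → ℝ) (S : Set ℂ) (z₀ : ℂ)
  (ω : Measure ℂ), Wt γ L → 0 < s → Bw W → MeasurableSet S →
  App γ s W (S.indicator fun ζ => (ζ - z₀)⁻¹) → Adm γ W z₀ ω → ω (S ∩ sphere 0 1) = 0

/-! ### duality -/

def SProj : Prop := ∀ (μ : Measure ℂ) (v : ℂ → ℂ) (ε : ℝ), IsFiniteMeasure μ → Cl μ →
  Measurable v → ∫⁻ z, ‖v z‖ₑ ^ (2 : ℕ) ∂μ < ⊤ → 0 < ε →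
  (∀ p : ℂ[X], ENNReal.ofReal ε ≤ ∫⁻ z, ‖p.eval z - v z‖ₑ ^ (2 : ℕ) ∂μ) →
  ∃ u : ℂ → ℂ, Measurable u ∧ ∫⁻ z, ‖u z‖ₑ ^ (2 : ℕ) ∂μ < ⊤ ∧
    (∀ n : ℕ, ∫ z, z ^ n * conj (u z) ∂μ = 0) ∧ ∫ z, v z * conj (u z) ∂μ ≠ 0 ∧
    ∃ (P : ℕ → ℂ[X]) (B : ℝ), 0 ≤ B ∧
      (∀ k, ∫⁻ z, ‖(P k).eval z‖ₑ ^ (2 : ℕ) ∂μ ≤ ENNReal.ofReal B) ∧
      ∀ᵐ z ∂μ, Tendsto (fun k => (P k).eval z) atTop (𝓝 (v z - u z))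

noncomputable def mu (γ : ℂ → ℝ) (s : ℝ) (W : ℂ → ℝ) : Measure ℂ :=
  (volume.restrict (ball (0 : ℂ) 1)).withDensity (fun z => ENNReal.ofReal (γ z ^ s)) +
    sig.withDensity fun z => ENNReal.ofReal (W z)

def SMu : Prop := ∀ (γ : ℂ → ℝ) (L : NNReal) (s : ℝ) (W : ℂ → ℝ), Wt γ L → 0 < s → Bw W →
  IsFiniteMeasure (mu γ s W) ∧ Cl (mu γ s W) ∧
  (∀ f : ℂ → ℝ≥0∞, Measurable f → ∫⁻ z, f z ∂mu γ s W =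
    (∫⁻ z in ball (0 : ℂ) 1, ENNReal.ofReal (γ z ^ s) * f z) +
      ∫⁻ ζ, ENNReal.ofReal (W ζ) * f ζ ∂sig) ∧
  (∀ f : ℂ → ℂ, Measurable f → Integrable f (mu γ s W) →
    IntegrableOn (fun z => f z * ((γ z ^ s : ℝ) : ℂ)) (ball 0 1) ∧
    Integrable (fun ζ => f ζ * (W ζ : ℂ)) sig ∧ ∫ z, f z ∂mu γ s W =
      (∫ z in ball (0 : ℂ) 1, f z * ((γ z ^ s : ℝ) : ℂ)) + ∫ ζ, f ζ * (W ζ : ℂ) ∂sig) ∧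
  ∀ Q : ℂ → Prop, (∀ᵐ z ∂mu γ s W, Q z) →
    ∀ᵐ z ∂volume.restrict (ball (0 : ℂ) 1), γ z ≠ 0 → Q z

def SDual : Prop := ∀ (γ : ℂ → ℝ) (L : NNReal) (s : ℝ) (W : ℂ → ℝ) (S : Set ℂ) (g₀ : ℂ → ℂ),
  Wt γ L → 2 < s → Bw W → Measurable g₀ → (∀ z, z ∉ S → g₀ z = 0) → nW W g₀ < ⊤ →
  ¬ App γ s W g₀ → ∃ (φ g : ℂ → ℂ) (M : ℝ), 0 ≤ M ∧ Measurable φ ∧ (∀ w, 1 ≤ ‖w‖ → φ w = 0) ∧
    (∀ w, ‖w‖ < 1 → ‖φ w‖ ≤ M * γ w ^ (s / 2 - 1)) ∧ Measurable g ∧ nW W g < ⊤ ∧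
    Integrable (fun ζ => g ζ * (W ζ : ℂ)) sig ∧
    (∀ n : ℕ, (∫ w, w ^ n * φ w) + ∫ ζ, ζ ^ n * (g ζ * (W ζ : ℂ)) ∂sig = 0) ∧
    sig {ζ | ζ ∈ S ∧ g ζ * (W ζ : ℂ) ≠ 0} ≠ 0

/-! ### the planar Cauchy transform -/

def STb : Prop := (∀ z : ℂ, IntegrableOn (fun w => ‖w - z‖⁻¹) (ball 0 1) ∧
    ∫ w in ball (0 : ℂ) 1, ‖w - z‖⁻¹ ≤ K0) ∧
  ∀ (φ : ℂ → ℂ) (M : ℝ), BS φ M → Measurable (TT φ) ∧ ∀ z,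
    Integrable (fun w => φ w / (w - z)) ∧ ‖TT φ z‖ ≤ K0 * M

def STc : Prop := ∀ (φ : ℂ → ℂ) (M : ℝ), BS φ M → Continuous (TT φ)

def STh : Prop := ∀ (φ : ℂ → ℂ) (M : ℝ) (U : Set ℂ), BS φ M → IsOpen U → (∀ w ∈ U, φ w = 0) →
  DifferentiableOn ℂ (TT φ) U

def STm : Prop := ∀ (a b : ℂ → ℂ) (M N : ℝ), BS a M → BS b N → ∀ z,
  TT a z * TT b z = TT (fun w => a w * TT b w + b w * TT a w) z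

def STe : Prop := ∀ (ψ : ℂ → ℂ) (M : ℝ), BS ψ M → ∀ z,
  Complex.exp (-TT ψ z) = 1 + TT (fun w => -(ψ w * Complex.exp (-TT ψ w))) z

def STx : Prop := ∀ (χ h : ℂ → ℂ) (M r : ℝ), BS χ M → Integrable h sig → r < 1 →
  (∀ w, r ≤ ‖w‖ → χ w = 0) → (∃ N, BS (fun w => χ w * CC h w) N) ∧ ∀ z, ‖z‖ < 1 →
    CC h z * TT χ z = TT (fun w => χ w * CC h w) z + CC (fun ζ => h ζ * TT χ ζ) z

def SHol : Prop := ∀ (φ h : ℂ → ℂ) (M M' r : ℝ) (Ω : Set ℂ), BS φ M → Integrable h sig →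
  IsOpen Ω → r < 1 → Ω ⊆ ball 0 r → 0 ≤ M' →
  (∀ w ∈ Ω, FF φ h w ≠ 0 ∧ ‖φ w‖ ≤ M' * ‖FF φ h w‖) →
  ∃ u : ℂ → ℂ, Continuous u ∧ (∀ z, ‖u z‖ ≤ K0 * M') ∧
    DifferentiableOn ℂ (fun z => FF φ h z * Complex.exp (-u z)) Ω

def SOut : Prop := ∀ (φ h : ℂ → ℂ) (M : ℝ), BS φ M → Integrable h sig →
  (∀ n : ℕ, (∫ w, w ^ n * φ w) + ∫ ζ, ζ ^ n * h ζ ∂sig = 0) → ∀ z, 1 < ‖z‖ → FF φ h z = 0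

def SJump : Prop := ∀ (φ h : ℂ → ℂ) (M : ℝ), BS φ M → Integrable h sig →
  (∀ n : ℕ, (∫ w, w ^ n * φ w) + ∫ ζ, ζ ^ n * h ζ ∂sig = 0) →
  (∀ z, ‖z‖ < 1 → ‖FF φ h z - Po (hh h) z‖ ≤ 2 * K0 * M) ∧
  ∀ η : ℝ, 0 < η → ∃ ρ : ℝ, ρ < 1 ∧ ∀ z, ρ < ‖z‖ → ‖z‖ < 1 → ‖FF φ h z - Po (hh h) z‖ ≤ η

/-! ### existence of Jensen measures -/

def SHB : Prop := ∀ (X : Type) [TopologicalSpace X] [CompactSpace X] [Nonempty X]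
  (R : (X → ℝ) → ℝ → Prop), (∀ c : ℝ, 0 < c → R (fun _ => c) c) →
  (∀ v a v' a', R v a → R v' a' → R (fun x => v x * v' x) (a * a')) →
  (∀ v a, R v a → ∀ x, 0 ≤ v x) → (∀ v a M, R v a → (∀ x, v x ≤ M) → a ≤ M) →
  ∃ Λ : C(X, ℝ) →ₗ[ℝ] ℝ, ∀ v a, R v a → 0 < a → ∀ u : C(X, ℝ),
    (∀ x, v x ≤ Real.exp (u x)) → Real.log a ≤ Λ u

def SRz : Prop := ∀ (K : Set ℂ), IsCompact K → ∀ Λ : C(K, ℝ) →ₗ[ℝ] ℝ,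
  (∀ (u : C(K, ℝ)) (c : ℝ), (∀ x, c ≤ u x) → c ≤ Λ u) →
  ∃ ω : Measure ℂ, IsProbabilityMeasure ω ∧ ω Kᶜ = 0 ∧
    ∀ (f : ℂ → ℝ) (u : C(K, ℝ)), (∀ x : K, u x = f x) → ∫ z, f z ∂ω = Λ u

def SBish : Prop := ∀ (Ω : Set ℂ) (z₀ : ℂ), IsOpen Ω → Bornology.IsBounded Ω → z₀ ∈ Ω →
  ∃ ω : Measure ℂ, IsProbabilityMeasure ω ∧ ω (frontier Ω)ᶜ = 0 ∧
    ∀ f : ℂ → ℂ, DiffContOnCl ℂ f Ω → ∀ ε : ℝ, 0 < ε →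
      Real.log (‖f z₀‖ + ε) ≤ ∫ z, Real.log (‖f z‖ + ε) ∂ω

def JH (z₀ : ℂ) (ω : Measure ℂ) : Prop := ∀ H : ℂ → ℂ, DifferentiableOn ℂ H (ball 0 1) →
  ∀ ε : ℝ, 0 < ε → Real.log (‖H z₀‖ + ε) ≤ ∫ z, Real.log (‖H z‖ + ε) ∂ω

def SSt1 : Prop := ∀ (γ : ℂ → ℝ) (L : NNReal) (a M M₁ r : ℝ) (φ h : ℂ → ℂ) (z₀ : ℂ), Wt γ L →
  0 < a → 0 ≤ M → BS φ M₁ → (∀ w, ‖w‖ < 1 → ‖φ w‖ ≤ M * γ w ^ a) → Integrable h sig →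
  γ z₀ ^ a < ‖FF φ h z₀‖ → ‖z₀‖ < r → r < 1 → ∃ ω : Measure ℂ, IsProbabilityMeasure ω ∧
    (∀ᵐ z ∂ω, (‖z‖ < r ∧ ‖FF φ h z‖ ≤ γ z ^ a) ∨ ‖z‖ = r) ∧ JH z₀ ω ∧ ∀ ε : ℝ, 0 < ε →
      Real.log ‖FF φ h z₀‖ - 2 * K0 * M ≤ ∫ z, Real.log (‖FF φ h z‖ + ε) ∂ω

def SMv : Prop := ∀ (z₀ : ℂ) (r : ℝ) (ω : Measure ℂ), IsProbabilityMeasure ω → r < 1 → ‖z₀‖ < 1 →
  (∀ᵐ z ∂ω, ‖z‖ ≤ r) → JH z₀ ω → ∀ h : ℂ → ℝ, Integrable h sig →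
    Integrable (Pr h) ω ∧ ∫ z, Pr h z ∂ω = Pr h z₀

def SSt2 : Prop := ∀ (γ : ℂ → ℝ) (a r δ A B : ℝ) (F h : ℂ → ℂ) (z₀ : ℂ) (ω : Measure ℂ),
  IsProbabilityMeasure ω → ‖z₀‖ < 1 → r < 1 → Integrable h sig → ContinuousOn F (ball 0 1) →
  (∀ᵐ z ∂ω, (‖z‖ < r ∧ ‖F z‖ ≤ γ z ^ a) ∨ ‖z‖ = r) → JH z₀ ω →
  (∀ ε : ℝ, 0 < ε → Real.log ‖F z₀‖ - A ≤ ∫ z, Real.log (‖F z‖ + ε) ∂ω) →
  (∀ z, ‖z‖ < 1 → ‖F z - Po h z‖ ≤ B) → 0 < δ → δ ≤ ‖F z₀‖ → Pr (fun ζ => ‖h ζ‖) z₀ ≤ 1 / δ →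
  Stage γ a F z₀ (A + B + 1 / δ - Real.log δ) r ω

def SPick : Prop := ∀ (F h : ℂ → ℂ) (S : Set ℂ), Measurable h → Integrable h sig →
  MeasurableSet S → sig {ζ | ζ ∈ S ∧ h ζ ≠ 0} ≠ 0 →
  (∀ η : ℝ, 0 < η → ∃ ρ : ℝ, ρ < 1 ∧ ∀ z, ρ < ‖z‖ → ‖z‖ < 1 → ‖F z - Po h z‖ ≤ η) →
  ∃ δ : ℝ, 0 < δ ∧ ∀ ρ₀ : ℝ, ρ₀ < 1 → ∃ z₀, ρ₀ < ‖z₀‖ ∧ ‖z₀‖ < 1 ∧ δ ≤ ‖F z₀‖ ∧
    Pr (fun ζ => ‖h ζ‖) z₀ ≤ 1 / δ ∧ Pr (Sᶜ.indicator 1) z₀ ≤ 1 / 4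

/-! ### the limit -/

def SWk : Prop := ∀ ωs : ℕ → Measure ℂ, (∀ k, IsProbabilityMeasure (ωs k)) →
  (∀ k, ∀ᵐ z ∂ωs k, ‖z‖ ≤ 1) → ∃ ω, Lim ωs ω

def SLa : Prop := ∀ (γ : ℂ → ℝ) (L : NNReal) (a K : ℝ) (F : ℂ → ℂ) (z₀ : ℂ) (r : ℕ → ℝ)
  (ωs : ℕ → Measure ℂ) (ω : Measure ℂ), Wt γ L → 0 < a → (∀ k, r k < 1) →
  Tendsto r atTop (𝓝 1) → (∀ k, Stage γ a F z₀ K (r k) (ωs k)) → Lim ωs ω →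
  Jen z₀ ω ∧ ∫⁻ z in ball (0 : ℂ) 1, lp (γ z ^ a) ∂ω ≤ ENNReal.ofReal K

def SLb : Prop := ∀ (γ : ℂ → ℝ) (L : NNReal) (a K : ℝ), Wt γ L → 0 < a → ∃ ρ₀ : ℝ, ρ₀ < 1 ∧
  ∀ (z₀ : ℂ) (ω : Measure ℂ), ρ₀ < ‖z₀‖ → ‖z₀‖ < 1 → IsProbabilityMeasure ω → Cl ω → Jen z₀ ω →
    ∫⁻ z in ball (0 : ℂ) 1, lp (γ z ^ a) ∂ω ≤ ENNReal.ofReal K →
    1 / 2 ≤ ω.real (sphere 0 1)

def SLc : Prop := ∀ (γ : ℂ → ℝ) (L : NNReal) (a K β : ℝ), Wt γ L → 0 < a → 0 < β →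
  ∃ t : ℝ, t < 1 ∧ ∀ (F : ℂ → ℂ) (z₀ : ℂ) (r : ℝ) (ω : Measure ℂ), r < 1 →
    Stage γ a F z₀ K r ω → ω.real {z | t ≤ ‖z‖ ∧ ‖z‖ < r} ≤ β

def SLd : Prop := ∀ (γ : ℂ → ℝ) (L : NNReal) (a K : ℝ) (F h : ℂ → ℂ) (z₀ : ℂ) (r : ℕ → ℝ)
  (ωs : ℕ → Measure ℂ) (ω : Measure ℂ), Wt γ L → 0 < a → ‖z₀‖ < 1 → Integrable h sig →
  (∀ η : ℝ, 0 < η → ∃ ρ : ℝ, ρ < 1 ∧ ∀ z, ρ < ‖z‖ → ‖z‖ < 1 → ‖F z - Po h z‖ ≤ η) →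
  (∀ k, r k < 1) → Tendsto r atTop (𝓝 1) → (∀ k, Stage γ a F z₀ K (r k) (ωs k)) → Lim ωs ω →
  ∀ (ε : ℝ) (p q : ℂ[X]), 0 < ε → ε ≤ 1 → ∫ z in sphere (0 : ℂ) 1, ta ε ‖tg p q z‖ ∂ω ≤
    K + (1 - ‖z₀‖)⁻¹ * (∫ ζ, ‖h ζ - tg p q ζ‖ ∂sig) / ε

def SLe : Prop := ∀ (h : ℂ → ℂ) (ν : Measure ℂ) (K C : ℝ), Measurable h → Integrable h sig →
  IsFiniteMeasure ν → 0 ≤ C →
  (∀ f : ℂ → ℝ≥0∞, Measurable f → ∫⁻ z, f z ∂ν ≤ ENNReal.ofReal C * ∫⁻ ζ, f ζ ∂sig) →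
  (∀ (ε : ℝ) (p q : ℂ[X]), 0 < ε → ε ≤ 1 → ∫ z, ta ε ‖tg p q z‖ ∂ν ≤
    K + C * (∫ ζ, ‖h ζ - tg p q ζ‖ ∂sig) / ε) →
  ∫⁻ z, lp ‖h z‖ ∂ν ≤ ENNReal.ofReal K

def SLw : Prop := ∀ (W : ℂ → ℝ) (g : ℂ → ℂ) (ν : Measure ℂ) (C : ℝ), Bw W → Measurable g →
  nW W g < ⊤ → IsFiniteMeasure ν →
  (∀ f : ℂ → ℝ≥0∞, Measurable f → ∫⁻ z, f z ∂ν ≤ ENNReal.ofReal C * ∫⁻ ζ, f ζ ∂sig) →
  ∫⁻ z, lp ‖hh (fun ζ => g ζ * (W ζ : ℂ)) z‖ ∂ν < ⊤ → ∫⁻ z, lp (W z) ∂ν < ⊤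

end Pool.Agent.MP_17fac5_an.Js
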